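import Mathlib
import Pool.Agent.Helper760.Kolm
set_option autoImplicit false
set_option linter.unusedSectionVars false
namespace Pool.Agent.Helper637.GW
open Finset Polynomial Filter
open Pool.Agent.Helper760.Kolm
open Encodable

/-- `D p y` is the output of the decompressor `D` on program `p` and condition `y`. `D` is an
optimal conditional decompressor: it is partial recursive and simulates every partial recursive
conditional decompressor `E` with programs longer by at most a constant. -/
def OptimalCond (D : List Bool → List Bool →. List Bool) : Prop :=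
  Partrec₂ D ∧ ∀ E : List Bool → List Bool →. List Bool, Partrec₂ E →
    ∃ c : ℕ, ∀ p y s : List Bool, s ∈ E p y → ∃ q : List Bool, s ∈ D q y ∧ q.length ≤ p.length + c

/-- Conditional complexity `C(s | y)` with respect to the decompressor `D`: the least length of a
program `p` with `D(p, y) = s`. The complexity `C(s)` is `condC D s []`. -/
noncomputable def condC (D : List Bool → List Bool →. List Bool) (s y : List Bool) : ℕ :=
  sInf {m : ℕ | ∃ p : List Bool, s ∈ D p y ∧ p.length = m}

theorem exists_optimalCond : ∃ D, OptimalCond D := by
  refine ⟨fun p y => (M p (encode y)).bind (fun m => Part.ofOption (decode (α := List Bool) m)),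
    ?_, ?_⟩
  · refine Partrec.bind ?_ ?_
    · exact partrec_M.comp Computable.fst (Computable.encode.comp Computable.snd)
    · exact (Computable.decode.comp Computable.snd).ofOption
  · intro E hE
    obtain ⟨c, hc⟩ := M_opt (fun p y => (Part.ofOption (decode (α := List Bool) y)).bind
        (fun y' => (E p y').map encode)) (by
      refine Partrec.bind ?_ ?_
      · exact (Computable.decode.comp Computable.snd).ofOption
      · exact Partrec.map (hE.comp (Computable.fst.comp Computable.fst) Computable.snd)
          (Computable.encode.comp Computable.snd).to₂)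
    refine ⟨c + 1, fun p y s hs => ⟨List.replicate c true ++ false :: p, ?_, ?_⟩⟩
    · simp only [Part.mem_bind_iff]
      refine ⟨encode s, hc p (encode y) (encode s) ?_, ?_⟩
      · simp only [encodek, Part.mem_bind_iff]
        refine ⟨y, by simp, ?_⟩
        exact Part.mem_map encode hs
      · simp
    · simp; omega

section
variable {D : List Bool → List Bool →. List Bool}

theorem condC_le (s y p : List Bool) (h : s ∈ D p y) : condC D s y ≤ p.length :=
  Nat.sInf_le ⟨p, h, rfl⟩

theorem condC_spec (hD : OptimalCond D) (s y : List Bool) :
    ∃ p, s ∈ D p y ∧ p.length = condC D s y := by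
  obtain ⟨c, hc⟩ := hD.2 (fun p _ => Part.some p)
    (Partrec.comp (Partrec.some (α := List Bool)) Computable.fst)
  have h : {m : ℕ | ∃ p : List Bool, s ∈ D p y ∧ p.length = m}.Nonempty := by
    obtain ⟨q, hq, hl⟩ := hc s y s (Part.mem_some s)
    exact ⟨q.length, q, hq, rfl⟩
  exact Nat.sInf_mem h

/-- fewer than `2 ^ (m+1)` strings have complexity at most `m` -/
theorem card_cx (hD : OptimalCond D) (y : List Bool) (m : ℕ) (S : Finset (List Bool))
    (hS : ∀ s ∈ S, condC D s y ≤ m) : S.card < 2 ^ (m + 1) := by
  classical
  choose f hf1 hf2 using condC_spec hD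
  have h1 : S.card ≤ ((allLe m).toFinset).card := by
    refine Finset.card_le_card_of_injOn (fun s => f s y) ?_ ?_
    · intro a ha
      have := hS a ha
      simp only [List.coe_toFinset, Set.mem_ofPred_eq, mem_allLe, hf2]
      exact this
    · intro a _ a' _ h
      have h2 := hf1 a y
      simp only at h
      rw [h] at h2
      exact Part.mem_unique h2 (hf1 a' y)
  have h2 : ((allLe m).toFinset).card ≤ (allLe m).length := List.toFinset_card_le _
  have h3 := length_allLe m
  omega

theorem finite_cx (hD : OptimalCond D) (y : List Bool) (m : ℕ) :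
    {s | condC D s y ≤ m}.Finite := by
  by_contra h
  obtain ⟨t, ht, hc⟩ := Set.Infinite.exists_subset_card_eq h (2 ^ (m + 1))
  have := card_cx hD y m t (fun s hs => ht hs)
  omega

/-- the strings of complexity at most `m` -/
noncomputable def ball (hD : OptimalCond D) (y : List Bool) (m : ℕ) : Finset (List Bool) :=
  (finite_cx hD y m).toFinset

theorem mem_ball (hD : OptimalCond D) (y : List Bool) (m : ℕ) (s : List Bool) :
    s ∈ ball hD y m ↔ condC D s y ≤ m := by
  simp [ball]

theorem card_ball (hD : OptimalCond D) (y : List Bool) (m : ℕ) :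
    (ball hD y m).card < 2 ^ (m + 1) :=
  card_cx hD y m _ (fun s hs => (mem_ball hD y m s).1 hs)

/-- Master upper bound for computable decoders with three numerical parameters. -/
theorem cx_fun (hD : OptimalCond D) (h : (ℕ × ℕ × ℕ) × List Bool × List Bool → List Bool)
    (hh : Computable h) : ∃ c : ℕ, ∀ n i j p b, i ≤ 2 * n → j ≤ n →
      condC D (h ((n, i, j), p, b)) b ≤ p.length + 8 * Nat.size n + c := by
  obtain ⟨c, hc⟩ := hD.2 (fun p y => (Part.ofOption
      (decode (α := ℕ × ℕ × ℕ) (numOf p))).map (fun g => h (g, restOf p, y))) (by
    refine Partrec.map ?_ ?_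
    · exact (Computable.decode.comp (primrec_numOf.to_comp.comp Computable.fst)).ofOption
    · exact (hh.comp (Computable.pair Computable.snd (Computable.pair
        (primrec_restOf.to_comp.comp (Computable.fst.comp Computable.fst))
        (Computable.snd.comp Computable.fst)))).to₂)
  refine ⟨c + 9, ?_⟩
  intro n i j p b hi hj
  obtain ⟨q, hq, hl⟩ := hc (putNum (encode (n, i, j)) p) b (h ((n, i, j), p, b)) (by
    rw [numOf_putNum, restOf_putNum, encodek]
    simp)
  have h1 := condC_le _ _ _ hq
  rw [length_putNum] at hl
  have h2 : Nat.size (encode ((n, i, j) : ℕ × ℕ × ℕ)) ≤ 4 * Nat.size n + 4 := by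
    rw [encode_prod_val, encode_prod_val]
    simp only [encode_nat]
    have e1 : Nat.size i ≤ Nat.size n + 1 := by
      refine (size_mono hi).trans ?_
      have := size_mul_le 2 n
      have h22 : Nat.size 2 = 2 := by decide
      have h3 : Nat.size (2 * n) ≤ Nat.size n + 1 := by
        rw [two_mul]
        exact (size_add_le n n).trans (by simp)
      exact h3
    have e2 : Nat.size j ≤ Nat.size n := size_mono hj
    have e3 := size_pair_le i j
    have e4 := size_pair_le n (Nat.pair i j)
    have e5 : max (Nat.size i) (Nat.size j) ≤ Nat.size n + 1 := max_le e1 (by omega)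
    have e6 : max (Nat.size n) (Nat.size (Nat.pair i j)) ≤ 2 * Nat.size n + 2 :=
      max_le (by omega) (by omega)
    omega
  omega

end
end Pool.Agent.Helper637.GW
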