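import Mathlib
set_option autoImplicit false
set_option linter.unusedSectionVars false
namespace Pool.Agent.Helper637.GW
open Finset Polynomial

/-- the polynomial over `F_2` with coefficient string `s`, lowest degree first -/
noncomputable def polyOf : List Bool → (ZMod 2)[X]
  | [] => 0
  | b :: s => C (if b then 1 else 0) + X * polyOf s

theorem coeff_polyOf (s : List Bool) (i : ℕ) :
    (polyOf s).coeff i = if s.getD i false then 1 else 0 := by
  induction s generalizing i with
  | nil => simp [polyOf]
  | cons b s ih =>
    cases i with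
    | zero => cases b <;> simp [polyOf]
    | succ i =>
      rw [polyOf, coeff_add, coeff_X_mul, ih, coeff_C_succ, zero_add]
      simp

theorem polyOf_inj {s t : List Bool} (h : s.length = t.length) (e : polyOf s = polyOf t) :
    s = t := by
  apply List.ext_getElem h
  intro i h1 h2
  have h3 := congrArg (fun p => p.coeff i) e
  simp only [coeff_polyOf] at h3
  rw [List.getD_eq_getElem _ _ h1, List.getD_eq_getElem _ _ h2] at h3
  cases ha : s[i] <;> cases hb : t[i] <;> simp_all

theorem degree_polyOf (s : List Bool) : (polyOf s).degree < s.length := by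
  rw [degree_lt_iff_coeff_zero]
  intro m hm
  rw [coeff_polyOf, List.getD_eq_default _ _ hm]
  simp

theorem zmod2_cases (z : ZMod 2) : z = 0 ∨ z = 1 := by
  revert z; decide

theorem exists_polyOf (p : (ZMod 2)[X]) (n : ℕ) (h : p.degree < n) :
    ∃ s : List Bool, s.length = n ∧ polyOf s = p := by
  classical
  refine ⟨(List.range n).map (fun i => decide (p.coeff i = 1)), by simp, ?_⟩
  ext i
  rw [coeff_polyOf]
  by_cases hi : i < n
  · rw [List.getD_eq_getElem _ _ (by simpa using hi)]
    rcases zmod2_cases (p.coeff i) with h | h <;> simp [h]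
  · rw [List.getD_eq_default _ _ (by simpa using hi)]
    rw [degree_lt_iff_coeff_zero] at h
    simp [h i (by omega)]

theorem polyOf_append (s t : List Bool) :
    polyOf (s ++ t) = polyOf s + X ^ s.length * polyOf t := by
  induction s with
  | nil => simp [polyOf]
  | cons b s ih =>
    rw [List.cons_append, polyOf, ih, polyOf, List.length_cons]
    ring

theorem polyOf_replicate (k : ℕ) : polyOf (List.replicate k false) = 0 := by
  induction k with
  | zero => simp [polyOf]
  | succ k ih => rw [List.replicate_succ, polyOf, ih]; simp

/-- The element of `F_2[X]/(g)` represented by the coefficient string `s`. -/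
noncomputable def elt (g : (ZMod 2)[X]) (s : List Bool) : AdjoinRoot g :=
  AdjoinRoot.mk g (polyOf s)

theorem elt_inj {g : (ZMod 2)[X]} {n : ℕ} (hg : g.natDegree = n) (h0 : g ≠ 0) {s t : List Bool}
    (hs : s.length = n) (ht : t.length = n) (h : elt g s = elt g t) : s = t := by
  apply polyOf_inj (hs.trans ht.symm)
  unfold elt at h
  rw [AdjoinRoot.mk_eq_mk] at h
  have h1 : (polyOf s - polyOf t).degree < g.degree := by
    rw [degree_eq_natDegree h0, hg]
    refine lt_of_le_of_lt (degree_sub_le _ _) (max_lt ?_ ?_)
    · rw [← hs]; exact degree_polyOf s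
    · rw [← ht]; exact degree_polyOf t
  exact sub_eq_zero.1 (eq_zero_of_dvd_of_degree_lt h h1)

theorem elt_surj {g : (ZMod 2)[X]} {n : ℕ} (hg : g.natDegree = n) (h0 : g ≠ 0)
    (z : AdjoinRoot g) : ∃ s : List Bool, s.length = n ∧ elt g s = z := by
  obtain ⟨p, rfl⟩ := AdjoinRoot.mk_surjective z
  have h1 : (p % g).degree < (n : WithBot ℕ) := by
    rw [← hg, ← degree_eq_natDegree h0]
    exact EuclideanDomain.mod_lt p h0
  obtain ⟨s, hs, hsp⟩ := exists_polyOf _ n h1
  refine ⟨s, hs, ?_⟩
  unfold elt
  rw [hsp, AdjoinRoot.mk_eq_mk]
  refine ⟨-(p / g), ?_⟩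
  have := EuclideanDomain.div_add_mod p g
  linear_combination this

/-- `x + x = 0` -/
theorem add_self_adj {g : (ZMod 2)[X]} (z : AdjoinRoot g) : z + z = 0 := by
  have h : (2 : (ZMod 2)[X]) = 0 := by
    have : (2 : ZMod 2) = 0 := rfl
    calc (2 : (ZMod 2)[X]) = C (2 : ZMod 2) := (map_ofNat C 2).symm
      _ = 0 := by rw [this, C_0]
  obtain ⟨p, rfl⟩ := AdjoinRoot.mk_surjective z
  rw [← map_add, ← two_mul, h, zero_mul, map_zero]

/-- low part times low part is low -/
theorem elt_low {g : (ZMod 2)[X]} {n i j : ℕ} (hij : i + j ≤ n) (s t : List Bool)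
    (hs : s.length = i) (ht : t.length = j) :
    ∃ w : List Bool, w.length = i + j ∧
      elt g (w ++ List.replicate (n - (i + j)) false) =
        elt g (s ++ List.replicate (n - i) false) * elt g (t ++ List.replicate (n - j) false) := by
  have h1 : (polyOf s * polyOf t).degree < ((i + j : ℕ) : WithBot ℕ) := by
    by_cases h : polyOf s = 0 ∨ polyOf t = 0
    · have : polyOf s * polyOf t = 0 := by
        rcases h with h | h <;> simp [h]
      rw [this, degree_zero]
      exact WithBot.bot_lt_coe _
    · push Not at h
      have hs' := degree_polyOf s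
      have ht' := degree_polyOf t
      rw [degree_eq_natDegree h.1, hs] at hs'
      rw [degree_eq_natDegree h.2, ht] at ht'
      have hs2 : (polyOf s).natDegree < i := by exact_mod_cast hs'
      have ht2 : (polyOf t).natDegree < j := by exact_mod_cast ht'
      rw [degree_mul, degree_eq_natDegree h.1, degree_eq_natDegree h.2]
      exact_mod_cast (by omega : (polyOf s).natDegree + (polyOf t).natDegree < i + j)
  obtain ⟨w, hw, hwp⟩ := exists_polyOf _ _ h1
  refine ⟨w, hw, ?_⟩
  unfold elt
  rw [← map_mul, polyOf_append, polyOf_append, polyOf_append, polyOf_replicate, polyOf_replicate,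
    polyOf_replicate, hwp]
  simp

/-- splitting a string into low part and high part -/
theorem elt_split (g : (ZMod 2)[X]) {n i : ℕ} (hi : i ≤ n) (s : List Bool) (hs : s.length = n) :
    elt g s = elt g (s.take i ++ List.replicate (n - i) false) +
      elt g (List.replicate i false ++ s.drop i) := by
  unfold elt
  rw [← map_add]
  congr 1
  conv_lhs => rw [← List.take_append_drop i s]
  rw [polyOf_append, polyOf_append, polyOf_append, polyOf_replicate, polyOf_replicate]
  simp [hs, hi]

/-- adding a low element does not change the high part -/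
theorem drop_eq {g : (ZMod 2)[X]} {n d : ℕ} (hg : g.natDegree = n) (h0 : g ≠ 0) (hd : d ≤ n)
    (w s t : List Bool) (hw : w.length = d) (hs : s.length = n) (ht : t.length = n)
    (h : elt g s = elt g (w ++ List.replicate (n - d) false) + elt g t) :
    s.drop d = t.drop d := by
  have h1 : polyOf s = polyOf (w ++ List.replicate (n - d) false) + polyOf t := by
    unfold elt at h
    rw [← map_add, AdjoinRoot.mk_eq_mk] at h
    have h1 : (polyOf s - (polyOf (w ++ List.replicate (n - d) false) + polyOf t)).degree
        < g.degree := by
      rw [degree_eq_natDegree h0, hg]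
      refine lt_of_le_of_lt (degree_sub_le _ _) (max_lt ?_ ?_)
      · rw [← hs]; exact degree_polyOf s
      · refine lt_of_le_of_lt (degree_add_le _ _) (max_lt ?_ ?_)
        · have := degree_polyOf (w ++ List.replicate (n - d) false)
          rw [List.length_append, hw, List.length_replicate, Nat.add_sub_cancel' hd] at this
          exact this
        · rw [← ht]; exact degree_polyOf t
    exact sub_eq_zero.1 (eq_zero_of_dvd_of_degree_lt h h1)
  apply List.ext_getElem (by simp [hs, ht])
  intro i h2 h3
  rw [List.getElem_drop, List.getElem_drop]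
  have h4 := congrArg (fun p => p.coeff (d + i)) h1
  simp only [coeff_add, coeff_polyOf] at h4
  have hi : d + i < n := by rw [List.length_drop, hs] at h2; omega
  have h5 : (w ++ List.replicate (n - d) false).getD (d + i) false = false := by
    rw [List.getD_eq_getElem _ _ (by simp [hw]; omega)]
    rw [List.getElem_append_right (by omega)]
    simp
  rw [h5, List.getD_eq_getElem _ _ (by omega), List.getD_eq_getElem _ _ (by omega)] at h4
  cases ha : s[d + i]'(by omega) <;> cases hb : t[d + i]'(by omega) <;> simp_all

end Pool.Agent.Helper637.GW
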