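import Mathlib
import Pool.Agent.Helper637.GW.Str
import Pool.Agent.Helper637.GW.Cx
set_option autoImplicit false
set_option linter.unusedSectionVars false
namespace Pool.Agent.Helper637.GW
open Finset Polynomial Filter

/-- A computable sequence of the fields with `2 ^ n` elements: `f n` is an irreducible polynomial of
degree `n` over `F_2` (for `n ≥ 1`), the elements of `F_2[X]/(f n)` are the coefficient strings of
length `n`, and `s * t + r` is computable from `n` and the strings `s`, `t`, `r`. -/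
structure FieldSeq (f : ℕ → (ZMod 2)[X]) : Prop where
  deg : ∀ n, 1 ≤ n → (f n).natDegree = n
  irr : ∀ n, 1 ≤ n → Irreducible (f n)
  comp : ∃ m : ℕ → List Bool → List Bool → List Bool → List Bool,
    Computable (fun z : ℕ × List Bool × List Bool × List Bool => m z.1 z.2.1 z.2.2.1 z.2.2.2) ∧
    ∀ n s t r, 1 ≤ n → s.length = n → t.length = n → r.length = n →
      (m n s t r).length = n ∧ elt (f n) (m n s t r) = elt (f n) s * elt (f n) t + elt (f n) r

/-- `L = a ++ b` is the `2n`-bit string of the line `y = a x + b`, `P = x ++ y` is the `2n`-bit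
string of the point `(x, y)`, and the point lies on the line. -/
def Incident (f : ℕ → (ZMod 2)[X]) (n : ℕ) (L P : List Bool) : Prop :=
  ∃ a b x y : List Bool, a.length = n ∧ b.length = n ∧ x.length = n ∧ y.length = n ∧
    L = a ++ b ∧ P = x ++ y ∧ elt (f n) y = elt (f n) a * elt (f n) x + elt (f n) b

/-- The normalised Gray–Wyner profile `𝒫` of the random incident line–point pairs. -/
def Prof (D : List Bool → List Bool →. List Bool) (pr : List Bool → List Bool → List Bool)
    (f : ℕ → (ZMod 2)[X]) : Set (ℝ × ℝ × ℝ) :=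
  {t | ∀ k : ℝ, ∃ K : ℝ, ∀ᶠ n : ℕ in atTop, ∀ L P : List Bool, Incident f n L P →
    3 * (n : ℝ) - k * Real.logb 2 n ≤ condC D (pr L P) [] →
    ∃ q : List Bool, (condC D q [] : ℝ) ≤ t.2.2 * n + K * Real.logb 2 n ∧
      (condC D L q : ℝ) ≤ t.1 * n + K * Real.logb 2 n ∧
      (condC D P q : ℝ) ≤ t.2.1 * n + K * Real.logb 2 n}

/-- The lower bound for the third coordinate. -/
noncomputable def low (a b : ℝ) : ℝ :=
  max 0 (max (2 - a) (max (2 - b) (max (3 - max b (a + b / 2)) (max (3 - max a (b + a / 2))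
    (3 - max (a + b - 1) ((a + b + 1) / 2))))))

theorem size_le_log {n : ℕ} (hn : 2 ≤ n) : (Nat.size n : ℝ) ≤ 2 * Real.logb 2 n := by
  have h1 : 1 ≤ Real.logb 2 n := by
    rw [Real.le_logb_iff_rpow_le (by norm_num) (by positivity)]
    simpa using (by exact_mod_cast hn : (2 : ℝ) ≤ n)
  have h2 : (Nat.size n : ℝ) ≤ Real.logb 2 n + 1 := by
    have h3 : 0 < Nat.size n := Nat.size_pos.2 (by omega)
    have h4 : 2 ^ (Nat.size n - 1) ≤ n := Nat.lt_size.1 (by omega)
    have h5 : ((Nat.size n - 1 : ℕ) : ℝ) ≤ Real.logb 2 n := by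
      rw [Real.le_logb_iff_rpow_le (by norm_num) (by positivity), Real.rpow_natCast]
      exact_mod_cast h4
    rw [Nat.cast_sub (by omega)] at h5
    push_cast at h5
    linarith
  linarith

theorem mem_of {D : List Bool → List Bool →. List Bool} (pr : List Bool → List Bool → List Bool)
    (f : ℕ → (ZMod 2)[X]) {a b c : ℝ}
    (H : ∃ C : ℕ, ∀ n : ℕ, 2 ≤ n → ∀ L P, Incident f n L P → ∃ q : List Bool,
      (condC D q [] : ℝ) ≤ c * n + 8 * Nat.size n + C ∧
      (condC D L q : ℝ) ≤ a * n + 8 * Nat.size n + C ∧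
      (condC D P q : ℝ) ≤ b * n + 8 * Nat.size n + C) : (a, b, c) ∈ Prof D pr f := by
  obtain ⟨C, H⟩ := H
  intro k
  refine ⟨16 + C, ?_⟩
  filter_upwards [eventually_ge_atTop 2] with n hn L P hLP _
  obtain ⟨q, h1, h2, h3⟩ := H n hn L P hLP
  have e1 := size_le_log hn
  have e2 : 1 ≤ Real.logb 2 n := by
    rw [Real.le_logb_iff_rpow_le (by norm_num) (by positivity)]
    simpa using (by exact_mod_cast hn : (2 : ℝ) ≤ n)
  have e3 : (C : ℝ) ≤ C * Real.logb 2 n := le_mul_of_one_le_right (by positivity) e2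
  have e4 : 8 * (Nat.size n : ℝ) + C ≤ (16 + C) * Real.logb 2 n := by
    rw [add_mul]; linarith
  exact ⟨q, by linarith, by linarith, by linarith⟩

end Pool.Agent.Helper637.GW
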