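import Mathlib
import Pool.Agent.Helper637.GW.Defs
set_option autoImplicit false
set_option linter.unusedSectionVars false
namespace Pool.Agent.Helper637.GW
open Finset Polynomial Filter

/-- the type of inputs of the decoders -/
abbrev Inp := (ℕ × ℕ × ℕ) × List Bool × List Bool

theorem cn : Computable (fun z : Inp => z.1.1) := Computable.fst.comp Computable.fst
theorem ci : Computable (fun z : Inp => z.1.2.1) :=
  Computable.fst.comp (Computable.snd.comp Computable.fst)
theorem cj : Computable (fun z : Inp => z.1.2.2) :=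
  Computable.snd.comp (Computable.snd.comp Computable.fst)
theorem cp : Computable (fun z : Inp => z.2.1) := Computable.fst.comp Computable.snd
theorem cb : Computable (fun z : Inp => z.2.2) := Computable.snd.comp Computable.snd

theorem ctake {f : Inp → ℕ} {g : Inp → List Bool} (hf : Computable f) (hg : Computable g) :
    Computable (fun z => (g z).take (f z)) := by
  have h : Computable₂ (fun (k : ℕ) (l : List Bool) => l.take k) :=
    (Primrec.list_take (α := Bool)).to_comp
  exact h.comp hf hg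

theorem cdrop {f : Inp → ℕ} {g : Inp → List Bool} (hf : Computable f) (hg : Computable g) :
    Computable (fun z => (g z).drop (f z)) := by
  have h : Computable₂ (fun (k : ℕ) (l : List Bool) => l.drop k) :=
    (Primrec.list_drop (α := Bool)).to_comp
  exact h.comp hf hg

theorem capp {f g : Inp → List Bool} (hf : Computable f) (hg : Computable g) :
    Computable (fun z => f z ++ g z) := (Computable.list_append (α := Bool)).comp hf hg

theorem csub {f g : Inp → ℕ} (hf : Computable f) (hg : Computable g) :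
    Computable (fun z => f z - g z) := (Primrec.nat_sub.to_comp).comp hf hg

theorem cadd {f g : Inp → ℕ} (hf : Computable f) (hg : Computable g) :
    Computable (fun z => f z + g z) := (Primrec.nat_add.to_comp).comp hf hg

theorem czero {f : Inp → ℕ} (hf : Computable f) :
    Computable (fun z => List.replicate (f z) false) := by
  have h : Computable (fun k : ℕ => List.replicate k false) := by
    have h1 : Primrec (fun k : ℕ => (List.range k).map (fun _ => false)) :=
      Primrec.list_map Primrec.list_range (Primrec.const false).to₂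
    refine h1.to_comp.of_eq fun k => ?_
    simp
  exact h.comp hf

theorem cmul {m : ℕ → List Bool → List Bool → List Bool → List Bool}
    (hm : Computable (fun z : ℕ × List Bool × List Bool × List Bool => m z.1 z.2.1 z.2.2.1 z.2.2.2))
    {u v w : Inp → List Bool} (hu : Computable u) (hv : Computable v) (hw : Computable w) :
    Computable (fun z : Inp => m z.1.1 (u z) (v z) (w z)) := by
  have h1 : Computable (fun z : Inp => (z.1.1, u z, v z, w z)) :=
    Computable.pair cn (Computable.pair hu (Computable.pair hv hw))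
  exact Computable.comp (f := fun z : ℕ × List Bool × List Bool × List Bool =>
    m z.1 z.2.1 z.2.2.1 z.2.2.2) (g := fun z : Inp => (z.1.1, u z, v z, w z)) hm h1

variable {D : List Bool → List Bool →. List Bool} (hD : OptimalCond D)
  (pr : List Bool → List Bool → List Bool) {f : ℕ → (ZMod 2)[X]}

include hD in
/-- Putting together three decoders. -/
theorem combine {a b c : ℝ} (h1 h2 : Inp → List Bool) (c1 : Computable h1) (c2 : Computable h2)
    (C : ℕ)
    (H : ∀ n : ℕ, 2 ≤ n → ∀ L P, Incident f n L P → ∃ (i j : ℕ) (q p1 p2 : List Bool),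
      i ≤ 2 * n ∧ j ≤ n ∧ L = h1 ((n, i, j), p1, q) ∧ P = h2 ((n, i, j), p2, q) ∧
      (q.length : ℝ) ≤ c * n + C ∧ (p1.length : ℝ) ≤ a * n + C ∧ (p2.length : ℝ) ≤ b * n + C) :
    (a, b, c) ∈ Prof D pr f := by
  obtain ⟨e0, he0⟩ := cx_fun hD (fun z : Inp => z.2.1) cp
  obtain ⟨e1, he1⟩ := cx_fun hD h1 c1
  obtain ⟨e2, he2⟩ := cx_fun hD h2 c2
  apply mem_of pr f
  refine ⟨C + e0 + e1 + e2, fun n hn L P hLP => ?_⟩
  obtain ⟨i, j, q, p1, p2, hi, hj, rfl, rfl, hq, hp1, hp2⟩ := H n hn L P hLP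
  refine ⟨q, ?_, ?_, ?_⟩
  · have := he0 n i j q [] hi hj
    have h : (condC D q [] : ℝ) ≤ q.length + 8 * Nat.size n + e0 := by exact_mod_cast this
    push_cast
    have : (0 : ℝ) ≤ e1 := by positivity
    have : (0 : ℝ) ≤ e2 := by positivity
    linarith
  · have := he1 n i j p1 q hi hj
    have h : (condC D (h1 ((n, i, j), p1, q)) q : ℝ) ≤ p1.length + 8 * Nat.size n + e1 := by
      exact_mod_cast this
    push_cast
    have : (0 : ℝ) ≤ e0 := by positivity
    have : (0 : ℝ) ≤ e2 := by positivity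
    linarith
  · have := he2 n i j p2 q hi hj
    have h : (condC D (h2 ((n, i, j), p2, q)) q : ℝ) ≤ p2.length + 8 * Nat.size n + e2 := by
      exact_mod_cast this
    push_cast
    have : (0 : ℝ) ≤ e0 := by positivity
    have : (0 : ℝ) ≤ e1 := by positivity
    linarith

theorem fl {t : ℝ} {n : ℕ} (h0 : 0 ≤ t) : (⌊t * n⌋₊ : ℝ) ≤ t * n ∧ t * n - 1 ≤ (⌊t * n⌋₊ : ℝ) := by
  have h : 0 ≤ t * (n : ℝ) := by positivity
  exact ⟨Nat.floor_le h, (Nat.sub_one_lt_floor _).le⟩

include hD in
theorem inner1 {α β : ℝ} (hα : 0 ≤ α) (hα2 : α ≤ 2) (hβ : 0 ≤ β) (hβ2 : β ≤ 2) {a b c : ℝ}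
    (ha : α ≤ a) (hb : β ≤ b) (hc : 4 - α - β ≤ c) : (a, b, c) ∈ Prof D pr f := by
  refine combine hD pr (fun z => z.2.2.take z.1.2.1 ++ z.2.1) (fun z => z.2.2.drop z.1.2.1 ++ z.2.1)
    (capp (ctake ci cb) cp) (capp (cdrop ci cb) cp) 1 ?_
  rintro n hn L P ⟨s, t, x, y, hs, ht, hx, hy, rfl, rfl, he⟩
  obtain ⟨f1, f2⟩ := fl (n := n) (sub_nonneg.2 hα2)
  obtain ⟨f3, f4⟩ := fl (n := n) (sub_nonneg.2 hβ2)
  have hn0 : (0 : ℝ) ≤ n := by positivity
  have hi : ⌊(2 - α) * n⌋₊ ≤ 2 * n := by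
    have : (⌊(2 - α) * n⌋₊ : ℝ) ≤ 2 * n := by nlinarith
    exact_mod_cast this
  have hj : ⌊(2 - β) * n⌋₊ ≤ 2 * n := by
    have : (⌊(2 - β) * n⌋₊ : ℝ) ≤ 2 * n := by nlinarith
    exact_mod_cast this
  set i := ⌊(2 - α) * n⌋₊
  set j := ⌊(2 - β) * n⌋₊
  have hL : (s ++ t).length = 2 * n := by simp [hs, ht]; ring
  have hP : (x ++ y).length = 2 * n := by simp [hx, hy]; ring
  have hti : ((s ++ t).take i).length = i := by rw [List.length_take, hL]; omega
  refine ⟨i, 0, (s ++ t).take i ++ (x ++ y).take j, (s ++ t).drop i, (x ++ y).drop j, hi,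
    Nat.zero_le _, ?_, ?_, ?_, ?_, ?_⟩
  · simp only
    conv_rhs => rw [List.take_left' hti]
    rw [List.take_append_drop]
  · simp only
    conv_rhs => rw [List.drop_left' hti]
    rw [List.take_append_drop]
  · rw [List.length_append, hti, List.length_take, hP, min_eq_left hj]
    push_cast
    have : (4 - α - β) * (n : ℝ) ≤ c * n := by gcongr
    linarith
  · rw [List.length_drop, hL, Nat.cast_sub hi]
    push_cast
    have : α * (n : ℝ) ≤ a * n := by gcongr
    linarith
  · rw [List.length_drop, hP, Nat.cast_sub hj]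
    push_cast
    have : β * (n : ℝ) ≤ b * n := by gcongr
    linarith

theorem ne0 (hf : FieldSeq f) {n : ℕ} (hn : 1 ≤ n) : f n ≠ 0 := (hf.irr n hn).ne_zero

include hD in
theorem inner2 (hf : FieldSeq f) {α β : ℝ} (hα : 0 ≤ α) (hα2 : α ≤ 2) (hβ : 0 ≤ β) (hβ2 : β ≤ 1)
    {a b c : ℝ} (ha : α ≤ a) (hb : α + β ≤ b) (hc : 3 - α - β ≤ c) : (a, b, c) ∈ Prof D pr f := by
  obtain ⟨m, hm, hm'⟩ := hf.comp
  refine combine hD pr (fun z => z.2.2.take z.1.2.1 ++ z.2.1)
    (fun z => (z.2.2.drop z.1.2.1 ++ z.2.1.drop (z.1.1 + z.1.1 - z.1.2.1)) ++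
      m z.1.1 ((z.2.2.take z.1.2.1 ++ z.2.1.take (z.1.1 + z.1.1 - z.1.2.1)).take z.1.1)
        (z.2.2.drop z.1.2.1 ++ z.2.1.drop (z.1.1 + z.1.1 - z.1.2.1))
        ((z.2.2.take z.1.2.1 ++ z.2.1.take (z.1.1 + z.1.1 - z.1.2.1)).drop z.1.1))
    (capp (ctake ci cb) cp)
    (capp (capp (cdrop ci cb) (cdrop (csub (cadd cn cn) ci) cp))
      (cmul hm (ctake cn (capp (ctake ci cb) (ctake (csub (cadd cn cn) ci) cp)))
        (capp (cdrop ci cb) (cdrop (csub (cadd cn cn) ci) cp))
        (cdrop cn (capp (ctake ci cb) (ctake (csub (cadd cn cn) ci) cp))))) 2 ?_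
  rintro n hn L P ⟨s, t, x, y, hs, ht, hx, hy, rfl, rfl, he⟩
  obtain ⟨f1, f2⟩ := fl (n := n) (sub_nonneg.2 hα2)
  obtain ⟨f3, f4⟩ := fl (n := n) (sub_nonneg.2 hβ2)
  have hn0 : (0 : ℝ) ≤ n := by positivity
  have hi : ⌊(2 - α) * n⌋₊ ≤ 2 * n := by
    have : (⌊(2 - α) * n⌋₊ : ℝ) ≤ 2 * n := by nlinarith
    exact_mod_cast this
  have hj : ⌊(1 - β) * n⌋₊ ≤ n := by
    have : (⌊(1 - β) * n⌋₊ : ℝ) ≤ n := by nlinarith
    exact_mod_cast this
  set i := ⌊(2 - α) * n⌋₊
  set j := ⌊(1 - β) * n⌋₊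
  have hL : (s ++ t).length = 2 * n := by simp [hs, ht]; ring
  have hti : ((s ++ t).take i).length = i := by rw [List.length_take, hL]; omega
  have hdi : ((s ++ t).drop i).length = n + n - i := by rw [List.length_drop, hL]; omega
  have hy' : m n s x t = y := by
    obtain ⟨h1, h2⟩ := hm' n s x t (by omega) hs hx ht
    refine elt_inj (hf.deg n (by omega)) (ne0 hf (by omega)) h1 hy ?_
    rw [h2, he]
  refine ⟨i, j, (s ++ t).take i ++ x.take j, (s ++ t).drop i, (s ++ t).drop i ++ x.drop j, hi,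
    hj, ?_, ?_, ?_, ?_, ?_⟩
  · simp only
    conv_rhs => rw [List.take_left' hti]
    rw [List.take_append_drop]
  · simp only
    rw [List.take_left' hti, List.drop_left' hti, List.take_left' hdi, List.drop_left' hdi,
      List.take_append_drop, List.take_append_drop, List.take_left' hs, List.drop_left' hs, hy']
  · rw [List.length_append, hti, List.length_take, hx, min_eq_left hj]
    push_cast
    have : (3 - α - β) * (n : ℝ) ≤ c * n := by gcongr
    linarith
  · rw [List.length_drop, hL, Nat.cast_sub hi]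
    push_cast
    have : α * (n : ℝ) ≤ a * n := by gcongr
    linarith
  · rw [List.length_append, List.length_drop, hL, List.length_drop, hx, Nat.cast_add,
      Nat.cast_sub hi, Nat.cast_sub hj]
    push_cast
    have : (α + β) * (n : ℝ) ≤ b * n := by gcongr
    linarith

include hD in
theorem inner3 (hf : FieldSeq f) {α β : ℝ} (hα : 0 ≤ α) (hα2 : α ≤ 1) (hβ : 0 ≤ β) (hβ2 : β ≤ 2)
    {a b c : ℝ} (hb : β ≤ b) (ha : α + β ≤ a) (hc : 3 - α - β ≤ c) : (a, b, c) ∈ Prof D pr f := by
  obtain ⟨m, hm, hm'⟩ := hf.comp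
  refine combine hD pr
    (fun z => (z.2.2.drop z.1.2.1 ++ z.2.1.drop (z.1.1 + z.1.1 - z.1.2.1)) ++
      m z.1.1 (z.2.2.drop z.1.2.1 ++ z.2.1.drop (z.1.1 + z.1.1 - z.1.2.1))
        ((z.2.2.take z.1.2.1 ++ z.2.1.take (z.1.1 + z.1.1 - z.1.2.1)).take z.1.1)
        ((z.2.2.take z.1.2.1 ++ z.2.1.take (z.1.1 + z.1.1 - z.1.2.1)).drop z.1.1))
    (fun z => z.2.2.take z.1.2.1 ++ z.2.1)
    (capp (capp (cdrop ci cb) (cdrop (csub (cadd cn cn) ci) cp))
      (cmul hm (capp (cdrop ci cb) (cdrop (csub (cadd cn cn) ci) cp))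
        (ctake cn (capp (ctake ci cb) (ctake (csub (cadd cn cn) ci) cp)))
        (cdrop cn (capp (ctake ci cb) (ctake (csub (cadd cn cn) ci) cp)))))
    (capp (ctake ci cb) cp) 2 ?_
  rintro n hn L P ⟨s, t, x, y, hs, ht, hx, hy, rfl, rfl, he⟩
  obtain ⟨f1, f2⟩ := fl (n := n) (sub_nonneg.2 hβ2)
  obtain ⟨f3, f4⟩ := fl (n := n) (sub_nonneg.2 hα2)
  have hn0 : (0 : ℝ) ≤ n := by positivity
  have hi : ⌊(2 - β) * n⌋₊ ≤ 2 * n := by
    have : (⌊(2 - β) * n⌋₊ : ℝ) ≤ 2 * n := by nlinarith
    exact_mod_cast this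
  have hj : ⌊(1 - α) * n⌋₊ ≤ n := by
    have : (⌊(1 - α) * n⌋₊ : ℝ) ≤ n := by nlinarith
    exact_mod_cast this
  set i := ⌊(2 - β) * n⌋₊
  set j := ⌊(1 - α) * n⌋₊
  have hP : (x ++ y).length = 2 * n := by simp [hx, hy]; ring
  have hti : ((x ++ y).take i).length = i := by rw [List.length_take, hP]; omega
  have hdi : ((x ++ y).drop i).length = n + n - i := by rw [List.length_drop, hP]; omega
  have ht' : m n s x y = t := by
    obtain ⟨h1, h2⟩ := hm' n s x y (by omega) hs hx hy
    refine elt_inj (hf.deg n (by omega)) (ne0 hf (by omega)) h1 ht ?_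
    rw [h2, he, ← add_assoc, add_self_adj, zero_add]
  refine ⟨i, j, (x ++ y).take i ++ s.take j, (x ++ y).drop i ++ s.drop j, (x ++ y).drop i, hi,
    hj, ?_, ?_, ?_, ?_, ?_⟩
  · simp only
    rw [List.take_left' hti, List.drop_left' hti, List.take_left' hdi, List.drop_left' hdi,
      List.take_append_drop, List.take_append_drop, List.take_left' hx, List.drop_left' hx, ht']
  · simp only
    conv_rhs => rw [List.take_left' hti]
    rw [List.take_append_drop]
  · rw [List.length_append, hti, List.length_take, hs, min_eq_left hj]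
    push_cast
    have : (3 - α - β) * (n : ℝ) ≤ c * n := by gcongr
    linarith
  · rw [List.length_append, List.length_drop, hP, List.length_drop, hs, Nat.cast_add,
      Nat.cast_sub hi, Nat.cast_sub hj]
    push_cast
    have : (α + β) * (n : ℝ) ≤ a * n := by gcongr
    linarith
  · rw [List.length_drop, hP, Nat.cast_sub hi]
    push_cast
    have : β * (n : ℝ) ≤ b * n := by gcongr
    linarith

end Pool.Agent.Helper637.GW
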