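import Mathlib
import Pool.Agent.Helper637.GW.Inner
set_option autoImplicit false
set_option linter.unusedSectionVars false
namespace Pool.Agent.Helper637.GW
open Finset Polynomial Filter

variable {D : List Bool → List Bool →. List Bool} (hD : OptimalCond D)
  (pr : List Bool → List Bool → List Bool) {f : ℕ → (ZMod 2)[X]}

/-- first decoder: the string of the slope -/
def dS (z : Inp) : List Bool := z.2.1.take z.1.2.1 ++ z.2.2.take (z.1.1 - z.1.2.1)
/-- first decoder: the high part of the abscissa -/
def dXH (z : Inp) : List Bool :=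
  List.replicate z.1.2.2 false ++ (z.2.2.drop (z.1.1 - z.1.2.1)).take (z.1.1 - z.1.2.2)
/-- first decoder: the intercept in the new coordinates -/
def dB (z : Inp) : List Bool :=
  z.2.1.drop z.1.2.1 ++ (z.2.2.drop (z.1.1 - z.1.2.1)).drop (z.1.1 - z.1.2.2)
/-- second decoder: the string of the abscissa -/
def dX (z : Inp) : List Bool :=
  z.2.1.take z.1.2.2 ++ (z.2.2.drop (z.1.1 - z.1.2.1)).take (z.1.1 - z.1.2.2)
/-- second decoder: the ordinate in the new coordinates -/
def dY (z : Inp) : List Bool :=
  z.2.1.drop z.1.2.2 ++ (z.2.2.drop (z.1.1 - z.1.2.1)).drop (z.1.1 - z.1.2.2)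
/-- second decoder: the high part of the slope -/
def dSH (z : Inp) : List Bool := List.replicate z.1.2.1 false ++ z.2.2.take (z.1.1 - z.1.2.1)
/-- second decoder: the low part of the abscissa -/
def dXL (z : Inp) : List Bool :=
  z.2.1.take z.1.2.2 ++ List.replicate (z.1.1 - z.1.2.2) false

theorem cS : Computable dS := capp (ctake ci cp) (ctake (csub cn ci) cb)
theorem cXH : Computable dXH := capp (czero cj) (ctake (csub cn cj) (cdrop (csub cn ci) cb))
theorem cB : Computable dB := capp (cdrop ci cp) (cdrop (csub cn cj) (cdrop (csub cn ci) cb))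
theorem cX : Computable dX := capp (ctake cj cp) (ctake (csub cn cj) (cdrop (csub cn ci) cb))
theorem cY : Computable dY := capp (cdrop cj cp) (cdrop (csub cn cj) (cdrop (csub cn ci) cb))
theorem cSH : Computable dSH := capp (czero ci) (ctake (csub cn ci) cb)
theorem cXL : Computable dXL := capp (ctake cj cp) (czero (csub cn cj))

include hD in
theorem inner4 (hf : FieldSeq f) {u v : ℝ} (hu : 0 ≤ u) (hv : 0 ≤ v) (huv : u + v ≤ 1)
    {a b c : ℝ} (ha : 2 * u + v ≤ a) (hb : u + 2 * v ≤ b) (hc : 3 - 2 * u - 2 * v ≤ c) :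
    (a, b, c) ∈ Prof D pr f := by
  obtain ⟨m, hm, hm'⟩ := hf.comp
  refine combine hD pr (fun z => dS z ++ m z.1.1 (dS z) (dXH z) (dB z))
    (fun z => dX z ++ m z.1.1 (dSH z) (dXL z) (dY z))
    (capp cS (cmul hm cS cXH cB)) (capp cX (cmul hm cSH cXL cY)) 6 ?_
  rintro n hn L P ⟨s, t, x, y, hs, ht, hx, hy, rfl, rfl, he⟩
  obtain ⟨f1, f2⟩ := fl (n := n) hu
  obtain ⟨f3, f4⟩ := fl (n := n) hv
  have hn0 : (0 : ℝ) ≤ n := by positivity
  have hij : ⌊u * n⌋₊ + ⌊v * n⌋₊ ≤ n := by
    have : (⌊u * n⌋₊ : ℝ) + ⌊v * n⌋₊ ≤ n := by nlinarith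
    exact_mod_cast this
  set i := ⌊u * n⌋₊
  set j := ⌊v * n⌋₊
  have h1n : 1 ≤ n := by omega
  have hg := hf.deg n h1n
  have h0 := ne0 hf h1n
  set xh := List.replicate j false ++ x.drop j with hxh
  set sh := List.replicate i false ++ s.drop i with hsh
  set xl := x.take j ++ List.replicate (n - j) false with hxl
  set sl := s.take i ++ List.replicate (n - i) false with hsl
  have lxh : xh.length = n := by rw [hxh]; simp [hx]; omega
  have lsh : sh.length = n := by rw [hsh]; simp [hs]; omega
  have lxl : xl.length = n := by rw [hxl]; simp [hx]; omega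
  have lsl : sl.length = n := by rw [hsl]; simp [hs]; omega
  obtain ⟨lB, eB⟩ := hm' n s xh t h1n hs lxh ht
  obtain ⟨lY, eY⟩ := hm' n sh xl y h1n lsh lxl hy
  set B := m n s xh t
  set Y := m n sh xl y
  have es : elt (f n) s = elt (f n) sl + elt (f n) sh := elt_split (f n) (by omega) s hs
  have ex : elt (f n) x = elt (f n) xl + elt (f n) xh := elt_split (f n) (by omega) x hx
  obtain ⟨w, hw, ew⟩ := elt_low (g := f n) hij (s.take i) (x.take j)
    (by rw [List.length_take, hs]; omega) (by rw [List.length_take, hx]; omega)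
  rw [← hsl, ← hxl] at ew
  have e0 : elt (f n) sh * elt (f n) xl + elt (f n) sh * elt (f n) xl = 0 := add_self_adj _
  have eYB : elt (f n) Y = elt (f n) (w ++ List.replicate (n - (i + j)) false) + elt (f n) B := by
    rw [ew, eY, eB, he, ex]
    have e1 : elt (f n) s * elt (f n) xl = elt (f n) sl * elt (f n) xl +
        elt (f n) sh * elt (f n) xl := by rw [es, add_mul]
    linear_combination e0 + e1
  have hdrop : Y.drop (i + j) = B.drop (i + j) := drop_eq hg h0 hij w Y B hw lY lB eYB
  have q1 : (s.drop i).length = n - i := by rw [List.length_drop, hs]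
  have q2 : (x.drop j).length = n - j := by rw [List.length_drop, hx]
  have p1 : (s.take i).length = i := by rw [List.length_take, hs]; omega
  have p2 : (x.take j).length = j := by rw [List.length_take, hx]; omega
  have eL : m n s xh B = t := by
    obtain ⟨h1, h2⟩ := hm' n s xh B h1n hs lxh lB
    refine elt_inj hg h0 h1 ht ?_
    rw [h2, eB, ← add_assoc, add_self_adj, zero_add]
  have eP : m n sh xl Y = y := by
    obtain ⟨h1, h2⟩ := hm' n sh xl Y h1n lsh lxl lY
    refine elt_inj hg h0 h1 hy ?_
    rw [h2, eY, ← add_assoc, add_self_adj, zero_add]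
  have zS : ∀ r, dS ((n, i, j), s.take i ++ r, s.drop i ++ (x.drop j ++ B.drop (i + j))) = s := by
    intro r
    show (s.take i ++ r).take i ++ (s.drop i ++ (x.drop j ++ B.drop (i + j))).take (n - i) = s
    rw [List.take_left' p1, List.take_left' q1, List.take_append_drop]
  have zXH : ∀ r, dXH ((n, i, j), r, s.drop i ++ (x.drop j ++ B.drop (i + j))) = xh := by
    intro r
    show List.replicate j false ++
      ((s.drop i ++ (x.drop j ++ B.drop (i + j))).drop (n - i)).take (n - j) = xh
    rw [List.drop_left' q1, List.take_left' q2]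
  have zB : dB ((n, i, j), s.take i ++ B.take (i + j),
      s.drop i ++ (x.drop j ++ B.drop (i + j))) = B := by
    show (s.take i ++ B.take (i + j)).drop i ++
      ((s.drop i ++ (x.drop j ++ B.drop (i + j))).drop (n - i)).drop (n - j) = B
    rw [List.drop_left' p1, List.drop_left' q1, List.drop_left' q2, List.take_append_drop]
  have zX : ∀ r, dX ((n, i, j), x.take j ++ r, s.drop i ++ (x.drop j ++ B.drop (i + j))) = x := by
    intro r
    show (x.take j ++ r).take j ++
      ((s.drop i ++ (x.drop j ++ B.drop (i + j))).drop (n - i)).take (n - j) = x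
    rw [List.take_left' p2, List.drop_left' q1, List.take_left' q2, List.take_append_drop]
  have zY : dY ((n, i, j), x.take j ++ Y.take (i + j),
      s.drop i ++ (x.drop j ++ B.drop (i + j))) = Y := by
    show (x.take j ++ Y.take (i + j)).drop j ++
      ((s.drop i ++ (x.drop j ++ B.drop (i + j))).drop (n - i)).drop (n - j) = Y
    rw [List.drop_left' p2, List.drop_left' q1, List.drop_left' q2, ← hdrop,
      List.take_append_drop]
  have zSH : ∀ r, dSH ((n, i, j), r, s.drop i ++ (x.drop j ++ B.drop (i + j))) = sh := by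
    intro r
    show List.replicate i false ++ (s.drop i ++ (x.drop j ++ B.drop (i + j))).take (n - i) = sh
    rw [List.take_left' q1]
  have zXL : ∀ r q, dXL ((n, i, j), x.take j ++ r, q) = xl := by
    intro r q
    show (x.take j ++ r).take j ++ List.replicate (n - j) false = xl
    rw [List.take_left' p2]
  refine ⟨i, j, s.drop i ++ (x.drop j ++ B.drop (i + j)), s.take i ++ B.take (i + j),
    x.take j ++ Y.take (i + j), by omega, by omega, ?_, ?_, ?_, ?_, ?_⟩
  · simp only [zS, zXH, zB, eL]
  · simp only [zX, zSH, zXL, zY, eP]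
  · rw [List.length_append, List.length_append, q1, q2, List.length_drop, lB]
    rw [Nat.cast_add, Nat.cast_add, Nat.cast_sub (by omega), Nat.cast_sub (by omega),
      Nat.cast_sub hij]
    push_cast
    have : (3 - 2 * u - 2 * v) * (n : ℝ) ≤ c * n := by gcongr
    linarith
  · rw [List.length_append, p1, List.length_take, lB, min_eq_left hij]
    push_cast
    have : (2 * u + v) * (n : ℝ) ≤ a * n := by gcongr
    linarith
  · rw [List.length_append, p2, List.length_take, lY, min_eq_left hij]
    push_cast
    have : (u + 2 * v) * (n : ℝ) ≤ b * n := by gcongr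
    linarith

end Pool.Agent.Helper637.GW
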