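import Mathlib
set_option autoImplicit false
set_option linter.unusedSectionVars false
namespace Pool.Agent.Helper637.GW
open Finset

variable {K : Type*} [Field K] [Fintype K] [DecidableEq K]

/-- the point `p` lies on the non-vertical line `y = l.1 x + l.2` -/
def On (l p : K × K) : Prop := p.2 = l.1 * p.1 + l.2

instance (l p : K × K) : Decidable (On l p) := inferInstanceAs (Decidable (_ = _))

/-- number of incidences -/
def I (A B : Finset (K × K)) : ℕ := ((A ×ˢ B).filter (fun z => On z.1 z.2)).card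

/-- number of lines of `A` through `p` -/
def dp (A : Finset (K × K)) (p : K × K) : ℕ := (A.filter (fun l => On l p)).card

/-- number of points of `B` on `l` -/
def dl (B : Finset (K × K)) (l : K × K) : ℕ := (B.filter (fun p => On l p)).card

theorem I_eq (A B : Finset (K × K)) : I A B = ∑ p ∈ B, dp A p := by
  unfold I dp
  rw [card_filter, sum_product_right]
  simp_rw [card_filter]

theorem I_eq' (A B : Finset (K × K)) : I A B = ∑ l ∈ A, dl B l := by
  unfold I dl
  rw [card_filter, sum_product]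
  simp_rw [card_filter]

theorem dp_le (A : Finset (K × K)) (p : K × K) : dp A p ≤ Fintype.card K := by
  unfold dp
  refine card_le_card_of_injOn (t := univ) Prod.fst (fun _ _ => mem_univ _) ?_
  intro l hl l' hl' h
  simp only [coe_filter, Set.mem_ofPred_eq, On] at hl hl'
  have h1 := hl.2
  rw [hl'.2, h] at h1
  exact Prod.ext h (add_left_cancel h1).symm

theorem dl_le (B : Finset (K × K)) (l : K × K) : dl B l ≤ Fintype.card K := by
  unfold dl
  refine card_le_card_of_injOn (t := univ) Prod.fst (fun _ _ => mem_univ _) ?_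
  intro l hl l' hl' h
  simp only [coe_filter, Set.mem_ofPred_eq, On] at hl hl'
  refine Prod.ext h ?_
  rw [hl.2, hl'.2, h]

theorem I_le_mul (A B : Finset (K × K)) : I A B ≤ Fintype.card K * A.card := by
  rw [I_eq', mul_comm, ← smul_eq_mul]
  exact sum_le_card_nsmul _ _ _ (fun l _ => dl_le B l)

theorem I_le_mul' (A B : Finset (K × K)) : I A B ≤ Fintype.card K * B.card := by
  rw [I_eq, mul_comm, ← smul_eq_mul]
  exact sum_le_card_nsmul _ _ _ (fun l _ => dp_le A l)

/-- two different lines meet in at most one point -/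
theorem meet {l l' p p' : K × K} (h : l ≠ l') (h1 : On l p) (h2 : On l' p) (h3 : On l p')
    (h4 : On l' p') : p = p' := by
  unfold On at h1 h2 h3 h4
  by_cases hs : l.1 = l'.1
  · exfalso
    apply h
    refine Prod.ext hs ?_
    rw [h1, hs] at h2
    exact add_left_cancel h2
  · have e1 : (l.1 - l'.1) * (p.1 - p'.1) = 0 := by
      linear_combination h2 - h1 + h3 - h4
    rcases mul_eq_zero.1 e1 with h5 | h5
    · exact absurd (sub_eq_zero.1 h5) hs
    · have h6 : p.1 = p'.1 := sub_eq_zero.1 h5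
      refine Prod.ext h6 ?_
      rw [h1, h3, h6]

/-- `∑ dp² ≤ I + |A|²` -/
theorem sum_sq (A B : Finset (K × K)) : ∑ p ∈ B, dp A p ^ 2 ≤ I A B + A.card ^ 2 := by
  have h1 : ∑ p ∈ B, dp A p ^ 2 =
      ((B ×ˢ (A ×ˢ A)).filter (fun z => On z.2.1 z.1 ∧ On z.2.2 z.1)).card := by
    rw [card_filter, sum_product]
    refine sum_congr rfl fun p _ => ?_
    rw [← card_filter, sq, dp, ← card_product]
    congr 1
    ext ⟨a, b⟩
    simp only [mem_product, mem_filter]
    tauto
  rw [h1]
  have h2 : ((B ×ˢ (A ×ˢ A)).filter (fun z => On z.2.1 z.1 ∧ On z.2.2 z.1)) ⊆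
      (((A ×ˢ B).filter (fun z => On z.1 z.2)).image (fun z => (z.2, (z.1, z.1)))) ∪
      ((B ×ˢ (A ×ˢ A)).filter (fun z => (On z.2.1 z.1 ∧ On z.2.2 z.1) ∧ z.2.1 ≠ z.2.2)) := by
    rintro ⟨p, l, l'⟩ hz
    simp only [mem_filter, mem_product] at hz
    by_cases hl : l = l'
    · subst hl
      refine mem_union_left _ (mem_image.2 ⟨(l, p), ?_, rfl⟩)
      simp only [mem_filter, mem_product]
      exact ⟨⟨hz.1.2.1, hz.1.1⟩, hz.2.1⟩
    · refine mem_union_right _ ?_
      simp only [mem_filter, mem_product]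
      exact ⟨hz.1, hz.2, hl⟩
  refine (card_le_card h2).trans ((card_union_le _ _).trans ?_)
  refine add_le_add (card_image_le) ?_
  rw [sq, ← card_product]
  refine card_le_card_of_injOn (fun z => z.2) ?_ ?_
  · rintro ⟨p, l, l'⟩ hz
    simp only [coe_filter, Set.mem_ofPred_eq, mem_product] at hz
    simp only [coe_product, Set.mem_prod, mem_coe]
    exact hz.1.2
  · rintro ⟨p, l, l'⟩ hz ⟨p', m, m'⟩ hz' h
    simp only [coe_filter, Set.mem_ofPred_eq, mem_product] at hz hz'
    simp only at h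
    obtain ⟨rfl, rfl⟩ := Prod.mk.inj h
    have := meet hz.2.2 hz.2.1.1 hz.2.1.2 hz'.2.1.1 hz'.2.1.2
    rw [this]

theorem sum_sq' (A B : Finset (K × K)) : ∑ l ∈ A, dl B l ^ 2 ≤ I A B + B.card ^ 2 := by
  have h1 : ∑ l ∈ A, dl B l ^ 2 =
      ((A ×ˢ (B ×ˢ B)).filter (fun z => On z.1 z.2.1 ∧ On z.1 z.2.2)).card := by
    rw [card_filter, sum_product]
    refine sum_congr rfl fun p _ => ?_
    rw [← card_filter, sq, dl, ← card_product]
    congr 1
    ext ⟨a, b⟩
    simp only [mem_product, mem_filter]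
    tauto
  rw [h1]
  have h2 : ((A ×ˢ (B ×ˢ B)).filter (fun z => On z.1 z.2.1 ∧ On z.1 z.2.2)) ⊆
      (((A ×ˢ B).filter (fun z => On z.1 z.2)).image (fun z => (z.1, (z.2, z.2)))) ∪
      ((A ×ˢ (B ×ˢ B)).filter (fun z => (On z.1 z.2.1 ∧ On z.1 z.2.2) ∧ z.2.1 ≠ z.2.2)) := by
    rintro ⟨l, p, p'⟩ hz
    simp only [mem_filter, mem_product] at hz
    by_cases hl : p = p'
    · subst hl
      refine mem_union_left _ (mem_image.2 ⟨(l, p), ?_, rfl⟩)
      simp only [mem_filter, mem_product]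
      exact ⟨⟨hz.1.1, hz.1.2.1⟩, hz.2.1⟩
    · refine mem_union_right _ ?_
      simp only [mem_filter, mem_product]
      exact ⟨hz.1, hz.2, hl⟩
  refine (card_le_card h2).trans ((card_union_le _ _).trans ?_)
  refine add_le_add (card_image_le) ?_
  rw [sq, ← card_product]
  refine card_le_card_of_injOn (fun z => z.2) ?_ ?_
  · rintro ⟨p, l, l'⟩ hz
    simp only [coe_filter, Set.mem_ofPred_eq, mem_product] at hz
    simp only [coe_product, Set.mem_prod, mem_coe]
    exact hz.1.2
  · rintro ⟨l, p, p'⟩ hz ⟨l', m, m'⟩ hz' h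
    simp only [coe_filter, Set.mem_ofPred_eq, mem_product] at hz hz'
    simp only at h
    obtain ⟨rfl, rfl⟩ := Prod.mk.inj h
    by_contra hne
    have hne' : l ≠ l' := fun h => hne (by rw [h])
    exact hz.2.2 (meet hne' hz.2.1.1 hz'.2.1.1 hz.2.1.2 hz'.2.1.2)

theorem I_le_sq (A B : Finset (K × K)) : I A B ≤ B.card + A.card ^ 2 := by
  have h1 := sum_sq A B
  have h2 : 2 * I A B ≤ ∑ p ∈ B, dp A p ^ 2 + B.card := by
    rw [I_eq, mul_sum, card_eq_sum_ones, ← sum_add_distrib]
    refine sum_le_sum fun p _ => ?_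
    nlinarith [sq_nonneg ((dp A p : ℤ) - 1), Nat.zero_le (dp A p), two_mul_le_add_sq (dp A p) 1]
  omega

theorem I_le_sq' (A B : Finset (K × K)) : I A B ≤ A.card + B.card ^ 2 := by
  have h1 := sum_sq' A B
  have h2 : 2 * I A B ≤ ∑ l ∈ A, dl B l ^ 2 + A.card := by
    rw [I_eq', mul_sum, card_eq_sum_ones, ← sum_add_distrib]
    refine sum_le_sum fun p _ => ?_
    nlinarith [sq_nonneg ((dl B p : ℤ) - 1), Nat.zero_le (dl B p), two_mul_le_add_sq (dl B p) 1]
  omega

theorem quad_bound {x u v : ℝ} (hx : 0 ≤ x) (hu : 0 ≤ u) (hv : 0 ≤ v)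
    (h : x ^ 2 ≤ v * (x + u ^ 2)) : x ≤ v + u * Real.sqrt v := by
  by_contra hc
  push Not at hc
  have h1 := Real.sq_sqrt hv
  have h2 := Real.sqrt_nonneg v
  set s := Real.sqrt v
  have h3 : u * s < x - v := by linarith
  have h4 : 0 ≤ u * s := by positivity
  have h5 : 0 < x - v := lt_of_le_of_lt h4 h3
  have h6 : x * (x - v) ≤ v * u ^ 2 := by nlinarith
  have h7 : u * s ≤ x := by linarith
  have h8 : (u * s) * (u * s) ≤ x * (u * s) := by gcongr
  have h9 : 0 < x := by linarith
  have h10 : x * (u * s) < x * (x - v) := by gcongr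
  have h11 : (u * s) * (u * s) = v * u ^ 2 := by rw [← h1]; ring
  linarith

/-- Kővári–Sós–Turán bound -/
theorem I_kst (A B : Finset (K × K)) : (I A B : ℝ) ≤ B.card + A.card * Real.sqrt B.card := by
  apply quad_bound (by positivity) (by positivity) (by positivity)
  have h7 := sum_mul_sq_le_sq_mul_sq B (fun _ => (1 : ℝ)) (fun p => (dp A p : ℝ))
  simp only [one_mul, one_pow, sum_const, nsmul_eq_mul, mul_one] at h7
  have h1 : (I A B : ℝ) = ∑ p ∈ B, (dp A p : ℝ) := by rw [I_eq]; push_cast; rfl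
  have h2 : ∑ p ∈ B, (dp A p : ℝ) ^ 2 ≤ I A B + A.card ^ 2 := by exact_mod_cast sum_sq A B
  rw [← h1] at h7
  refine h7.trans ?_
  gcongr

theorem I_kst' (A B : Finset (K × K)) : (I A B : ℝ) ≤ A.card + B.card * Real.sqrt A.card := by
  apply quad_bound (by positivity) (by positivity) (by positivity)
  have h7 := sum_mul_sq_le_sq_mul_sq A (fun _ => (1 : ℝ)) (fun p => (dl B p : ℝ))
  simp only [one_mul, one_pow, sum_const, nsmul_eq_mul, mul_one] at h7
  have h1 : (I A B : ℝ) = ∑ p ∈ A, (dl B p : ℝ) := by rw [I_eq']; push_cast; rfl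
  have h2 : ∑ p ∈ A, (dl B p : ℝ) ^ 2 ≤ I A B + B.card ^ 2 := by exact_mod_cast sum_sq' A B
  rw [← h1] at h7
  refine h7.trans ?_
  gcongr

/-- every line has exactly `|K|` points -/
theorem I_univ (A : Finset (K × K)) : I A univ = Fintype.card K * A.card := by
  rw [I_eq', mul_comm, ← smul_eq_mul, ← sum_const]
  refine sum_congr rfl fun l _ => ?_
  unfold dl
  rw [← card_univ]
  refine card_bij' (fun p _ => p.1) (fun x _ => (x, l.1 * x + l.2)) ?_ ?_ ?_ ?_
  · intro a _; exact mem_univ _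
  · intro a _; simp [On]
  · rintro ⟨x, y⟩ hp
    simp only [mem_filter, On] at hp
    simp [hp.2]
  · intro a _; rfl

/-- second moment bound -/
theorem I_spec (A B : Finset (K × K)) :
    (I A B : ℝ) ≤ A.card * B.card / Fintype.card K +
      Real.sqrt (Fintype.card K * A.card * B.card) := by
  set q : ℝ := (Fintype.card K : ℝ) with hq
  have hq0 : 0 < q := by
    rw [hq]; exact_mod_cast (Fintype.card_pos : 0 < Fintype.card K)
  have h1 : ∑ p : K × K, (dp A p : ℝ) = q * A.card := by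
    have := I_univ A
    rw [I_eq] at this
    rw [hq]; exact_mod_cast this
  have h2 : ∑ p : K × K, (dp A p : ℝ) ^ 2 ≤ q * A.card + A.card ^ 2 := by
    have := sum_sq A univ
    rw [I_univ] at this
    rw [hq]; exact_mod_cast this
  have h3 : ∑ p : K × K, ((dp A p : ℝ) - A.card / q) ^ 2 ≤ q * A.card := by
    have e : ∑ p : K × K, ((dp A p : ℝ) - A.card / q) ^ 2 =
        ∑ p : K × K, (dp A p : ℝ) ^ 2 - 2 * (A.card / q) * ∑ p : K × K, (dp A p : ℝ) +
          q ^ 2 * (A.card / q) ^ 2 := by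
      have hc : ((univ : Finset (K × K)).card : ℝ) = q ^ 2 := by
        rw [card_univ, Fintype.card_prod, hq]; push_cast; ring
      rw [mul_sum, ← sum_sub_distrib, ← hc, ← nsmul_eq_mul, ← sum_const, ← sum_add_distrib]
      refine sum_congr rfl fun p _ => ?_
      ring
    rw [e, h1]
    have e2 : q ^ 2 * ((A.card : ℝ) / q) ^ 2 = A.card ^ 2 := by
      field_simp
    have e3 : 2 * ((A.card : ℝ) / q) * (q * A.card) = 2 * A.card ^ 2 := by
      field_simp
    rw [e2, e3]
    linarith
  have h4 : (I A B : ℝ) - A.card * B.card / q = ∑ p ∈ B, ((dp A p : ℝ) - A.card / q) := by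
    rw [sum_sub_distrib, sum_const, nsmul_eq_mul, I_eq]
    push_cast
    ring
  have h5 : (∑ p ∈ B, ((dp A p : ℝ) - A.card / q)) ^ 2 ≤
      q * A.card * B.card := by
    have h7 := sum_mul_sq_le_sq_mul_sq B (fun _ => (1 : ℝ)) (fun p => (dp A p : ℝ) - A.card / q)
    simp only [one_mul, one_pow, sum_const, nsmul_eq_mul, mul_one] at h7
    refine h7.trans ?_
    have h8 : ∑ p ∈ B, ((dp A p : ℝ) - A.card / q) ^ 2 ≤ q * A.card := by
      refine le_trans (sum_le_sum_of_subset_of_nonneg (subset_univ B) ?_) h3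
      intro _ _ _; positivity
    have h9 : (0 : ℝ) ≤ B.card := by positivity
    nlinarith
  have h6 : ∑ p ∈ B, ((dp A p : ℝ) - A.card / q) ≤ Real.sqrt (q * A.card * B.card) :=
    Real.le_sqrt_of_sq_le h5
  linarith

end Pool.Agent.Helper637.GW
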