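import Mathlib
import Pool.Agent.Helper637.GW.Defs
import Pool.Agent.Helper637.GW.Inc
set_option autoImplicit false
set_option linter.unusedSectionVars false
namespace Pool.Agent.Helper637.GW
open Finset Polynomial Filter
open Pool.Agent.Helper760.Kolm (allLen mem_allLen length_allLen nodup_allLen)

theorem lem_lim {δ C κ : ℝ} (h : ∀ᶠ n : ℕ in atTop, δ * n ≤ C + κ * Real.logb 2 n) : δ ≤ 0 := by
  by_contra hδ
  push Not at hδ
  have h1 : Tendsto (fun x : ℝ => Real.log x / x) atTop (nhds 0) := by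
    have := Real.isLittleO_log_id_atTop.tendsto_div_nhds_zero
    simpa using this
  have h2 : Tendsto (fun n : ℕ => Real.log n / (n : ℝ)) atTop (nhds 0) :=
    h1.comp tendsto_natCast_atTop_atTop
  have h3 : Tendsto (fun n : ℕ => C / (n : ℝ)) atTop (nhds 0) :=
    tendsto_const_div_atTop_nhds_zero_nat C
  have h4 : Tendsto (fun n : ℕ => C / (n : ℝ) + κ / Real.log 2 * (Real.log n / (n : ℝ))) atTop
      (nhds (0 + κ / Real.log 2 * 0)) := h3.add (h2.const_mul _)
  rw [mul_zero, add_zero] at h4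
  have h5 := (h4.eventually (gt_mem_nhds hδ)).and (h.and (eventually_ge_atTop 1))
  obtain ⟨n, h6, h7, h8⟩ := h5.exists
  have hn : (0 : ℝ) < n := by exact_mod_cast h8
  have h9 : C / (n : ℝ) + κ / Real.log 2 * (Real.log n / (n : ℝ)) =
      (C + κ * Real.logb 2 n) / n := by
    rw [Real.logb]; field_simp
  rw [h9, div_lt_iff₀ hn] at h6
  linarith

variable {D : List Bool → List Bool →. List Bool} (hD : OptimalCond D)
  {pr : List Bool → List Bool → List Bool} {f : ℕ → (ZMod 2)[X]}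

/-- all strings of length `n` -/
def strs (n : ℕ) : Finset (List Bool) := (allLen n).toFinset

theorem mem_strs (n : ℕ) (s : List Bool) : s ∈ strs n ↔ s.length = n := by
  simp [strs, mem_allLen]

theorem card_strs (n : ℕ) : (strs n).card = 2 ^ n := by
  rw [strs, List.toFinset_card_of_nodup (nodup_allLen n), length_allLen]

theorem append_inj' {a b c d : List Bool} (h : a ++ b = c ++ d) (hl : a.length = c.length) :
    a = c ∧ b = d := List.append_inj h hl

/-- there are `2 ^ (3n)` incident pairs -/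
theorem exists_flags (hf : FieldSeq f) {n : ℕ} (hn : 1 ≤ n) :
    ∃ Fl : Finset (List Bool × List Bool), Fl.card = 2 ^ (3 * n) ∧
      ∀ z ∈ Fl, Incident f n z.1 z.2 := by
  classical
  have hs := fun s t x : List Bool => elt_surj (hf.deg n hn) (hf.irr n hn).ne_zero
    (elt (f n) s * elt (f n) x + elt (f n) t)
  choose yy hy1 hy2 using hs
  refine ⟨(strs n ×ˢ strs n ×ˢ strs n).image
    (fun z => (z.1 ++ z.2.1, z.2.2 ++ yy z.1 z.2.1 z.2.2)), ?_, ?_⟩
  · rw [card_image_of_injOn, card_product, card_product, card_strs]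
    · ring
    · rintro ⟨s, t, x⟩ h ⟨s', t', x'⟩ h' he
      simp only [coe_product, Set.mem_prod, mem_coe, mem_strs] at h h'
      simp only [Prod.mk.injEq] at he
      obtain ⟨e1, e2⟩ := append_inj' he.1 (h.1.trans h'.1.symm)
      obtain ⟨e3, e4⟩ := append_inj' he.2 (h.2.2.trans h'.2.2.symm)
      rw [e1, e2, e3]
  · intro z hz
    obtain ⟨⟨s, t, x⟩, h, rfl⟩ := mem_image.1 hz
    simp only [mem_product, mem_strs] at h
    exact ⟨s, t, x, yy s t x, h.1, h.2.1, h.2.2, hy1 _ _ _, rfl, rfl, hy2 _ _ _⟩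

/-- decoding a `2n`-bit string -/
noncomputable def dec (g : (ZMod 2)[X]) (n : ℕ) (z : List Bool) : AdjoinRoot g × AdjoinRoot g :=
  (elt g (z.take n), elt g (z.drop n))

theorem card_adj {g : (ZMod 2)[X]} {n : ℕ} (hg : g.natDegree = n) (h0 : g ≠ 0)
    [Fintype (AdjoinRoot g)] : Fintype.card (AdjoinRoot g) = 2 ^ n := by
  classical
  have h1 : Function.Bijective (fun v : List.Vector Bool n => elt g v.1) := by
    constructor
    · intro v w h
      exact Subtype.ext (elt_inj hg h0 v.2 w.2 h)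
    · intro z
      obtain ⟨s, hs, h⟩ := elt_surj hg h0 z
      exact ⟨⟨s, hs⟩, h⟩
  rw [← Fintype.card_of_bijective h1, card_vector, Fintype.card_bool]

theorem finite_adj {g : (ZMod 2)[X]} {n : ℕ} (hg : g.natDegree = n) (h0 : g ≠ 0) :
    Finite (AdjoinRoot g) := by
  refine Finite.of_surjective (fun v : List.Vector Bool n => elt g v.1) ?_
  intro z
  obtain ⟨s, hs, h⟩ := elt_surj hg h0 z
  exact ⟨⟨s, hs⟩, h⟩

/-- incident pairs inside a rectangle of strings -/
theorem flags_le (hf : FieldSeq f) {n : ℕ} (hn : 1 ≤ n) (E : ℝ) (a' b' : ℝ)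
    (hE : ∀ (K : Type) [Field K] [Fintype K] [DecidableEq K], Fintype.card K = 2 ^ n →
      ∀ A B : Finset (K × K), (A.card : ℝ) ≤ a' → (B.card : ℝ) ≤ b' → (I A B : ℝ) ≤ E)
    (Fl : Finset (List Bool × List Bool)) (hFl : ∀ z ∈ Fl, Incident f n z.1 z.2)
    (A B : Finset (List Bool)) (hA : (A.card : ℝ) ≤ a') (hB : (B.card : ℝ) ≤ b') :
    ((Fl.filter (fun z => z.1 ∈ A ∧ z.2 ∈ B)).card : ℝ) ≤ E := by
  classical
  have hg := hf.deg n hn
  have h0 := (hf.irr n hn).ne_zero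
  have := Fact.mk (hf.irr n hn)
  have := finite_adj hg h0
  have : Fintype (AdjoinRoot (f n)) := Fintype.ofFinite _
  refine le_trans ?_ (hE (AdjoinRoot (f n)) (card_adj hg h0) (A.image (dec (f n) n))
    (B.image (dec (f n) n)) (le_trans (by exact_mod_cast card_image_le) hA)
    (le_trans (by exact_mod_cast card_image_le) hB))
  rw [I]
  have : (Fl.filter (fun z => z.1 ∈ A ∧ z.2 ∈ B)).card ≤
      ((A.image (dec (f n) n) ×ˢ B.image (dec (f n) n)).filter (fun z => On z.1 z.2)).card := by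
    refine card_le_card_of_injOn (fun z => (dec (f n) n z.1, dec (f n) n z.2)) ?_ ?_
    · intro z hz
      simp only [coe_filter, Set.mem_ofPred_eq] at hz
      obtain ⟨s, t, x, y, hs, ht, hx, hy, e1, e2, he⟩ := hFl z hz.1
      simp only [coe_filter, Set.mem_ofPred_eq, mem_product]
      refine ⟨⟨mem_image_of_mem _ hz.2.1, mem_image_of_mem _ hz.2.2⟩, ?_⟩
      rw [e1, e2]
      unfold On dec
      simp only
      rw [List.take_left' hs, List.drop_left' hs, List.take_left' hx, List.drop_left' hx]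
      exact he
    · intro z hz z' hz' h
      simp only [coe_filter, Set.mem_ofPred_eq] at hz hz'
      obtain ⟨s, t, x, y, hs, ht, hx, hy, e1, e2, he⟩ := hFl z hz.1
      obtain ⟨s', t', x', y', hs', ht', hx', hy', e1', e2', he'⟩ := hFl z' hz'.1
      simp only [dec, Prod.mk.injEq] at h
      rw [e1, e2, e1', e2'] at h
      rw [List.take_left' hs, List.drop_left' hs, List.take_left' hx, List.drop_left' hx,
        List.take_left' hs', List.drop_left' hs', List.take_left' hx', List.drop_left' hx'] at h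
      refine Prod.ext ?_ ?_
      · rw [e1, e1', elt_inj hg h0 hs hs' h.1.1, elt_inj hg h0 ht ht' h.1.2]
      · rw [e2, e2', elt_inj hg h0 hx hx' h.2.1, elt_inj hg h0 hy hy' h.2.2]
  exact_mod_cast this

include hD in
/-- most incident pairs are random -/
theorem good_flags (hpr : ∀ x y x' y', pr x y = pr x' y' → x = x' ∧ y = y')
    {n : ℕ} (hn : 2 ≤ n) (Fl : Finset (List Bool × List Bool)) (hc : Fl.card = 2 ^ (3 * n)) :
    (2 : ℝ) ^ (3 * (n : ℝ)) / 2 ≤ ((Fl.filter (fun z =>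
      3 * (n : ℝ) - 2 * Real.logb 2 n ≤ condC D (pr z.1 z.2) [])).card : ℝ) := by
  classical
  have h1 := card_filter_add_card_filter_not (s := Fl) (fun z =>
      3 * (n : ℝ) - 2 * Real.logb 2 n ≤ condC D (pr z.1 z.2) [])
  set G := Fl.filter (fun z => 3 * (n : ℝ) - 2 * Real.logb 2 n ≤ condC D (pr z.1 z.2) [])
  set Z := Fl.filter (fun z => ¬ 3 * (n : ℝ) - 2 * Real.logb 2 n ≤ condC D (pr z.1 z.2) []) with hZ
  have hn0 : (0 : ℝ) < n := by positivity
  have hn2 : (2 : ℝ) ≤ n := by exact_mod_cast hn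
  have e1 : (2 : ℝ) ^ (3 * (n : ℝ)) = 2 ^ (3 * n) := by
    rw [← Real.rpow_natCast]; push_cast; rfl
  have hpos : (0 : ℝ) < 2 ^ (3 * (n : ℝ)) := by positivity
  have h2 : (Z.card : ℝ) ≤ (2 : ℝ) ^ (3 * (n : ℝ)) / 2 := by
    rcases Z.eq_empty_or_nonempty with hZ0 | ⟨z0, hz0⟩
    · rw [hZ0]; simp; positivity
    · have hr : 0 ≤ 3 * (n : ℝ) - 2 * Real.logb 2 n := by
        rw [hZ, mem_filter] at hz0
        have := hz0.2
        push Not at this
        have h3 : (0 : ℝ) ≤ condC D (pr z0.1 z0.2) [] := by positivity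
        linarith
      have h3 : Z.card < 2 ^ (⌊3 * (n : ℝ) - 2 * Real.logb 2 n⌋₊ + 1) := by
        have h4 : Z.card = (Z.image (fun z => pr z.1 z.2)).card := by
          rw [card_image_of_injective]
          intro z z' h
          obtain ⟨h5, h6⟩ := hpr _ _ _ _ h
          exact Prod.ext h5 h6
        rw [h4]
        refine card_cx hD [] _ _ ?_
        intro s hs
        obtain ⟨z, hz, rfl⟩ := mem_image.1 hs
        rw [hZ, mem_filter] at hz
        have := hz.2
        push Not at this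
        exact Nat.le_floor this.le
      have h4 : (Z.card : ℝ) ≤ 2 ^ (⌊3 * (n : ℝ) - 2 * Real.logb 2 n⌋₊ + 1) := by
        exact_mod_cast h3.le
      refine h4.trans ?_
      have h5 : (2 : ℝ) ^ (⌊3 * (n : ℝ) - 2 * Real.logb 2 n⌋₊ + 1) =
          2 * (2 : ℝ) ^ ((⌊3 * (n : ℝ) - 2 * Real.logb 2 n⌋₊ : ℝ)) := by
        rw [pow_succ, Real.rpow_natCast, mul_comm]
      rw [h5]
      have h6 : (2 : ℝ) ^ ((⌊3 * (n : ℝ) - 2 * Real.logb 2 n⌋₊ : ℝ)) ≤
          (2 : ℝ) ^ (3 * (n : ℝ) - 2 * Real.logb 2 n) :=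
        Real.rpow_le_rpow_of_exponent_le (by norm_num) (Nat.floor_le hr)
      have h7 : (2 : ℝ) ^ (3 * (n : ℝ) - 2 * Real.logb 2 n) =
          (2 : ℝ) ^ (3 * (n : ℝ)) / (n : ℝ) ^ 2 := by
        rw [Real.rpow_sub (by norm_num)]
        congr 1
        rw [mul_comm, Real.rpow_mul (by norm_num), Real.rpow_logb (by norm_num) (by norm_num) hn0]
        exact_mod_cast Real.rpow_natCast (n : ℝ) 2
      rw [h7] at h6
      have h8 : (2 : ℝ) ^ (3 * (n : ℝ)) / (n : ℝ) ^ 2 ≤ (2 : ℝ) ^ (3 * (n : ℝ)) / 4 := by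
        apply div_le_div_of_nonneg_left hpos.le (by norm_num)
        nlinarith
      linarith
  have h3 : (G.card : ℝ) + Z.card = (2 : ℝ) ^ (3 * (n : ℝ)) := by
    rw [e1, ← Nat.cast_add, h1, hc]; push_cast; rfl
  linarith

include hD in
theorem ball_real {t : ℝ} (h0 : 0 ≤ t) (y : List Bool) :
    ((ball hD y ⌊t⌋₊).card : ℝ) ≤ 2 * (2 : ℝ) ^ t := by
  have h1 : ((ball hD y ⌊t⌋₊).card : ℝ) ≤ 2 ^ (⌊t⌋₊ + 1) := by
    exact_mod_cast (card_ball hD y ⌊t⌋₊).le
  refine h1.trans ?_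
  rw [pow_succ, mul_comm, ← Real.rpow_natCast]
  gcongr
  · norm_num
  · exact Nat.floor_le h0

include hD in
/-- Elements of the profile satisfy the bounds which follow from incidence bounds. -/
theorem outer_core (hpr : ∀ x y x' y', pr x y = pr x' y' → x = x' ∧ y = y') (hf : FieldSeq f)
    {a b c s0 : ℝ} (hmem : (a, b, c) ∈ Prof D pr f)
    (hE : ∀ n : ℕ, 1 ≤ n → ∀ (K : Type) [Field K] [Fintype K] [DecidableEq K],
      Fintype.card K = 2 ^ n → ∀ X : ℝ, 1 ≤ X → ∀ A B : Finset (K × K),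
      (A.card : ℝ) ≤ 2 * ((2 : ℝ) ^ (a * n) * X) → (B.card : ℝ) ≤ 2 * ((2 : ℝ) ^ (b * n) * X) →
      (I A B : ℝ) ≤ 8 * (2 : ℝ) ^ (s0 * n) * X ^ 2) :
    0 ≤ a ∧ 0 ≤ b ∧ 0 ≤ c ∧ 3 ≤ c + s0 := by
  classical
  obtain ⟨K0, hK0⟩ := hmem 2
  set κ := max K0 0 with hκ
  have hκ0 : 0 ≤ κ := le_max_right _ _
  have key : ∀ᶠ n : ℕ in atTop, 0 ≤ a * n + κ * Real.logb 2 n ∧ 0 ≤ b * n + κ * Real.logb 2 n ∧
      0 ≤ c * n + κ * Real.logb 2 n ∧ 3 * (n : ℝ) ≤ 5 + (c + s0) * n + 3 * (κ * Real.logb 2 n) := by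
    filter_upwards [hK0, eventually_ge_atTop 2] with n hq hn
    have hn0 : (0 : ℝ) < n := by positivity
    have hlog : 1 ≤ Real.logb 2 n := by
      rw [Real.le_logb_iff_rpow_le (by norm_num) (by positivity)]
      simpa using (by exact_mod_cast hn : (2 : ℝ) ≤ n)
    have hKκ : K0 * Real.logb 2 n ≤ κ * Real.logb 2 n := by
      gcongr; exact le_max_left _ _
    set X := (2 : ℝ) ^ (κ * Real.logb 2 n) with hX
    have hX1 : 1 ≤ X := Real.one_le_rpow (by norm_num) (by positivity)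
    obtain ⟨Fl, hFlc, hFl⟩ := exists_flags hf (n := n) (by omega)
    have hG := good_flags hD hpr hn Fl hFlc
    set G := Fl.filter (fun z => 3 * (n : ℝ) - 2 * Real.logb 2 n ≤ condC D (pr z.1 z.2) []) with hGd
    have hGpos : 0 < G.card := by
      have : (0 : ℝ) < G.card := lt_of_lt_of_le (by positivity) hG
      exact_mod_cast this
    have hz : ∀ z ∈ G, ∃ q : List Bool, (condC D q [] : ℝ) ≤ c * n + κ * Real.logb 2 n ∧
        (condC D z.1 q : ℝ) ≤ a * n + κ * Real.logb 2 n ∧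
        (condC D z.2 q : ℝ) ≤ b * n + κ * Real.logb 2 n := by
      intro z hz
      rw [hGd, mem_filter] at hz
      obtain ⟨q, h1, h2, h3⟩ := hq z.1 z.2 (hFl z hz.1) hz.2
      exact ⟨q, by linarith, by linarith, by linarith⟩
    obtain ⟨z0, hz0⟩ := card_pos.1 hGpos
    obtain ⟨q0, h1, h2, h3⟩ := hz z0 hz0
    have ha0 : 0 ≤ a * n + κ * Real.logb 2 n := le_trans (by positivity) h2
    have hb0 : 0 ≤ b * n + κ * Real.logb 2 n := le_trans (by positivity) h3
    have hc0 : 0 ≤ c * n + κ * Real.logb 2 n := le_trans (by positivity) h1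
    refine ⟨ha0, hb0, hc0, ?_⟩
    set Q := ball hD [] ⌊c * n + κ * Real.logb 2 n⌋₊ with hQ
    have hsub : G ⊆ Q.biUnion (fun q => Fl.filter (fun z =>
        z.1 ∈ ball hD q ⌊a * n + κ * Real.logb 2 n⌋₊ ∧
        z.2 ∈ ball hD q ⌊b * n + κ * Real.logb 2 n⌋₊)) := by
      intro z hzG
      obtain ⟨q, h1, h2, h3⟩ := hz z hzG
      rw [mem_biUnion]
      refine ⟨q, (mem_ball _ _ _ _).2 (Nat.le_floor h1), mem_filter.2 ⟨?_, ?_, ?_⟩⟩
      · rw [hGd, mem_filter] at hzG; exact hzG.1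
      · exact (mem_ball _ _ _ _).2 (Nat.le_floor h2)
      · exact (mem_ball _ _ _ _).2 (Nat.le_floor h3)
    have hrect : ∀ q ∈ Q, ((Fl.filter (fun z =>
        z.1 ∈ ball hD q ⌊a * n + κ * Real.logb 2 n⌋₊ ∧
        z.2 ∈ ball hD q ⌊b * n + κ * Real.logb 2 n⌋₊)).card : ℝ) ≤
          8 * (2 : ℝ) ^ (s0 * n) * X ^ 2 := by
      intro q _
      refine flags_le hf (n := n) (by omega) _ (2 * ((2 : ℝ) ^ (a * n) * X))
        (2 * ((2 : ℝ) ^ (b * n) * X)) ?_ Fl hFl _ _ ?_ ?_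
      · intro K _ _ _ hK A B hA hB
        exact hE n (by omega) K hK X hX1 A B hA hB
      · refine (ball_real hD ha0 q).trans ?_
        rw [hX, ← Real.rpow_add (by norm_num)]
      · refine (ball_real hD hb0 q).trans ?_
        rw [hX, ← Real.rpow_add (by norm_num)]
    have hQc : (Q.card : ℝ) ≤ 2 * ((2 : ℝ) ^ (c * n) * X) := by
      refine (ball_real hD hc0 []).trans ?_
      rw [hX, ← Real.rpow_add (by norm_num)]
    have hG2 : (G.card : ℝ) ≤ Q.card * (8 * (2 : ℝ) ^ (s0 * n) * X ^ 2) := by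
      have e1 : (G.card : ℝ) ≤ ∑ q ∈ Q, ((Fl.filter (fun z =>
        z.1 ∈ ball hD q ⌊a * n + κ * Real.logb 2 n⌋₊ ∧
        z.2 ∈ ball hD q ⌊b * n + κ * Real.logb 2 n⌋₊)).card : ℝ) := by
        exact_mod_cast (card_le_card hsub).trans card_biUnion_le
      refine e1.trans ((sum_le_sum hrect).trans ?_)
      rw [sum_const, nsmul_eq_mul]
    have hfin : (2 : ℝ) ^ (3 * (n : ℝ)) ≤ 2 ^ (5 + (c + s0) * n + 3 * (κ * Real.logb 2 n)) := by
      have e2 : (Q.card : ℝ) * (8 * (2 : ℝ) ^ (s0 * n) * X ^ 2) ≤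
          2 * ((2 : ℝ) ^ (c * n) * X) * (8 * (2 : ℝ) ^ (s0 * n) * X ^ 2) := by gcongr
      have e3 : (2 : ℝ) ^ (5 + (c + s0) * n + 3 * (κ * Real.logb 2 n)) =
          2 * (2 * ((2 : ℝ) ^ (c * n) * X) * (8 * (2 : ℝ) ^ (s0 * n) * X ^ 2)) := by
        rw [Real.rpow_add (by norm_num), Real.rpow_add (by norm_num), add_mul,
          Real.rpow_add (by norm_num)]
        have e4 : (2 : ℝ) ^ (3 * (κ * Real.logb 2 n)) = X ^ 3 := by
          rw [hX, ← Real.rpow_natCast, ← Real.rpow_mul (by norm_num)]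
          congr 1
          push_cast; ring
        have e5 : (2 : ℝ) ^ (5 : ℝ) = 32 := by norm_num
        rw [e4, e5]; ring
      rw [e3]
      linarith
    exact (Real.rpow_le_rpow_left_iff (by norm_num)).1 hfin
  refine ⟨?_, ?_, ?_, ?_⟩
  · have : -a ≤ 0 := lem_lim (C := 0) (κ := κ) (key.mono fun n hn => by nlinarith [hn.1])
    linarith
  · have : -b ≤ 0 := lem_lim (C := 0) (κ := κ) (key.mono fun n hn => by nlinarith [hn.2.1])
    linarith
  · have : -c ≤ 0 := lem_lim (C := 0) (κ := κ) (key.mono fun n hn => by nlinarith [hn.2.2.1])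
    linarith
  · have : 3 - (c + s0) ≤ 0 := lem_lim (C := 5) (κ := 3 * κ)
      (key.mono fun n hn => by nlinarith [hn.2.2.2])
    linarith

end Pool.Agent.Helper637.GW
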