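import Mathlib
import Pool.Agent.Helper637.GW.Inner4
import Pool.Agent.Helper637.GW.Outer
set_option autoImplicit false
set_option linter.unusedSectionVars false
namespace Pool.Agent.Helper637.GW
open Finset Polynomial Filter

section
variable {K : Type} [Field K] [Fintype K] [DecidableEq K] {n : ℕ} (hK : Fintype.card K = 2 ^ n)
  {X a b : ℝ} (hX : 1 ≤ X) {A B : Finset (K × K)}
  (hA : (A.card : ℝ) ≤ 2 * ((2 : ℝ) ^ (a * n) * X)) (hB : (B.card : ℝ) ≤ 2 * ((2 : ℝ) ^ (b * n) * X))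

theorem two_mono {x y : ℝ} (n : ℕ) (h : x ≤ y) : (2 : ℝ) ^ (x * n) ≤ 2 ^ (y * n) := by
  apply Real.rpow_le_rpow_of_exponent_le (by norm_num)
  gcongr

theorem two_pos (x : ℝ) : (0 : ℝ) < 2 ^ x := by positivity

include hK hX hA in
theorem E1 : (I A B : ℝ) ≤ 8 * (2 : ℝ) ^ ((1 + a) * n) * X ^ 2 := by
  have h1 : (I A B : ℝ) ≤ 2 ^ n * A.card := by
    have := I_le_mul A B
    rw [hK] at this
    exact_mod_cast this
  have h2 : (2 : ℝ) ^ ((1 + a) * n) = 2 ^ n * 2 ^ (a * n) := by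
    rw [add_mul, one_mul, Real.rpow_add (by norm_num), Real.rpow_natCast]
  have h3 : (2 : ℝ) ^ n * A.card ≤ 2 ^ n * (2 * ((2 : ℝ) ^ (a * n) * X)) := by gcongr
  have h4 := two_pos (a * n)
  have h5 : (0 : ℝ) < 2 ^ n := by positivity
  rw [h2]
  have h6 : X ≤ X ^ 2 := by nlinarith
  have h7 : (2 : ℝ) ^ n * (2 * ((2 : ℝ) ^ (a * n) * X)) ≤
      8 * (2 ^ n * 2 ^ (a * n)) * X ^ 2 := by
    have : (0 : ℝ) < 2 ^ n * 2 ^ (a * n) := by positivity
    nlinarith
  linarith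

include hK hX hB in
theorem E2 : (I A B : ℝ) ≤ 8 * (2 : ℝ) ^ ((1 + b) * n) * X ^ 2 := by
  have h1 : (I A B : ℝ) ≤ 2 ^ n * B.card := by
    have := I_le_mul' A B
    rw [hK] at this
    exact_mod_cast this
  have h2 : (2 : ℝ) ^ ((1 + b) * n) = 2 ^ n * 2 ^ (b * n) := by
    rw [add_mul, one_mul, Real.rpow_add (by norm_num), Real.rpow_natCast]
  have h3 : (2 : ℝ) ^ n * B.card ≤ 2 ^ n * (2 * ((2 : ℝ) ^ (b * n) * X)) := by gcongr
  have h4 := two_pos (b * n)
  have h5 : (0 : ℝ) < 2 ^ n := by positivity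
  rw [h2]
  have h6 : X ≤ X ^ 2 := by nlinarith
  have h7 : (2 : ℝ) ^ n * (2 * ((2 : ℝ) ^ (b * n) * X)) ≤
      8 * (2 ^ n * 2 ^ (b * n)) * X ^ 2 := by
    have : (0 : ℝ) < 2 ^ n * 2 ^ (b * n) := by positivity
    nlinarith
  linarith

include hX in
theorem aux3 {x y : ℝ} {u v : ℝ} (hu : u ≤ 2 * ((2 : ℝ) ^ (x * n) * X)) (hu0 : 0 ≤ u)
    (hv : v ≤ 2 * ((2 : ℝ) ^ (y * n) * X)) (hv0 : 0 ≤ v) :
    v + u * Real.sqrt v ≤ 8 * (2 : ℝ) ^ (max y (x + y / 2) * n) * X ^ 2 := by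
  have h1 := two_mono n (le_max_left y (x + y / 2))
  have h2 := two_mono n (le_max_right y (x + y / 2))
  have h3 : (2 : ℝ) ^ (y * n) = (2 ^ (y / 2 * n)) ^ 2 := by
    rw [← Real.rpow_natCast, ← Real.rpow_mul (by norm_num)]
    congr 1; push_cast; ring
  have h3' : (2 : ℝ) ^ ((x + y / 2) * n) = 2 ^ (x * n) * 2 ^ (y / 2 * n) := by
    rw [← Real.rpow_add (by norm_num)]
    congr 1; ring
  have h6 : X ≤ X ^ 2 := by nlinarith
  have hs : Real.sqrt v ≤ 2 * (2 ^ (y / 2 * n) * X) := by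
    apply Real.sqrt_le_iff.2
    refine ⟨by positivity, hv.trans ?_⟩
    rw [h3]
    have hp : (0 : ℝ) ≤ (2 ^ (y / 2 * n)) ^ 2 := by positivity
    have e : (2 * ((2 : ℝ) ^ (y / 2 * n) * X)) ^ 2 = 4 * ((2 ^ (y / 2 * n)) ^ 2 * X ^ 2) := by ring
    rw [e]
    have e2 : ((2 : ℝ) ^ (y / 2 * n)) ^ 2 * X ≤ (2 ^ (y / 2 * n)) ^ 2 * X ^ 2 := by gcongr
    have e3 : 0 ≤ ((2 : ℝ) ^ (y / 2 * n)) ^ 2 * X := by positivity
    linarith
  have h4 : u * Real.sqrt v ≤ 4 * (2 : ℝ) ^ ((x + y / 2) * n) * X ^ 2 := by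
    rw [h3']
    calc u * Real.sqrt v ≤ (2 * ((2 : ℝ) ^ (x * n) * X)) * (2 * (2 ^ (y / 2 * n) * X)) := by
          gcongr
      _ = _ := by ring
  have h5 : v ≤ 2 * (2 : ℝ) ^ (y * n) * X ^ 2 := by
    have := two_pos (y * n)
    nlinarith
  have h7 : 4 * (2 : ℝ) ^ ((x + y / 2) * n) * X ^ 2 ≤
      4 * (2 : ℝ) ^ (max y (x + y / 2) * n) * X ^ 2 := by
    gcongr
  have h8 : 2 * (2 : ℝ) ^ (y * n) * X ^ 2 ≤ 2 * (2 : ℝ) ^ (max y (x + y / 2) * n) * X ^ 2 := by
    gcongr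
  have h9 : 0 ≤ (2 : ℝ) ^ (max y (x + y / 2) * n) * X ^ 2 := by positivity
  linarith

include hX hA hB in
theorem E3 : (I A B : ℝ) ≤ 8 * (2 : ℝ) ^ (max b (a + b / 2) * n) * X ^ 2 :=
  (I_kst A B).trans (aux3 hX hA (by positivity) hB (by positivity))

include hX hA hB in
theorem E4 : (I A B : ℝ) ≤ 8 * (2 : ℝ) ^ (max a (b + a / 2) * n) * X ^ 2 :=
  (I_kst' A B).trans (aux3 hX hB (by positivity) hA (by positivity))

include hK hX hA hB in
theorem E5 : (I A B : ℝ) ≤ 8 * (2 : ℝ) ^ (max (a + b - 1) ((a + b + 1) / 2) * n) * X ^ 2 := by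
  have h1 := I_spec A B
  rw [hK] at h1
  push_cast at h1
  have e1 := two_mono n (le_max_left (a + b - 1) ((a + b + 1) / 2))
  have e2 := two_mono n (le_max_right (a + b - 1) ((a + b + 1) / 2))
  set M := (2 : ℝ) ^ (max (a + b - 1) ((a + b + 1) / 2) * n)
  have h5 : (0 : ℝ) < 2 ^ n := by positivity
  have hAB : (A.card : ℝ) * B.card ≤ 4 * ((2 : ℝ) ^ (a * n) * 2 ^ (b * n)) * X ^ 2 := by
    calc (A.card : ℝ) * B.card ≤ (2 * ((2 : ℝ) ^ (a * n) * X)) * (2 * ((2 : ℝ) ^ (b * n) * X)) := by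
          gcongr
      _ = _ := by ring
  have h2 : (A.card : ℝ) * B.card / 2 ^ n ≤ 4 * M * X ^ 2 := by
    have h3 : (2 : ℝ) ^ ((a + b - 1) * n) = 2 ^ (a * n) * 2 ^ (b * n) / 2 ^ n := by
      rw [← Real.rpow_natCast 2 n, ← Real.rpow_add (by norm_num), ← Real.rpow_sub (by norm_num)]
      congr 1; ring
    rw [div_le_iff₀ h5]
    refine hAB.trans ?_
    have h4 : (2 : ℝ) ^ (a * n) * 2 ^ (b * n) = 2 ^ ((a + b - 1) * n) * 2 ^ n := by
      rw [h3]; field_simp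
    rw [h4]
    have : (2 : ℝ) ^ ((a + b - 1) * n) * 2 ^ n ≤ M * 2 ^ n := by gcongr
    have hX2 : (0 : ℝ) ≤ X ^ 2 := by positivity
    nlinarith
  have h3 : Real.sqrt (2 ^ n * A.card * B.card) ≤ 2 * M * X ^ 2 := by
    have h4 : 2 ^ n * (A.card : ℝ) * B.card ≤ (2 * (2 : ℝ) ^ ((a + b + 1) / 2 * n) * X) ^ 2 := by
      have h6 : ((2 : ℝ) ^ ((a + b + 1) / 2 * n)) ^ 2 = 2 ^ n * (2 ^ (a * n) * 2 ^ (b * n)) := by
        rw [← Real.rpow_natCast ((2 : ℝ) ^ ((a + b + 1) / 2 * n)), ← Real.rpow_natCast 2 n,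
          ← Real.rpow_add (by norm_num), ← Real.rpow_add (by norm_num),
          ← Real.rpow_mul (by norm_num)]
        congr 1; push_cast; ring
      calc 2 ^ n * (A.card : ℝ) * B.card = 2 ^ n * ((A.card : ℝ) * B.card) := by ring
        _ ≤ 2 ^ n * (4 * ((2 : ℝ) ^ (a * n) * 2 ^ (b * n)) * X ^ 2) := by gcongr
        _ = 4 * (2 ^ n * (2 ^ (a * n) * 2 ^ (b * n))) * X ^ 2 := by ring
        _ = _ := by rw [← h6]; ring
    have h7 : Real.sqrt (2 ^ n * A.card * B.card) ≤ 2 * (2 : ℝ) ^ ((a + b + 1) / 2 * n) * X := by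
      rw [← Real.sqrt_sq (by positivity : 0 ≤ 2 * (2 : ℝ) ^ ((a + b + 1) / 2 * n) * X)]
      exact Real.sqrt_le_sqrt h4
    refine h7.trans ?_
    have h8 : X ≤ X ^ 2 := by nlinarith
    calc 2 * (2 : ℝ) ^ ((a + b + 1) / 2 * n) * X ≤ 2 * M * X := by gcongr
      _ ≤ 2 * M * X ^ 2 := by gcongr
  have h9 : 0 ≤ M * X ^ 2 := by positivity
  linarith

end

variable {D : List Bool → List Bool →. List Bool} (hD : OptimalCond D)
  {pr : List Bool → List Bool → List Bool} {f : ℕ → (ZMod 2)[X]}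

include hD in
theorem outer (hpr : ∀ x y x' y', pr x y = pr x' y' → x = x' ∧ y = y') (hf : FieldSeq f)
    {a b c : ℝ} (hmem : (a, b, c) ∈ Prof D pr f) : 0 ≤ a ∧ 0 ≤ b ∧ low a b ≤ c := by
  have h1 := outer_core hD hpr hf hmem (s0 := 1 + a)
    (fun n _ K _ _ _ hK X hX A B hA _ => E1 hK hX hA)
  have h2 := outer_core hD hpr hf hmem (s0 := 1 + b)
    (fun n _ K _ _ _ hK X hX A B _ hB => E2 hK hX hB)
  have h3 := outer_core hD hpr hf hmem (s0 := max b (a + b / 2))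
    (fun n _ K _ _ _ _ X hX A B hA hB => E3 hX hA hB)
  have h4 := outer_core hD hpr hf hmem (s0 := max a (b + a / 2))
    (fun n _ K _ _ _ _ X hX A B hA hB => E4 hX hA hB)
  have h5 := outer_core hD hpr hf hmem (s0 := max (a + b - 1) ((a + b + 1) / 2))
    (fun n _ K _ _ _ hK X hX A B hA hB => E5 hK hX hA hB)
  refine ⟨h1.1, h1.2.1, ?_⟩
  unfold low
  refine max_le h1.2.2.1 (max_le ?_ (max_le ?_ (max_le ?_ (max_le ?_ ?_))))
  · linarith [h1.2.2.2]
  · linarith [h2.2.2.2]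
  · linarith [h3.2.2.2]
  · linarith [h4.2.2.2]
  · linarith [h5.2.2.2]

include hD in
theorem inner_out (hf : FieldSeq f) {a b c : ℝ} (ha : 0 ≤ a) (hb : 0 ≤ b)
    (hab : 2 * b ≤ a ∨ 2 * a ≤ b ∨ 3 ≤ a + b) (hc : low a b ≤ c) : (a, b, c) ∈ Prof D pr f := by
  unfold low at hc
  simp only [max_le_iff] at hc
  obtain ⟨c0, c1, c2, c3, c4, c5⟩ := hc
  rcases hab with h | h | h
  · -- a ≥ 2b
    have hmax : max a (b + a / 2) = a := max_eq_left (by linarith)
    rw [hmax] at c4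
    have hβ0 : 0 ≤ min b 2 := le_min hb (by norm_num)
    have hβa : min b 2 ≤ a := (min_le_left _ _).trans (by linarith)
    refine inner3 hD pr hf (α := min (a - min b 2) 1) (β := min b 2)
      (le_min (by linarith) (by norm_num)) (min_le_right _ _) hβ0 (min_le_right _ _)
      (min_le_left _ _) ?_ ?_
    · have := min_le_left (a - min b 2) 1
      linarith
    · rcases le_total (a - min b 2) 1 with h1 | h1
      · rw [min_eq_left h1]; linarith
      · rw [min_eq_right h1]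
        rcases le_total b 2 with h2 | h2
        · rw [min_eq_left h2]; linarith
        · rw [min_eq_right h2]; linarith
  · -- b ≥ 2a
    have hmax : max b (a + b / 2) = b := max_eq_left (by linarith)
    rw [hmax] at c3
    have hα0 : 0 ≤ min a 2 := le_min ha (by norm_num)
    have hαb : min a 2 ≤ b := (min_le_left _ _).trans (by linarith)
    refine inner2 hD pr hf (α := min a 2) (β := min (b - min a 2) 1)
      hα0 (min_le_right _ _) (le_min (by linarith) (by norm_num)) (min_le_right _ _)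
      (min_le_left _ _) ?_ ?_
    · have := min_le_left (b - min a 2) 1
      linarith
    · rcases le_total (b - min a 2) 1 with h1 | h1
      · rw [min_eq_left h1]; linarith
      · rw [min_eq_right h1]
        rcases le_total a 2 with h2 | h2
        · rw [min_eq_left h2]; linarith
        · rw [min_eq_right h2]; linarith
  · -- a + b ≥ 3
    have hmax : max (a + b - 1) ((a + b + 1) / 2) = a + b - 1 := max_eq_left (by linarith)
    rw [hmax] at c5
    refine inner1 hD pr (α := min a 2) (β := min b 2) (le_min ha (by norm_num)) (min_le_right _ _)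
      (le_min hb (by norm_num)) (min_le_right _ _) (min_le_left _ _) (min_le_left _ _) ?_
    rcases le_total a 2 with h1 | h1 <;> rcases le_total b 2 with h2 | h2
    · rw [min_eq_left h1, min_eq_left h2]; linarith
    · rw [min_eq_left h1, min_eq_right h2]; linarith
    · rw [min_eq_right h1, min_eq_left h2]; linarith
    · rw [min_eq_right h1, min_eq_right h2]; linarith

include hD in
theorem inner_in (hf : FieldSeq f) {a b c : ℝ} (h1 : a ≤ 2 * b) (h2 : b ≤ 2 * a)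
    (h3 : a + b ≤ 3) (hc : 3 - 2 * (a + b) / 3 ≤ c) : (a, b, c) ∈ Prof D pr f :=
  inner4 hD pr hf (u := (2 * a - b) / 3) (v := (2 * b - a) / 3) (by linarith) (by linarith)
    (by linarith) (by linarith) (by linarith) (by linarith)

/-- in the triangle the gap is at most one sixth -/
theorem low_in {a b c : ℝ} (h1 : a ≤ 2 * b) (h2 : b ≤ 2 * a) (h3 : a + b ≤ 3)
    (hc : low a b ≤ c) :
    3 - 2 * (a + b) / 3 - min (2 * a - b) (min (2 * b - a) (3 - a - b)) / 6 ≤ c := by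
  unfold low at hc
  simp only [max_le_iff] at hc
  obtain ⟨c0, c1, c2, c3, c4, c5⟩ := hc
  rw [max_eq_right (by linarith)] at c3 c4 c5
  rcases min_cases (2 * b - a) (3 - a - b) with ⟨e, _⟩ | ⟨e, _⟩ <;>
  rcases min_cases (2 * a - b) (min (2 * b - a) (3 - a - b)) with ⟨e', _⟩ | ⟨e', _⟩ <;>
  rw [e'] <;> (try rw [e]) <;> linarith

end Pool.Agent.Helper637.GW
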