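import Mathlib
import Pool.Agent.Helper637.GW.Defs
set_option autoImplicit false
set_option linter.unusedSectionVars false
namespace Pool.Agent.Helper637.GW
open Polynomial Filter
open Pool.Agent.Helper760.Kolm (allLen mem_allLen length_allLen primrec_allLen val primrec_val
  exists_val numOf restOf primrec_numOf primrec_restOf putNum numOf_putNum restOf_putNum
  length_putNum)
open Encodable

/-- lists of rectangles of strings -/
abbrev RectL := List (List (List Bool) × List (List Bool))

/-- `w` is a list of at most `2 ^ γ` rectangles with sides at most `2 ^ α`, `2 ^ β` covering `F` -/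
def GoodCov (F : List (List Bool × List Bool)) (α β γ : ℕ) (w : RectL) : Prop :=
  w.length ≤ (allLen γ).length ∧
  (∀ r ∈ w, r.1.length ≤ (allLen α).length ∧ r.2.length ≤ (allLen β).length) ∧
  ∀ z ∈ F, ∃ r ∈ w, (∃ u ∈ r.1, u = z.1) ∧ (∃ u ∈ r.2, u = z.2)

/-- the list of all incident pairs, for the multiplication `m` -/
def flags (m : ℕ → List Bool → List Bool → List Bool → List Bool) (n : ℕ) :
    List (List Bool × List Bool) :=
  (allLen (3 * n)).map (fun u => (u.take (2 * n),
    u.drop (2 * n) ++ m n (u.take n) (u.drop (2 * n)) ((u.drop n).take n)))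

theorem comp_map {α β σ : Type*} [Primcodable α] [Primcodable β] [Primcodable σ] [Inhabited σ]
    {f : α → List β} {g : α → β → σ} (hf : Computable f) (hg : Computable₂ g) :
    Computable (fun a => (f a).map (g a)) := by
  have hget : Computable (fun z : α × (ℕ × List σ) => (f z.1)[z.2.1]?) :=
    Computable.list_getElem?.comp (hf.comp Computable.fst) (Computable.fst.comp Computable.snd)
  have hg' : Computable₂ (fun (z : α × (ℕ × List σ)) (b : β) => g z.1 b) :=
    hg.comp (Computable.fst.comp Computable.fst) Computable.snd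
  have hmap : Computable (fun z : α × (ℕ × List σ) => ((f z.1)[z.2.1]?).map (g z.1)) :=
    Computable.option_map hget hg'
  have hd : Computable (fun z : α × (ℕ × List σ) =>
      (((f z.1)[z.2.1]?).map (g z.1)).getD default) :=
    Computable.option_getD hmap (Computable.const default)
  have h1 : Computable₂ (fun (a : α) (p : ℕ × List σ) =>
      p.2 ++ [(((f a)[p.1]?).map (g a)).getD default]) := by
    have h3 : Computable (fun z : α × (ℕ × List σ) =>
        [(((f z.1)[z.2.1]?).map (g z.1)).getD default]) :=
      Computable.list_cons.comp hd (Computable.const [])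
    exact Computable.list_append.comp (Computable.snd.comp Computable.snd) h3
  have h2 := Computable.nat_rec (f := fun a => (f a).length) (g := fun _ => ([] : List σ))
    (Computable.list_length.comp hf) (Computable.const []) h1
  refine h2.of_eq fun a => ?_
  have key : ∀ k ≤ (f a).length, (Nat.rec (motive := fun _ => List σ) []
      (fun y IH => IH ++ [(((f a)[y]?).map (g a)).getD default]) k) = ((f a).take k).map (g a) := by
    intro k hk
    induction k with
    | zero => simp
    | succ k ih =>
      have e1 : (Nat.rec (motive := fun _ => List σ) []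
        (fun y IH => IH ++ [(((f a)[y]?).map (g a)).getD default]) (k + 1)) =
        (Nat.rec (motive := fun _ => List σ) []
        (fun y IH => IH ++ [(((f a)[y]?).map (g a)).getD default]) k) ++
          [(((f a)[k]?).map (g a)).getD default] := rfl
      have e2 : (f a)[k]? = some ((f a)[k]'(by omega)) := List.getElem?_eq_getElem (by omega)
      rw [e1, ih (by omega), List.take_add_one, List.map_append, e2]
      rfl
  have := key (f a).length le_rfl
  rw [List.take_length] at this
  exact this

theorem comp_flags {m : ℕ → List Bool → List Bool → List Bool → List Bool}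
    (hm : Computable (fun z : ℕ × List Bool × List Bool × List Bool =>
      m z.1 z.2.1 z.2.2.1 z.2.2.2)) : Computable (flags m) := by
  unfold flags
  have h3 : Computable (fun n : ℕ => allLen (3 * n)) :=
    (primrec_allLen.comp (Primrec.nat_mul.comp (Primrec.const 3) Primrec.id)).to_comp
  refine comp_map (f := fun n : ℕ => allLen (3 * n))
    (g := fun (n : ℕ) (u : List Bool) => (u.take (2 * n),
    u.drop (2 * n) ++ m n (u.take n) (u.drop (2 * n)) ((u.drop n).take n))) h3 ?_
  have hn : Primrec (fun z : ℕ × List Bool => z.1) := Primrec.fst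
  have hu : Primrec (fun z : ℕ × List Bool => z.2) := Primrec.snd
  have h2n : Primrec (fun z : ℕ × List Bool => 2 * z.1) :=
    Primrec.nat_mul.comp (Primrec.const 2) hn
  have ha : Primrec (fun z : ℕ × List Bool => z.2.take (2 * z.1)) := Primrec.list_take.comp h2n hu
  have hx : Primrec (fun z : ℕ × List Bool => z.2.drop (2 * z.1)) := Primrec.list_drop.comp h2n hu
  have hs : Primrec (fun z : ℕ × List Bool => z.2.take z.1) := Primrec.list_take.comp hn hu
  have hd : Primrec (fun z : ℕ × List Bool => z.2.drop z.1) := Primrec.list_drop.comp hn hu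
  have ht : Primrec (fun z : ℕ × List Bool => (z.2.drop z.1).take z.1) :=
    Primrec.list_take.comp hn hd
  have hq : Computable (fun z : ℕ × List Bool =>
      (z.1, z.2.take z.1, z.2.drop (2 * z.1), (z.2.drop z.1).take z.1)) :=
    (Primrec.pair hn (Primrec.pair hs (Primrec.pair hx ht))).to_comp
  have hmm := hm.comp hq
  have happ : Computable (fun z : ℕ × List Bool => z.2.drop (2 * z.1) ++
      m z.1 (z.2.take z.1) (z.2.drop (2 * z.1)) ((z.2.drop z.1).take z.1)) :=
    Computable.list_append.comp hx.to_comp hmm
  exact Computable.pair ha.to_comp happ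

theorem primrec_goodCov :
    PrimrecPred (fun z : (List (List Bool × List Bool)) × (ℕ × ℕ × ℕ) × RectL =>
      GoodCov z.1 z.2.1.1 z.2.1.2.1 z.2.1.2.2 z.2.2) := by
  unfold GoodCov
  have hw : Primrec (fun z : (List (List Bool × List Bool)) × (ℕ × ℕ × ℕ) × RectL => z.2.2) :=
    Primrec.snd.comp Primrec.snd
  have hF : Primrec (fun z : (List (List Bool × List Bool)) × (ℕ × ℕ × ℕ) × RectL => z.1) :=
    Primrec.fst
  have hv : Primrec (fun z : (List (List Bool × List Bool)) × (ℕ × ℕ × ℕ) × RectL => z.2.1) :=
    Primrec.fst.comp Primrec.snd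
  refine PrimrecPred.and ?_ (PrimrecPred.and ?_ ?_)
  · have h1 : Primrec (fun z : (List (List Bool × List Bool)) × (ℕ × ℕ × ℕ) × RectL =>
        z.2.2.length) := Primrec.list_length.comp hw
    have h2 : Primrec (fun z : (List (List Bool × List Bool)) × (ℕ × ℕ × ℕ) × RectL =>
        (allLen z.2.1.2.2).length) :=
      Primrec.list_length.comp (primrec_allLen.comp (Primrec.snd.comp (Primrec.snd.comp hv)))
    exact PrimrecRel.comp (f := fun z : (List (List Bool × List Bool)) × (ℕ × ℕ × ℕ) × RectL =>
        z.2.2.length) (g := fun z => (allLen z.2.1.2.2).length) Primrec.nat_le h1 h2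
  · have h1 : Primrec (fun p : (List (List Bool) × List (List Bool)) × (ℕ × ℕ × ℕ) =>
        p.1.1.length) := Primrec.list_length.comp (Primrec.fst.comp Primrec.fst)
    have h2 : Primrec (fun p : (List (List Bool) × List (List Bool)) × (ℕ × ℕ × ℕ) =>
        p.1.2.length) := Primrec.list_length.comp (Primrec.snd.comp Primrec.fst)
    have h3 : Primrec (fun p : (List (List Bool) × List (List Bool)) × (ℕ × ℕ × ℕ) =>
        (allLen p.2.1).length) :=
      Primrec.list_length.comp (primrec_allLen.comp (Primrec.fst.comp Primrec.snd))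
    have h4 : Primrec (fun p : (List (List Bool) × List (List Bool)) × (ℕ × ℕ × ℕ) =>
        (allLen p.2.2.1).length) :=
      Primrec.list_length.comp (primrec_allLen.comp (Primrec.fst.comp
        (Primrec.snd.comp Primrec.snd)))
    have h5 : PrimrecPred (fun p : (List (List Bool) × List (List Bool)) × (ℕ × ℕ × ℕ) =>
        p.1.1.length ≤ (allLen p.2.1).length) :=
      PrimrecRel.comp (f := fun p : (List (List Bool) × List (List Bool)) × (ℕ × ℕ × ℕ) =>
        p.1.1.length) (g := fun p => (allLen p.2.1).length) Primrec.nat_le h1 h3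
    have h6 : PrimrecPred (fun p : (List (List Bool) × List (List Bool)) × (ℕ × ℕ × ℕ) =>
        p.1.2.length ≤ (allLen p.2.2.1).length) :=
      PrimrecRel.comp (f := fun p : (List (List Bool) × List (List Bool)) × (ℕ × ℕ × ℕ) =>
        p.1.2.length) (g := fun p => (allLen p.2.2.1).length) Primrec.nat_le h2 h4
    have h7 : PrimrecRel (fun (r : List (List Bool) × List (List Bool)) (v : ℕ × ℕ × ℕ) =>
        r.1.length ≤ (allLen v.1).length ∧ r.2.length ≤ (allLen v.2.1).length) :=
      PrimrecPred.and h5 h6
    have h8 := h7.forall_mem_list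
    exact PrimrecRel.comp (f := fun z : (List (List Bool × List Bool)) × (ℕ × ℕ × ℕ) × RectL =>
        z.2.2) (g := fun z => z.2.1) h8 hw hv
  · have hm : PrimrecRel (fun (L : List (List Bool)) (x : List Bool) => ∃ u ∈ L, u = x) :=
      PrimrecRel.exists_mem_list Primrec.eq
    have h1 : PrimrecPred (fun p : (List (List Bool) × List (List Bool)) × (List Bool × List Bool)
        => ∃ u ∈ p.1.1, u = p.2.1) :=
      PrimrecRel.comp (f := fun p : (List (List Bool) × List (List Bool)) ×
        (List Bool × List Bool) => p.1.1) (g := fun p => p.2.1) hm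
        (Primrec.fst.comp Primrec.fst) (Primrec.fst.comp Primrec.snd)
    have h2 : PrimrecPred (fun p : (List (List Bool) × List (List Bool)) × (List Bool × List Bool)
        => ∃ u ∈ p.1.2, u = p.2.2) :=
      PrimrecRel.comp (f := fun p : (List (List Bool) × List (List Bool)) ×
        (List Bool × List Bool) => p.1.2) (g := fun p => p.2.2) hm
        (Primrec.snd.comp Primrec.fst) (Primrec.snd.comp Primrec.snd)
    have h3 : PrimrecRel (fun (r : List (List Bool) × List (List Bool)) (z : List Bool × List Bool)
        => (∃ u ∈ r.1, u = z.1) ∧ (∃ u ∈ r.2, u = z.2)) := PrimrecPred.and h1 h2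
    have h4 := h3.exists_mem_list
    have h5 : PrimrecRel (fun (z : List Bool × List Bool) (w : RectL) =>
        ∃ r ∈ w, (∃ u ∈ r.1, u = z.1) ∧ (∃ u ∈ r.2, u = z.2)) :=
      PrimrecRel.comp (f := fun p : (List Bool × List Bool) × RectL => p.2)
        (g := fun p => p.1) h4 Primrec.snd Primrec.fst
    have h6 := h5.forall_mem_list
    exact PrimrecRel.comp (f := fun z : (List (List Bool × List Bool)) × (ℕ × ℕ × ℕ) × RectL =>
        z.1) (g := fun z => z.2.2) h6 hF hw

open Classical in
/-- search for a good covering -/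
noncomputable def cov (m : ℕ → List Bool → List Bool → List Bool → List Bool)
    (n : ℕ) (v : ℕ × ℕ × ℕ) : Part RectL :=
  Nat.rfindOpt (fun k => (decode (α := RectL) k).bind (fun w =>
    bif decide (GoodCov (flags m n) v.1 v.2.1 v.2.2 w) then some w else none))

theorem cov_spec {m : ℕ → List Bool → List Bool → List Bool → List Bool} {n : ℕ}
    {v : ℕ × ℕ × ℕ} (h : ∃ w, GoodCov (flags m n) v.1 v.2.1 v.2.2 w) :
    ∃ w, w ∈ cov m n v ∧ GoodCov (flags m n) v.1 v.2.1 v.2.2 w := by
  classical
  obtain ⟨w0, hw0⟩ := h
  have hd : (cov m n v).Dom := by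
    unfold cov
    rw [Nat.rfindOpt_dom]
    refine ⟨encode w0, w0, ?_⟩
    simp [encodek, hw0]
  obtain ⟨w, hw⟩ := Part.dom_iff_mem.1 hd
  refine ⟨w, hw, ?_⟩
  obtain ⟨k, hk⟩ := Nat.rfindOpt_spec hw
  simp only [Option.mem_def, Option.bind_eq_some_iff] at hk
  obtain ⟨w', _, hk2⟩ := hk
  by_cases hg : GoodCov (flags m n) v.1 v.2.1 v.2.2 w'
  · simp only [hg, decide_true, cond_true, Option.some.injEq] at hk2
    rw [← hk2]; exact hg
  · simp [hg] at hk2

theorem partrec_cov {m : ℕ → List Bool → List Bool → List Bool → List Bool}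
    (hm : Computable (fun z : ℕ × List Bool × List Bool × List Bool =>
      m z.1 z.2.1 z.2.2.1 z.2.2.2)) :
    Partrec (fun z : ℕ × (ℕ × ℕ × ℕ) => cov m z.1 z.2) := by
  classical
  have hD : Primrec (fun z : (List (List Bool × List Bool)) × (ℕ × ℕ × ℕ) × RectL =>
      decide (GoodCov z.1 z.2.1.1 z.2.1.2.1 z.2.1.2.2 z.2.2)) := primrec_goodCov.decide
  have hq : Computable (fun z : ((ℕ × (ℕ × ℕ × ℕ)) × ℕ) × RectL =>
      (flags m z.1.1.1, z.1.1.2, z.2)) :=
    Computable.pair ((comp_flags hm).comp (Computable.fst.comp (Computable.fst.comp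
      Computable.fst))) (Computable.pair (Computable.snd.comp (Computable.fst.comp Computable.fst))
        Computable.snd)
  have hc := hD.to_comp.comp hq
  have hsome : Computable (fun z : ((ℕ × (ℕ × ℕ × ℕ)) × ℕ) × RectL => some z.2) :=
    Computable.option_some.comp Computable.snd
  have hnone : Computable (fun _ : ((ℕ × (ℕ × ℕ × ℕ)) × ℕ) × RectL => (none : Option RectL)) :=
    Computable.const none
  have hcond := Computable.cond hc hsome hnone
  have hdec : Computable (fun z : (ℕ × (ℕ × ℕ × ℕ)) × ℕ => decode (α := RectL) z.2) :=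
    Computable.decode.comp Computable.snd
  have hbind := Computable.option_bind hdec hcond.to₂
  have := Partrec.rfindOpt (f := fun (z : ℕ × (ℕ × ℕ × ℕ)) (k : ℕ) =>
    (decode (α := RectL) k).bind (fun w =>
    bif decide (GoodCov (flags m z.1) z.2.1 z.2.2.1 z.2.2.2 w) then some w else none))
    hbind.to₂
  exact this

/-- select an element of one of the two sides of a rectangle -/
def selR (p : List Bool) (r : List (List Bool) × List (List Bool)) : List Bool :=
  bif p.headI then r.2.getD (val p.tail) [] else r.1.getD (val p.tail) []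

theorem primrec_selR : Primrec₂ selR := by
  unfold selR
  have hp : Primrec (fun z : List Bool × (List (List Bool) × List (List Bool)) => z.1) :=
    Primrec.fst
  have hv : Primrec (fun z : List Bool × (List (List Bool) × List (List Bool)) =>
      val z.1.tail) := primrec_val.comp (Primrec.list_tail.comp hp)
  exact Primrec.cond (Primrec.list_headI.comp hp)
    ((Primrec.list_getD ([] : List Bool)).comp (Primrec.snd.comp Primrec.snd) hv)
    ((Primrec.list_getD ([] : List Bool)).comp (Primrec.fst.comp Primrec.snd) hv)

/-- the parameters stored in a string -/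
def parse (q : List Bool) : (ℕ × (ℕ × ℕ × ℕ)) × ℕ :=
  ((numOf q, numOf (restOf q), numOf (restOf (restOf q)), numOf (restOf (restOf (restOf q)))),
    val (restOf (restOf (restOf (restOf q)))))

theorem primrec_parse : Primrec parse := by
  unfold parse
  have h1 := primrec_restOf
  have h2 := h1.comp h1
  have h3 := h1.comp h2
  have h4 := h1.comp h3
  exact Primrec.pair (Primrec.pair primrec_numOf (Primrec.pair (primrec_numOf.comp h1)
    (Primrec.pair (primrec_numOf.comp h2) (primrec_numOf.comp h3)))) (primrec_val.comp h4)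

/-- the decoder -/
noncomputable def Ecov (m : ℕ → List Bool → List Bool → List Bool → List Bool)
    (p q : List Bool) : Part (List Bool) :=
  (cov m (parse q).1.1 (parse q).1.2).map (fun w => selR p (w.getD (parse q).2 ([], [])))

theorem partrec_Ecov {m : ℕ → List Bool → List Bool → List Bool → List Bool}
    (hm : Computable (fun z : ℕ × List Bool × List Bool × List Bool =>
      m z.1 z.2.1 z.2.2.1 z.2.2.2)) : Partrec₂ (Ecov m) := by
  have h1 : Partrec (fun z : List Bool × List Bool => cov m (parse z.2).1.1 (parse z.2).1.2) :=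
    (partrec_cov hm).comp ((Primrec.fst.comp (primrec_parse.comp Primrec.snd)).to_comp)
  have h2 : Primrec (fun z : (List Bool × List Bool) × RectL =>
      z.2.getD (parse z.1.2).2 ([], [])) :=
    (Primrec.list_getD (([], []) : List (List Bool) × List (List Bool))).comp Primrec.snd
      (Primrec.snd.comp (primrec_parse.comp (Primrec.snd.comp Primrec.fst)))
  have h3 : Computable₂ (fun (z : List Bool × List Bool) (w : RectL) =>
      selR z.1 (w.getD (parse z.2).2 ([], []))) :=
    (primrec_selR.comp (Primrec.fst.comp Primrec.fst) h2).to_comp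
  exact Partrec.map h1 h3

theorem exists_index {l : List (List Bool)} {s : List Bool} {α : ℕ} (hs : s ∈ l)
    (hl : l.length ≤ (allLen α).length) :
    ∃ p : List Bool, p.length ≤ α ∧ l.getD (val p) [] = s := by
  obtain ⟨i, hi, rfl⟩ := List.getElem_of_mem hs
  rw [length_allLen] at hl
  obtain ⟨p, hp, hv⟩ := exists_val i α (by omega)
  refine ⟨p, hp, ?_⟩
  rw [hv, List.getD_eq_getElem _ _ hi]

variable {D : List Bool → List Bool →. List Bool} (hD : OptimalCond D)

include hD in
theorem inner_cov {m : ℕ → List Bool → List Bool → List Bool → List Bool}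
    (hm : Computable (fun z : ℕ × List Bool × List Bool × List Bool =>
      m z.1 z.2.1 z.2.2.1 z.2.2.2)) :
    ∃ C : ℕ, ∀ n α β γ : ℕ, (∃ w, GoodCov (flags m n) α β γ w) → ∀ z ∈ flags m n,
      ∃ q : List Bool,
        condC D q [] ≤ γ + 2 * (Nat.size n + Nat.size α + Nat.size β + Nat.size γ) + C ∧
        condC D z.1 q ≤ α + C ∧ condC D z.2 q ≤ β + C := by
  obtain ⟨c1, hc1⟩ := hD.2 (Ecov m) (partrec_Ecov hm)
  obtain ⟨c2, hc2⟩ := hD.2 (fun p _ => Part.some p)
    (Partrec.comp (Partrec.some (α := List Bool)) Computable.fst)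
  refine ⟨c1 + c2 + 4, fun n α β γ hw z hz => ?_⟩
  obtain ⟨w, hwc, h1, h2, h3⟩ := cov_spec (v := (α, β, γ)) hw
  obtain ⟨r, hr, hr1, hr2⟩ := h3 z hz
  simp only [exists_eq_right] at hr1 hr2
  obtain ⟨i, hi, hri⟩ := List.getElem_of_mem hr
  simp only at h1 h2
  rw [length_allLen] at h1
  obtain ⟨pi, hpi, hvi⟩ := exists_val i γ (by omega)
  set q := putNum n (putNum α (putNum β (putNum γ pi))) with hq
  have hparse : parse q = ((n, α, β, γ), i) := by
    unfold parse
    rw [hq]
    simp only [numOf_putNum, restOf_putNum, hvi]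
  have hlen : q.length = 2 * (Nat.size n + Nat.size α + Nat.size β + Nat.size γ) + 4 +
      pi.length := by
    rw [hq]; simp only [length_putNum]; ring
  have hget : w.getD i ([], []) = r := by
    rw [List.getD_eq_getElem _ _ hi, hri]
  have hE : ∀ p, selR p r ∈ Ecov m p q := by
    intro p
    unfold Ecov
    rw [hparse]
    rw [Part.mem_map_iff]
    exact ⟨w, hwc, by simp only [hget]⟩
  refine ⟨q, ?_, ?_, ?_⟩
  · obtain ⟨p, hp, hpl⟩ := hc2 q [] q (Part.mem_some q)
    have := condC_le _ _ _ hp
    omega
  · obtain ⟨p, hp, hv⟩ := exists_index hr1 (h2 r hr).1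
    obtain ⟨p', hp', hpl⟩ := hc1 (false :: p) q _ (hE _)
    have e : selR (false :: p) r = z.1 := by simpa [selR] using hv
    rw [e] at hp'
    have := condC_le _ _ _ hp'
    simp only [List.length_cons] at hpl
    omega
  · obtain ⟨p, hp, hv⟩ := exists_index hr2 (h2 r hr).2
    obtain ⟨p', hp', hpl⟩ := hc1 (true :: p) q _ (hE _)
    have e : selR (true :: p) r = z.2 := by simpa [selR] using hv
    rw [e] at hp'
    have := condC_le _ _ _ hp'
    simp only [List.length_cons] at hpl
    omega

end Pool.Agent.Helper637.GW
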