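import Mathlib
import Pool.Agent.Helper637.GW.Inc
set_option autoImplicit false
set_option linter.unusedSectionVars false
namespace Pool.Agent.Helper637.GW
open Finset

section greedy
variable {G X : Type*} [Fintype G] [Fintype X] [DecidableEq X]

/-- the points not covered by the sets `act g '' S` -/
def unc (act : G → X → X) (S : Finset X) (gs : List G) : Finset X :=
  univ.filter (fun x => ∀ g ∈ gs, x ∉ S.image (act g))

theorem greedy (act : G → X → X) (hb : ∀ x, Function.Bijective (fun g => act g x))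
    (hi : ∀ g, Function.Injective (act g)) (S : Finset X) (hS : S.Nonempty) (N : ℕ) :
    ∃ gs : List G, gs.length = N ∧ ((unc act S gs).card : ℝ) ≤
      Fintype.card X * (1 - (S.card : ℝ) / Fintype.card X) ^ N := by
  obtain ⟨x0, hx0⟩ := hS
  have hGX : Fintype.card G = Fintype.card X := Fintype.card_of_bijective (hb x0)
  have hX0 : (0 : ℝ) < Fintype.card X := by
    exact_mod_cast Fintype.card_pos_iff.2 ⟨x0⟩
  have hρ : (0 : ℝ) ≤ 1 - (S.card : ℝ) / Fintype.card X := by
    rw [sub_nonneg, div_le_one hX0]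
    exact_mod_cast card_le_univ S
  induction N with
  | zero =>
    refine ⟨[], rfl, ?_⟩
    simp only [pow_zero, mul_one]
    exact_mod_cast card_le_univ _
  | succ N ih =>
    obtain ⟨gs, hN, hU⟩ := ih
    set U := unc act S gs with hUd
    have hsum : ∑ g : G, ((S.filter (fun s => act g s ∈ U)).card : ℝ) = S.card * U.card := by
      have h1 : ∑ g : G, (S.filter (fun s => act g s ∈ U)).card = S.card * U.card := by
        simp_rw [card_filter]
        rw [sum_comm]
        have h2 : ∀ s ∈ S, ∑ g : G, (if act g s ∈ U then 1 else 0) = U.card := by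
          intro s _
          rw [← card_filter]
          refine card_bij (fun g _ => act g s) ?_ ?_ ?_
          · intro g hg; exact (mem_filter.1 hg).2
          · intro g _ g' _ h; exact (hb s).1 h
          · intro u hu
            obtain ⟨g, hg⟩ := (hb s).2 u
            exact ⟨g, mem_filter.2 ⟨mem_univ _, by simpa [hg] using hu⟩, hg⟩
        rw [sum_congr rfl h2, sum_const, smul_eq_mul]
      exact_mod_cast h1
    have hG0 : (univ : Finset G).Nonempty := by
      rw [← card_pos, card_univ, hGX]; exact_mod_cast hX0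
    obtain ⟨g, _, hg⟩ := exists_le_of_sum_le (s := (univ : Finset G))
      (f := fun _ => (S.card : ℝ) * U.card / Fintype.card X)
      (g := fun g => ((S.filter (fun s => act g s ∈ U)).card : ℝ)) hG0 (by
        rw [hsum, sum_const, card_univ, hGX, nsmul_eq_mul]
        field_simp
        exact le_refl _)
    refine ⟨g :: gs, by simp [hN], ?_⟩
    have h3 : unc act S (g :: gs) = U \ S.image (act g) := by
      ext x
      simp only [hUd, unc, mem_filter, mem_univ, true_and, List.mem_cons, forall_eq_or_imp,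
        mem_sdiff]
      tauto
    have h4 : (U ∩ S.image (act g)).card = (S.filter (fun s => act g s ∈ U)).card := by
      rw [← card_image_of_injective (S.filter (fun s => act g s ∈ U)) (hi g)]
      congr 1
      ext x
      simp only [mem_inter, mem_image, mem_filter]
      constructor
      · rintro ⟨h, s, hs, rfl⟩; exact ⟨s, ⟨hs, h⟩, rfl⟩
      · rintro ⟨s, ⟨hs, h⟩, rfl⟩; exact ⟨h, s, hs, rfl⟩
    have h5 : ((unc act S (g :: gs)).card : ℝ) = U.card - (S.filter (fun s => act g s ∈ U)).card := by
      rw [h3, ← h4, ← sdiff_inter_self_left U, cast_card_sdiff inter_subset_left]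
    rw [h5, pow_succ]
    have h6 : (U.card : ℝ) - (S.card : ℝ) * U.card / Fintype.card X =
        U.card * (1 - (S.card : ℝ) / Fintype.card X) := by ring
    calc (U.card : ℝ) - ((S.filter (fun s => act g s ∈ U)).card : ℝ) ≤
        U.card * (1 - (S.card : ℝ) / Fintype.card X) := by rw [← h6]; linarith
      _ ≤ (Fintype.card X * (1 - (S.card : ℝ) / Fintype.card X) ^ N) *
          (1 - (S.card : ℝ) / Fintype.card X) := by gcongr
      _ = _ := by ring

theorem cover (act : G → X → X) (hb : ∀ x, Function.Bijective (fun g => act g x))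
    (hi : ∀ g, Function.Injective (act g)) (S : Finset X) (hS : S.Nonempty) :
    ∃ gs : List G, (gs.length : ℝ) ≤
      (Fintype.card X : ℝ) / S.card * Real.log (Fintype.card X) + 1 ∧
      ∀ x, ∃ g ∈ gs, x ∈ S.image (act g) := by
  have hS0 : (0 : ℝ) < S.card := by exact_mod_cast card_pos.2 hS
  have hX0 : (0 : ℝ) < Fintype.card X := by
    obtain ⟨x, _⟩ := hS
    exact_mod_cast Fintype.card_pos_iff.2 ⟨x⟩
  have hX1 : (1 : ℝ) ≤ Fintype.card X := by
    obtain ⟨x, _⟩ := hS
    exact_mod_cast Fintype.card_pos_iff.2 ⟨x⟩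
  set r := (Fintype.card X : ℝ) / S.card * Real.log (Fintype.card X) with hr
  have hr0 : 0 ≤ r := by
    have := Real.log_nonneg hX1
    positivity
  obtain ⟨gs, h1, h2⟩ := greedy act hb hi S hS (⌊r⌋₊ + 1)
  refine ⟨gs, ?_, ?_⟩
  · rw [h1]; push_cast
    have := Nat.floor_le hr0
    linarith
  · have h3 : (Fintype.card X : ℝ) * (1 - (S.card : ℝ) / Fintype.card X) ^ (⌊r⌋₊ + 1) < 1 := by
      set ρ := (S.card : ℝ) / Fintype.card X with hρ
      have hρ0 : 0 < ρ := by positivity
      have hρ1 : ρ ≤ 1 := by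
        rw [hρ, div_le_one hX0]
        exact_mod_cast card_le_univ S
      have h4 : 1 - ρ ≤ Real.exp (-ρ) := by
        have := Real.add_one_le_exp (-ρ); linarith
      have h5 : (1 - ρ) ^ (⌊r⌋₊ + 1) ≤ Real.exp (-ρ * (⌊r⌋₊ + 1)) := by
        calc (1 - ρ) ^ (⌊r⌋₊ + 1) ≤ Real.exp (-ρ) ^ (⌊r⌋₊ + 1) := by
              gcongr
          _ = _ := by rw [← Real.exp_nat_mul]; congr 1; push_cast; ring
      have h6 : Real.exp (-ρ * (⌊r⌋₊ + 1)) < Real.exp (- Real.log (Fintype.card X)) := by
        apply Real.exp_lt_exp.2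
        have h7 := Nat.lt_floor_add_one r
        have h8 : ρ * r = Real.log (Fintype.card X) := by
          rw [hρ, hr]; field_simp
        have h9 : ρ * r < ρ * (⌊r⌋₊ + 1) := by gcongr
        linarith
      rw [Real.exp_neg, Real.exp_log hX0] at h6
      calc (Fintype.card X : ℝ) * (1 - ρ) ^ (⌊r⌋₊ + 1) <
          Fintype.card X * (Fintype.card X : ℝ)⁻¹ := by
            gcongr
            exact lt_of_le_of_lt h5 h6
        _ = 1 := by field_simp
    have h4 : (unc act S gs).card = 0 := by
      have : ((unc act S gs).card : ℝ) < 1 := lt_of_le_of_lt h2 h3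
      have h5 : (unc act S gs).card < 1 := by exact_mod_cast this
      omega
    intro x
    by_contra hx
    push Not at hx
    rw [card_eq_zero] at h4
    have : x ∈ unc act S gs := mem_filter.2 ⟨mem_univ _, hx⟩
    rw [h4] at this
    simp at this

end greedy

variable {K : Type*} [Field K] [Fintype K] [DecidableEq K]

/-- a shear and a translation, acting on flags `(slope, x, y)` -/
def actF (g z : K × K × K) : K × K × K := (z.1 + g.1, z.2.1 + g.2.1, z.2.2 + g.1 * z.2.1 + g.2.2)

/-- the action on points -/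
def actP (g : K × K × K) (p : K × K) : K × K := (p.1 + g.2.1, p.2 + g.1 * p.1 + g.2.2)

/-- the action on lines -/
def actL (g : K × K × K) (l : K × K) : K × K := (l.1 + g.1, l.2 + g.2.2 - (l.1 + g.1) * g.2.1)

theorem actP_inj (g : K × K × K) : Function.Injective (actP g) := by
  rintro ⟨x, y⟩ ⟨x', y'⟩ h
  simp only [actP, Prod.mk.injEq] at h
  obtain ⟨h1, h2⟩ := h
  have h3 : x = x' := add_right_cancel h1
  subst h3
  have h4 : y = y' := by linear_combination h2
  rw [h4]

theorem actL_inj (g : K × K × K) : Function.Injective (actL g) := by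
  rintro ⟨x, y⟩ ⟨x', y'⟩ h
  simp only [actL, Prod.mk.injEq] at h
  obtain ⟨h1, h2⟩ := h
  have h3 : x = x' := add_right_cancel h1
  subst h3
  have h4 : y = y' := by linear_combination h2
  rw [h4]

/-- **Covering all flags by few translates of a rectangle.** -/
theorem cover_flags (A B : Finset (K × K)) (hI : 0 < I A B) :
    ∃ gs : List (K × K × K), (gs.length : ℝ) ≤
      (Fintype.card K : ℝ) ^ 3 / I A B * Real.log ((Fintype.card K : ℝ) ^ 3) + 1 ∧
      ∀ l p : K × K, On l p → ∃ g ∈ gs, l ∈ A.image (actL g) ∧ p ∈ B.image (actP g) := by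
  set S : Finset (K × K × K) :=
    univ.filter (fun z => (z.1, z.2.2 - z.1 * z.2.1) ∈ A ∧ (z.2.1, z.2.2) ∈ B) with hSd
  have hScard : S.card = I A B := by
    unfold I
    refine card_bij (fun z _ => ((z.1, z.2.2 - z.1 * z.2.1), (z.2.1, z.2.2))) ?_ ?_ ?_
    · intro z hz
      have := (mem_filter.1 hz).2
      refine mem_filter.2 ⟨mem_product.2 this, ?_⟩
      simp only [On]; ring
    · rintro ⟨a, x, y⟩ _ ⟨a', x', y'⟩ _ h
      simp only [Prod.mk.injEq] at h
      obtain ⟨⟨h1, _⟩, h2, h3⟩ := h
      rw [h1, h2, h3]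
    · rintro ⟨⟨a, b⟩, ⟨x, y⟩⟩ hz
      obtain ⟨hz1, h3⟩ := mem_filter.1 hz
      obtain ⟨h1, h2⟩ := mem_product.1 hz1
      simp only [On] at h1 h2 h3
      have h4 : y - a * x = b := by rw [h3]; ring
      refine ⟨(a, x, y), mem_filter.2 ⟨mem_univ _, ?_, h2⟩, ?_⟩
      · simpa [h4] using h1
      · simp [h4]
  have hS : S.Nonempty := by rw [← card_pos, hScard]; exact hI
  have hcard : (Fintype.card (K × K × K) : ℝ) = (Fintype.card K : ℝ) ^ 3 := by
    rw [Fintype.card_prod, Fintype.card_prod]; push_cast; ring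
  obtain ⟨gs, h1, h2⟩ := cover (G := K × K × K) (X := K × K × K) actF (by
      rintro ⟨a, x, y⟩
      constructor
      · rintro ⟨g1, g2, g3⟩ ⟨k1, k2, k3⟩ h
        simp only [actF, Prod.mk.injEq] at h
        obtain ⟨e1, e2, e3⟩ := h
        have e4 : g1 = k1 := add_left_cancel e1
        have e5 : g2 = k2 := add_left_cancel e2
        subst e4 e5
        have e6 : g3 = k3 := by linear_combination e3
        rw [e6]
      · rintro ⟨a', x', y'⟩
        refine ⟨(a' - a, x' - x, y' - y - (a' - a) * x), ?_⟩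
        simp only [actF, Prod.mk.injEq]
        refine ⟨by ring, by ring, by ring⟩) (by
      rintro ⟨g1, g2, g3⟩ ⟨a, x, y⟩ ⟨a', x', y'⟩ h
      simp only [actF, Prod.mk.injEq] at h
      obtain ⟨e1, e2, e3⟩ := h
      have e4 : a = a' := add_right_cancel e1
      have e5 : x = x' := add_right_cancel e2
      subst e4 e5
      have e6 : y = y' := by linear_combination e3
      rw [e6]) S hS
  rw [hcard, hScard] at h1
  refine ⟨gs, h1, ?_⟩
  rintro ⟨a, b⟩ ⟨x, y⟩ hOn
  obtain ⟨g, hg, hz⟩ := h2 (a, x, y)
  obtain ⟨⟨a', x', y'⟩, hz', he⟩ := mem_image.1 hz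
  have h3 := (mem_filter.1 hz').2
  simp only [actF, Prod.mk.injEq] at he
  obtain ⟨e1, e2, e3⟩ := he
  simp only [On] at hOn
  simp only at h3
  refine ⟨g, hg, mem_image.2 ⟨_, h3.1, ?_⟩, mem_image.2 ⟨_, h3.2, ?_⟩⟩
  · simp only [actL, Prod.mk.injEq]
    refine ⟨e1, ?_⟩
    have e4 : a' = a - g.1 := by linear_combination e1
    have e5 : x' = x - g.2.1 := by linear_combination e2
    have e6 : y' = y - g.1 * x' - g.2.2 := by linear_combination e3
    rw [e6, e4, e5, hOn]
    ring
  · simp only [actP, Prod.mk.injEq]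
    exact ⟨e2, e3⟩

end Pool.Agent.Helper637.GW
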