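import Mathlib
import Pool.Agent.Helper637.GW.Bounds
import Pool.Agent.Helper637.GW.Cover
import Pool.Agent.Helper637.GW.CovC
set_option autoImplicit false
set_option linter.unusedSectionVars false
namespace Pool.Agent.Helper637.GW
open Finset Polynomial Filter
open Pool.Agent.Helper760.Kolm (allLen mem_allLen length_allLen nodup_allLen)

/-- Achievable incidence exponents over the fields with `2 ^ n` elements: for all large `n` some
`2 ^ (a n + O(log n))` lines and `2 ^ (b n + O(log n))` points of the plane over the field with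
`2 ^ n` elements have at least `2 ^ ((3 - c) n - O(log n))` incidences. -/
def IncExp : Set (ℝ × ℝ × ℝ) :=
  {t | ∃ K : ℝ, ∀ᶠ n : ℕ in atTop, ∃ A B : Finset (GaloisField 2 n × GaloisField 2 n),
    (A.card : ℝ) ≤ 2 ^ (t.1 * n + K * Real.logb 2 n) ∧
    (B.card : ℝ) ≤ 2 ^ (t.2.1 * n + K * Real.logb 2 n) ∧
    (2 : ℝ) ^ ((3 - t.2.2) * n - K * Real.logb 2 n) ≤
      {z : (GaloisField 2 n × GaloisField 2 n) × GaloisField 2 n × GaloisField 2 n |
        z.1 ∈ A ∧ z.2 ∈ B ∧ z.2.2 = z.1.1 * z.2.1 + z.1.2}.ncard}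

theorem ncard_I {K : Type*} [Field K] [Fintype K] [DecidableEq K] (A B : Finset (K × K)) :
    {z : (K × K) × K × K | z.1 ∈ A ∧ z.2 ∈ B ∧ z.2.2 = z.1.1 * z.2.1 + z.1.2}.ncard = I A B := by
  unfold I
  rw [← Set.ncard_coe_finset]
  congr 1
  ext z
  rw [Set.mem_ofPred_eq, mem_coe, mem_filter, mem_product, and_assoc]
  rfl

theorem transfer {K K' : Type} [Field K] [Field K'] [Fintype K] [Fintype K'] [DecidableEq K]
    [DecidableEq K'] (e : K ≃+* K') (A B : Finset (K × K)) :
    ∃ A' B' : Finset (K' × K'), A'.card ≤ A.card ∧ B'.card ≤ B.card ∧ I A B ≤ I A' B' := by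
  refine ⟨A.image (Prod.map e e), B.image (Prod.map e e), card_image_le, card_image_le, ?_⟩
  unfold I
  refine card_le_card_of_injOn (fun z => (Prod.map e e z.1, Prod.map e e z.2)) ?_ ?_
  · intro z hz
    have hz' := mem_filter.1 hz
    have h1 := mem_product.1 hz'.1
    refine mem_coe.2 (mem_filter.2 ⟨mem_product.2 ⟨mem_image_of_mem _ h1.1,
      mem_image_of_mem _ h1.2⟩, ?_⟩)
    have h2 := hz'.2
    simp only [On, Prod.map_fst, Prod.map_snd] at h2 ⊢
    rw [h2, map_add, map_mul]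
  · rintro ⟨⟨a, b⟩, ⟨c, d⟩⟩ _ ⟨⟨a', b'⟩, ⟨c', d'⟩⟩ _ h
    simp only [Prod.map_apply, Prod.mk.injEq, EmbeddingLike.apply_eq_iff_eq] at h
    obtain ⟨⟨h1, h2⟩, h3, h4⟩ := h
    rw [h1, h2, h3, h4]

variable {D : List Bool → List Bool →. List Bool} (hD : OptimalCond D)
  {pr : List Bool → List Bool → List Bool} {f : ℕ → (ZMod 2)[X]}

include hD in
theorem outer_gen (hpr : ∀ x y x' y', pr x y = pr x' y' → x = x' ∧ y = y') (hf : FieldSeq f)
    {a b c : ℝ} (hmem : (a, b, c) ∈ Prof D pr f) : ∃ κ : ℝ, 0 ≤ κ ∧ ∀ᶠ n : ℕ in atTop, ∀ E : ℝ,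
      (∀ (K : Type) [Field K] [Fintype K] [DecidableEq K], Fintype.card K = 2 ^ n →
        ∀ A B : Finset (K × K),
        (A.card : ℝ) ≤ 2 * ((2 : ℝ) ^ (a * n) * (2 : ℝ) ^ (κ * Real.logb 2 n)) →
        (B.card : ℝ) ≤ 2 * ((2 : ℝ) ^ (b * n) * (2 : ℝ) ^ (κ * Real.logb 2 n)) →
        (I A B : ℝ) ≤ E) →
      (2 : ℝ) ^ (3 * (n : ℝ)) ≤ 4 * ((2 : ℝ) ^ (c * n) * (2 : ℝ) ^ (κ * Real.logb 2 n)) * E := by
  classical
  obtain ⟨K0, hK0⟩ := hmem 2
  set κ := max K0 0 with hκ
  have hκ0 : 0 ≤ κ := le_max_right _ _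
  refine ⟨κ, hκ0, ?_⟩
  filter_upwards [hK0, eventually_ge_atTop 2] with n hq hn E hE
  have hn0 : (0 : ℝ) < n := by positivity
  have hlog : 1 ≤ Real.logb 2 n := by
    rw [Real.le_logb_iff_rpow_le (by norm_num) (by positivity)]
    simpa using (by exact_mod_cast hn : (2 : ℝ) ≤ n)
  have hKκ : K0 * Real.logb 2 n ≤ κ * Real.logb 2 n := by
    gcongr; exact le_max_left _ _
  set X := (2 : ℝ) ^ (κ * Real.logb 2 n) with hX
  have hX1 : 1 ≤ X := Real.one_le_rpow (by norm_num) (by positivity)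
  obtain ⟨Fl, hFlc, hFl⟩ := exists_flags hf (n := n) (by omega)
  have hG := good_flags hD hpr hn Fl hFlc
  set G := Fl.filter (fun z => 3 * (n : ℝ) - 2 * Real.logb 2 n ≤ condC D (pr z.1 z.2) []) with hGd
  have hGpos : 0 < G.card := by
    have : (0 : ℝ) < G.card := lt_of_lt_of_le (by positivity) hG
    exact_mod_cast this
  have hz : ∀ z ∈ G, ∃ q : List Bool, (condC D q [] : ℝ) ≤ c * n + κ * Real.logb 2 n ∧
      (condC D z.1 q : ℝ) ≤ a * n + κ * Real.logb 2 n ∧
      (condC D z.2 q : ℝ) ≤ b * n + κ * Real.logb 2 n := by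
    intro z hz
    rw [hGd, mem_filter] at hz
    obtain ⟨q, h1, h2, h3⟩ := hq z.1 z.2 (hFl z hz.1) hz.2
    exact ⟨q, by linarith, by linarith, by linarith⟩
  obtain ⟨z0, hz0⟩ := card_pos.1 hGpos
  obtain ⟨q0, h1, h2, h3⟩ := hz z0 hz0
  have ha0 : 0 ≤ a * n + κ * Real.logb 2 n := le_trans (by positivity) h2
  have hb0 : 0 ≤ b * n + κ * Real.logb 2 n := le_trans (by positivity) h3
  have hc0 : 0 ≤ c * n + κ * Real.logb 2 n := le_trans (by positivity) h1
  set Q := ball hD [] ⌊c * n + κ * Real.logb 2 n⌋₊ with hQ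
  have hsub : G ⊆ Q.biUnion (fun q => Fl.filter (fun z =>
      z.1 ∈ ball hD q ⌊a * n + κ * Real.logb 2 n⌋₊ ∧
      z.2 ∈ ball hD q ⌊b * n + κ * Real.logb 2 n⌋₊)) := by
    intro z hzG
    obtain ⟨q, h1, h2, h3⟩ := hz z hzG
    rw [mem_biUnion]
    refine ⟨q, (mem_ball _ _ _ _).2 (Nat.le_floor h1), mem_filter.2 ⟨?_, ?_, ?_⟩⟩
    · rw [hGd, mem_filter] at hzG; exact hzG.1
    · exact (mem_ball _ _ _ _).2 (Nat.le_floor h2)
    · exact (mem_ball _ _ _ _).2 (Nat.le_floor h3)
  have hrect : ∀ q ∈ Q, ((Fl.filter (fun z =>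
      z.1 ∈ ball hD q ⌊a * n + κ * Real.logb 2 n⌋₊ ∧
      z.2 ∈ ball hD q ⌊b * n + κ * Real.logb 2 n⌋₊)).card : ℝ) ≤ E := by
    intro q _
    refine flags_le hf (n := n) (by omega) _ (2 * ((2 : ℝ) ^ (a * n) * X))
      (2 * ((2 : ℝ) ^ (b * n) * X)) ?_ Fl hFl _ _ ?_ ?_
    · intro K _ _ _ hK A B hA hB
      exact hE K hK A B hA hB
    · refine (ball_real hD ha0 q).trans ?_
      rw [hX, ← Real.rpow_add (by norm_num)]
    · refine (ball_real hD hb0 q).trans ?_
      rw [hX, ← Real.rpow_add (by norm_num)]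
  have hQc : (Q.card : ℝ) ≤ 2 * ((2 : ℝ) ^ (c * n) * X) := by
    refine (ball_real hD hc0 []).trans ?_
    rw [hX, ← Real.rpow_add (by norm_num)]
  have hG2 : (G.card : ℝ) ≤ Q.card * E := by
    have e1 : (G.card : ℝ) ≤ ∑ q ∈ Q, ((Fl.filter (fun z =>
      z.1 ∈ ball hD q ⌊a * n + κ * Real.logb 2 n⌋₊ ∧
      z.2 ∈ ball hD q ⌊b * n + κ * Real.logb 2 n⌋₊)).card : ℝ) := by
      exact_mod_cast (card_le_card hsub).trans card_biUnion_le
    refine e1.trans ((sum_le_sum hrect).trans ?_)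
    rw [sum_const, nsmul_eq_mul]
  have hE0 : 0 ≤ E := by
    by_contra hneg
    push Not at hneg
    have h5 : (Q.card : ℝ) * E ≤ 0 := mul_nonpos_of_nonneg_of_nonpos (by positivity) hneg.le
    have h6 : (0 : ℝ) < G.card := by exact_mod_cast hGpos
    linarith
  have e2 : (Q.card : ℝ) * E ≤ 2 * ((2 : ℝ) ^ (c * n) * X) * E := by gcongr
  linarith

include hD in
/-- every element of the profile is a triple of achievable incidence exponents -/
theorem incExp_of_mem (hpr : ∀ x y x' y', pr x y = pr x' y' → x = x' ∧ y = y') (hf : FieldSeq f)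
    {a b c : ℝ} (hmem : (a, b, c) ∈ Prof D pr f) : (a, b, c) ∈ IncExp := by
  classical
  obtain ⟨κ, hκ, hev⟩ := outer_gen hD hpr hf hmem
  refine ⟨κ + 3, ?_⟩
  filter_upwards [hev, eventually_ge_atTop 2] with n hn hn2
  have hn0 : (0 : ℝ) < n := by positivity
  have hn2' : (2 : ℝ) ≤ n := by exact_mod_cast hn2
  have hlog : 1 ≤ Real.logb 2 n := by
    rw [Real.le_logb_iff_rpow_le (by norm_num) (by positivity)]
    simpa using hn2'
  have hcube : (2 : ℝ) ^ (3 * Real.logb 2 n) = (n : ℝ) ^ 3 := by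
    rw [mul_comm, Real.rpow_mul (by norm_num), Real.rpow_logb (by norm_num) (by norm_num) hn0]
    exact_mod_cast Real.rpow_natCast (n : ℝ) 3
  have h8 : (8 : ℝ) ≤ (n : ℝ) ^ 3 := by
    calc (8 : ℝ) = 2 ^ 3 := by norm_num
      _ ≤ (n : ℝ) ^ 3 := by gcongr
  have hup : ∀ x : ℝ, 2 * ((2 : ℝ) ^ (x * n) * (2 : ℝ) ^ (κ * Real.logb 2 n)) ≤
      2 ^ (x * n + (κ + 3) * Real.logb 2 n) := by
    intro x
    have e : (2 : ℝ) ^ (x * n + (κ + 3) * Real.logb 2 n) =
        (n : ℝ) ^ 3 * ((2 : ℝ) ^ (x * n) * (2 : ℝ) ^ (κ * Real.logb 2 n)) := by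
      rw [← hcube, ← Real.rpow_add (by norm_num), ← Real.rpow_add (by norm_num)]
      congr 1; ring
    rw [e]
    gcongr
    linarith
  by_contra hcon
  push Not at hcon
  have key := hn ((2 : ℝ) ^ ((3 - c) * n - (κ + 3) * Real.logb 2 n)) (by
    intro K _ _ _ hK A B hA hB
    have : Fintype (GaloisField 2 n) := Fintype.ofFinite _
    have hcard : Fintype.card K = Fintype.card (GaloisField 2 n) := by
      rw [hK, ← Nat.card_eq_fintype_card, GaloisField.card 2 n (by omega)]
    obtain ⟨A', B', h1, h2, h3⟩ := transfer (FiniteField.ringEquivOfCardEq hcard) A B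
    have h4 := hcon A' B'
      ((by exact_mod_cast h1 : (A'.card : ℝ) ≤ A.card).trans (hA.trans (hup a)))
      ((by exact_mod_cast h2 : (B'.card : ℝ) ≤ B.card).trans (hB.trans (hup b)))
    rw [ncard_I] at h4
    have h5 : (I A B : ℝ) ≤ I A' B' := by exact_mod_cast h3
    exact h5.trans h4.le)
  have e : 4 * ((2 : ℝ) ^ (c * n) * (2 : ℝ) ^ (κ * Real.logb 2 n)) *
      (2 : ℝ) ^ ((3 - c) * n - (κ + 3) * Real.logb 2 n) * (n : ℝ) ^ 3 =
        4 * (2 : ℝ) ^ (3 * (n : ℝ)) := by
    rw [← hcube, mul_assoc 4, mul_assoc 4, ← Real.rpow_add (by norm_num),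
      ← Real.rpow_add (by norm_num), ← Real.rpow_add (by norm_num)]
    congr 2; ring
  have hpos : (0 : ℝ) < 2 ^ (3 * (n : ℝ)) := by positivity
  have key2 : (2 : ℝ) ^ (3 * (n : ℝ)) * 8 ≤ 4 * (2 : ℝ) ^ (3 * (n : ℝ)) := by
    rw [← e]
    gcongr
  linarith

theorem clog_le {x : ℕ} {t : ℝ} (hx : 1 ≤ x) (h : (x : ℝ) ≤ 2 ^ t) :
    (Nat.clog 2 x : ℝ) ≤ t + 1 := by
  have ht : 0 ≤ t := by
    by_contra hneg
    push Not at hneg
    have h1 : (2 : ℝ) ^ t < 1 := Real.rpow_lt_one_of_one_lt_of_neg (by norm_num) hneg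
    have h2 : (1 : ℝ) ≤ x := by exact_mod_cast hx
    linarith
  rcases Nat.lt_or_ge 1 x with h1 | h1
  · have h2 := Nat.pow_pred_clog_lt_self (b := 2) (by norm_num) h1
    have h3 : (2 : ℝ) ^ ((Nat.clog 2 x).pred : ℝ) < 2 ^ t := by
      rw [Real.rpow_natCast]
      exact lt_of_lt_of_le (by exact_mod_cast h2) h
    have h4 := (Real.rpow_lt_rpow_left_iff (by norm_num : (1 : ℝ) < 2)).1 h3
    have h5 : 0 < Nat.clog 2 x := Nat.clog_pos (by norm_num) h1
    have h6 : ((Nat.clog 2 x).pred : ℝ) = (Nat.clog 2 x : ℝ) - 1 := by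
      rw [Nat.pred_eq_sub_one, Nat.cast_sub h5]; simp
    linarith
  · have h2 : x = 1 := by omega
    subst h2
    simp
    linarith

theorem size_le5 {n x : ℕ} (hn : 2 ≤ n) (hx : x ≤ 8 * n) : (Nat.size x : ℝ) ≤ 5 * Real.logb 2 n := by
  have h1 : Nat.size x ≤ Nat.size n + 3 := by
    rw [Nat.size_le, pow_add]
    have := Nat.lt_size_self n
    omega
  have h2 := size_le_log hn
  have h3 : 1 ≤ Real.logb 2 n := by
    rw [Real.le_logb_iff_rpow_le (by norm_num) (by positivity)]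
    simpa using (by exact_mod_cast hn : (2 : ℝ) ≤ n)
  have h4 : (Nat.size x : ℝ) ≤ Nat.size n + 3 := by exact_mod_cast h1
  linarith

theorem dec_inj {g : (ZMod 2)[X]} {n : ℕ} (hg : g.natDegree = n) (h0 : g ≠ 0) {u v : List Bool}
    (hu : u.length = 2 * n) (hv : v.length = 2 * n) (h : dec g n u = dec g n v) : u = v := by
  simp only [dec, Prod.mk.injEq] at h
  have h1 := elt_inj hg h0 (by simp; omega) (by simp; omega) h.1
  have h2 := elt_inj hg h0 (by simp; omega) (by simp; omega) h.2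
  rw [← List.take_append_drop n u, ← List.take_append_drop n v, h1, h2]

theorem mem_flags {m : ℕ → List Bool → List Bool → List Bool → List Bool} {n : ℕ} (hn : 1 ≤ n)
    (hf : FieldSeq f)
    (hm : ∀ n s t r, 1 ≤ n → s.length = n → t.length = n → r.length = n →
      (m n s t r).length = n ∧ elt (f n) (m n s t r) = elt (f n) s * elt (f n) t + elt (f n) r)
    {L P : List Bool} (h : Incident f n L P) : (L, P) ∈ flags m n := by
  obtain ⟨s, t, x, y, hs, ht, hx, hy, e1, e2, he⟩ := h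
  unfold flags
  rw [List.mem_map]
  refine ⟨s ++ t ++ x, (mem_allLen _ _).2 (by simp; omega), ?_⟩
  have h1 : (s ++ t ++ x).take (2 * n) = s ++ t := List.take_left' (by simp; omega)
  have h2 : (s ++ t ++ x).drop (2 * n) = x := List.drop_left' (by simp; omega)
  have h3 : (s ++ t ++ x).take n = s := by
    rw [List.append_assoc]; exact List.take_left' hs
  have h4 : ((s ++ t ++ x).drop n).take n = t := by
    rw [List.append_assoc, List.drop_left' hs]; exact List.take_left' ht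
  rw [h1, h2, h3, h4, e1, e2]
  have h5 := hm n s x t hn hs hx ht
  have h6 : m n s x t = y := elt_inj (hf.deg n hn) (hf.irr n hn).ne_zero h5.1 hy (by rw [h5.2, he])
  rw [h6]

theorem flags_on {m : ℕ → List Bool → List Bool → List Bool → List Bool} {n : ℕ} (hn : 1 ≤ n)
    (hm : ∀ n s t r, 1 ≤ n → s.length = n → t.length = n → r.length = n →
      (m n s t r).length = n ∧ elt (f n) (m n s t r) = elt (f n) s * elt (f n) t + elt (f n) r)
    {z : List Bool × List Bool} (h : z ∈ flags m n) :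
    z.1.length = 2 * n ∧ z.2.length = 2 * n ∧ Incident f n z.1 z.2 := by
  unfold flags at h
  rw [List.mem_map] at h
  obtain ⟨u, hu, rfl⟩ := h
  rw [mem_allLen] at hu
  have h1 := hm n (u.take n) (u.drop (2 * n)) ((u.drop n).take n) hn (by simp; omega)
    (by simp; omega) (by simp; omega)
  refine ⟨by simp; omega, by simp [h1.1]; omega, u.take n, (u.drop n).take n, u.drop (2 * n), _,
    by simp; omega, by simp; omega, by simp; omega, h1.1, ?_, rfl, h1.2⟩
  simp only
  rw [two_mul, List.take_add]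

theorem exists_cov {m : ℕ → List Bool → List Bool → List Bool → List Bool} {n : ℕ} (hn : 1 ≤ n)
    (hf : FieldSeq f)
    (hm : ∀ n s t r, 1 ≤ n → s.length = n → t.length = n → r.length = n →
      (m n s t r).length = n ∧ elt (f n) (m n s t r) = elt (f n) s * elt (f n) t + elt (f n) r)
    [Fact (Irreducible (f n))] [Fintype (AdjoinRoot (f n))] [DecidableEq (AdjoinRoot (f n))]
    (A B : Finset (AdjoinRoot (f n) × AdjoinRoot (f n)))
    (gs : List (AdjoinRoot (f n) × AdjoinRoot (f n) × AdjoinRoot (f n)))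
    (hgs : ∀ l p : AdjoinRoot (f n) × AdjoinRoot (f n), On l p →
      ∃ g ∈ gs, l ∈ A.image (actL g) ∧ p ∈ B.image (actP g)) :
    ∃ w, GoodCov (flags m n) (Nat.clog 2 A.card) (Nat.clog 2 B.card) (Nat.clog 2 gs.length) w := by
  have hside : ∀ Z : Finset (AdjoinRoot (f n) × AdjoinRoot (f n)),
      ((strs (2 * n)).filter (fun z => dec (f n) n z ∈ Z)).card ≤ Z.card := by
    intro Z
    refine card_le_card_of_injOn (dec (f n) n) ?_ ?_
    · intro z hz
      exact (mem_filter.1 hz).2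
    · intro z hz z' hz' h
      have h1 := (mem_strs _ _).1 (mem_filter.1 hz).1
      have h2 := (mem_strs _ _).1 (mem_filter.1 hz').1
      exact dec_inj (hf.deg n hn) (hf.irr n hn).ne_zero h1 h2 h
  refine ⟨gs.map (fun g =>
    (((strs (2 * n)).filter (fun z => dec (f n) n z ∈ A.image (actL g))).toList,
     ((strs (2 * n)).filter (fun z => dec (f n) n z ∈ B.image (actP g))).toList)), ?_, ?_, ?_⟩
  · rw [List.length_map, length_allLen]
    exact Nat.le_pow_clog (by norm_num) _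
  · intro r hr
    obtain ⟨g, _, rfl⟩ := List.mem_map.1 hr
    simp only [length_toList, length_allLen]
    exact ⟨((hside _).trans card_image_le).trans (Nat.le_pow_clog (by norm_num) _),
      ((hside _).trans card_image_le).trans (Nat.le_pow_clog (by norm_num) _)⟩
  · intro z hz
    obtain ⟨h1, h2, s, t, x, y, hs, ht, hx, hy, e1, e2, he⟩ := flags_on (f := f) hn hm hz
    have hOn : On (dec (f n) n z.1) (dec (f n) n z.2) := by
      rw [e1, e2]
      unfold On dec
      simp only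
      rw [List.take_left' hs, List.drop_left' hs, List.take_left' hx, List.drop_left' hx]
      exact he
    obtain ⟨g, hg, hA, hB⟩ := hgs _ _ hOn
    refine ⟨_, List.mem_map.2 ⟨g, hg, rfl⟩, ⟨z.1, ?_, rfl⟩, ⟨z.2, ?_, rfl⟩⟩
    · exact mem_toList.2 (mem_filter.2 ⟨(mem_strs _ _).2 h1, hA⟩)
    · exact mem_toList.2 (mem_filter.2 ⟨(mem_strs _ _).2 h2, hB⟩)

theorem I_le_cube {K : Type*} [Field K] [Fintype K] [DecidableEq K] (A B : Finset (K × K)) :
    I A B ≤ Fintype.card K ^ 3 := by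
  have h1 := I_le_mul A B
  have h2 : A.card ≤ Fintype.card K * Fintype.card K := by
    rw [← Fintype.card_prod]; exact card_le_univ A
  calc I A B ≤ Fintype.card K * A.card := h1
    _ ≤ Fintype.card K * (Fintype.card K * Fintype.card K) := Nat.mul_le_mul_left _ h2
    _ = _ := by ring

include hD in
/-- every triple of achievable incidence exponents is in the profile -/
theorem mem_of_incExp (hf : FieldSeq f) {a b c : ℝ} (h : (a, b, c) ∈ IncExp) :
    (a, b, c) ∈ Prof D pr f := by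
  classical
  intro k
  obtain ⟨K, hK⟩ := h
  obtain ⟨m, hmc, hm⟩ := hf.comp
  obtain ⟨C, hC⟩ := inner_cov hD hmc
  refine ⟨K + 50 + C, ?_⟩
  filter_upwards [hK, eventually_ge_atTop 2] with n hn hn2 L P hLP _
  obtain ⟨A0, B0, hA0, hB0, hI0⟩ := hn
  have hn1 : 1 ≤ n := by omega
  have hn0 : (0 : ℝ) < n := by positivity
  have hn2' : (2 : ℝ) ≤ n := by exact_mod_cast hn2
  have hlog : 1 ≤ Real.logb 2 n := by
    rw [Real.le_logb_iff_rpow_le (by norm_num) (by positivity)]
    simpa using hn2'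
  have hlogn : Real.logb 2 n ≤ n := by
    rw [Real.logb_le_iff_le_rpow (by norm_num) hn0, Real.rpow_natCast]
    exact_mod_cast Nat.lt_two_pow_self.le
  have hg := hf.deg n hn1
  have h0 := (hf.irr n hn1).ne_zero
  have := Fact.mk (hf.irr n hn1)
  have := finite_adj hg h0
  have : Fintype (AdjoinRoot (f n)) := Fintype.ofFinite _
  have : Fintype (GaloisField 2 n) := Fintype.ofFinite _
  have hq := card_adj hg h0
  have hcard : Fintype.card (GaloisField 2 n) = Fintype.card (AdjoinRoot (f n)) := by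
    rw [hq, ← Nat.card_eq_fintype_card, GaloisField.card 2 n (by omega)]
  rw [ncard_I] at hI0
  obtain ⟨A, B, h1, h2, h3⟩ := transfer (FiniteField.ringEquivOfCardEq hcard) A0 B0
  have hI1 : (2 : ℝ) ^ ((3 - c) * n - K * Real.logb 2 n) ≤ I A B :=
    hI0.trans (by exact_mod_cast h3)
  have hIpos : 0 < I A B := by
    have : (0 : ℝ) < I A B := lt_of_lt_of_le (by positivity) hI1
    exact_mod_cast this
  have hIposR : (1 : ℝ) ≤ I A B := by exact_mod_cast hIpos
  have hcube := I_le_cube A B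
  rw [hq] at hcube
  have hqR : ((Fintype.card (AdjoinRoot (f n)) : ℕ) : ℝ) = 2 ^ (n : ℝ) := by
    rw [hq, Real.rpow_natCast]; push_cast; rfl
  have hq3 : ((Fintype.card (AdjoinRoot (f n)) : ℕ) : ℝ) ^ 3 = 2 ^ (3 * (n : ℝ)) := by
    rw [hqR, ← Real.rpow_natCast, ← Real.rpow_mul (by norm_num)]
    congr 1; push_cast; ring
  have hcubeR : (I A B : ℝ) ≤ 2 ^ (3 * (n : ℝ)) := by
    rw [← hq3, hq]; exact_mod_cast hcube
  -- sizes of the sides
  have hApos : 1 ≤ A.card := by
    by_contra hneg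
    have : A.card = 0 := by omega
    rw [card_eq_zero] at this
    subst this
    simp [I] at hIpos
  have hBpos : 1 ≤ B.card := by
    by_contra hneg
    have : B.card = 0 := by omega
    rw [card_eq_zero] at this
    subst this
    simp [I] at hIpos
  have hα := clog_le hApos ((by exact_mod_cast h1 : (A.card : ℝ) ≤ A0.card).trans hA0)
  have hβ := clog_le hBpos ((by exact_mod_cast h2 : (B.card : ℝ) ≤ B0.card).trans hB0)
  have hside : ∀ Z : Finset (AdjoinRoot (f n) × AdjoinRoot (f n)), Nat.clog 2 Z.card ≤ 8 * n := by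
    intro Z
    have h4 : Z.card ≤ 2 ^ (2 * n) := by
      have := card_le_univ Z
      rw [Fintype.card_prod, hq] at this
      calc Z.card ≤ _ := this
        _ = _ := by rw [← pow_add]; congr 1; ring
    have h5 := Nat.clog_le_of_le_pow h4
    omega
  -- the number of translates
  obtain ⟨gs, hgl, hgc⟩ := cover_flags A B hIpos
  obtain ⟨w, hw⟩ := exists_cov hn1 hf hm A B gs hgc
  rw [hq3] at hgl
  have hlog2 : Real.log ((2 : ℝ) ^ (3 * (n : ℝ))) ≤ 3 * n := by
    rw [Real.log_rpow (by norm_num)]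
    have := Real.log_two_lt_d9
    nlinarith
  have hgen : ∀ T : ℝ, 0 ≤ T → (2 : ℝ) ^ (3 * (n : ℝ)) / I A B ≤ 2 ^ T →
      (gs.length : ℝ) ≤ 2 ^ (T + Real.logb 2 n + 2) := by
    intro T hT0 hT
    have e : (2 : ℝ) ^ (T + Real.logb 2 n + 2) = 2 ^ T * (4 * n) := by
      rw [Real.rpow_add (by norm_num), Real.rpow_add (by norm_num),
        Real.rpow_logb (by norm_num) (by norm_num) hn0]
      norm_num
      ring
    have h5 : (1 : ℝ) ≤ 2 ^ T := Real.one_le_rpow (by norm_num) hT0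
    have h6 : (2 : ℝ) ^ (3 * (n : ℝ)) / I A B * Real.log ((2 : ℝ) ^ (3 * (n : ℝ))) ≤
        2 ^ T * (3 * n) := by
      have h7 : 0 ≤ Real.log ((2 : ℝ) ^ (3 * (n : ℝ))) :=
        Real.log_nonneg (Real.one_le_rpow (by norm_num) (by positivity))
      gcongr
    rw [e]
    nlinarith
  have hγpos : 1 ≤ gs.length := by
    obtain ⟨g, hg', _⟩ := hgc (0, 0) (0, 0) (by simp [On])
    exact List.length_pos_of_mem hg'
  have hT1 : 0 ≤ c * n + K * Real.logb 2 n := by
    have h5 : (2 : ℝ) ^ ((3 - c) * n - K * Real.logb 2 n) ≤ 2 ^ (3 * (n : ℝ)) := hI1.trans hcubeR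
    have h6 := (Real.rpow_le_rpow_left_iff (by norm_num : (1 : ℝ) < 2)).1 h5
    linarith
  have hγ1 := clog_le hγpos (hgen (c * n + K * Real.logb 2 n) hT1 (by
    rw [div_le_iff₀ (by linarith)]
    calc (2 : ℝ) ^ (3 * (n : ℝ)) = 2 ^ (c * n + K * Real.logb 2 n) *
          2 ^ ((3 - c) * n - K * Real.logb 2 n) := by
          rw [← Real.rpow_add (by norm_num)]; congr 1; ring
      _ ≤ _ := by gcongr))
  have hγ2 := clog_le hγpos (hgen (3 * n) (by positivity) (by
    rw [div_le_iff₀ (by linarith)]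
    have : (0 : ℝ) < 2 ^ (3 * (n : ℝ)) := by positivity
    nlinarith))
  have hγ3 : Nat.clog 2 gs.length ≤ 8 * n := by
    have : (Nat.clog 2 gs.length : ℝ) ≤ 8 * n := by linarith
    exact_mod_cast this
  have s1 := size_le5 hn2 (x := n) (by omega)
  have s2 := size_le5 hn2 (hside A)
  have s3 := size_le5 hn2 (hside B)
  have s4 := size_le5 hn2 hγ3
  obtain ⟨q, hq1, hq2, hq3⟩ := hC n _ _ _ ⟨w, hw⟩ (L, P) (mem_flags hn1 hf hm hLP)
  simp only at hq2 hq3
  have r1 : (condC D q [] : ℝ) ≤ Nat.clog 2 gs.length + 2 * (Nat.size n +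
      Nat.size (Nat.clog 2 A.card) + Nat.size (Nat.clog 2 B.card) +
      Nat.size (Nat.clog 2 gs.length)) + C := by exact_mod_cast hq1
  have r2 : (condC D L q : ℝ) ≤ Nat.clog 2 A.card + C := by exact_mod_cast hq2
  have r3 : (condC D P q : ℝ) ≤ Nat.clog 2 B.card + C := by exact_mod_cast hq3
  have hCl : (C : ℝ) ≤ C * Real.logb 2 n := le_mul_of_one_le_right (by positivity) hlog
  have e1 : (K + 50 + C) * Real.logb 2 n =
      K * Real.logb 2 n + 50 * Real.logb 2 n + C * Real.logb 2 n := by ring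
  refine ⟨q, ?_, ?_, ?_⟩
  · linarith
  · linarith
  · linarith

/-- a computable pairing of strings exists -/
theorem exists_pairing : ∃ pr : List Bool → List Bool → List Bool, Computable₂ pr ∧
    ∀ x y x' y', pr x y = pr x' y' → x = x' ∧ y = y' := by
  refine ⟨fun x y => List.replicate x.length true ++ false :: (x ++ y), ?_, ?_⟩
  · have h : Primrec (fun n : ℕ => List.replicate n true) := by
      have h : Primrec (fun n : ℕ => (List.range n).map (fun _ => true)) :=
        Primrec.list_map Primrec.list_range (Primrec.const true).to₂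
      exact h.of_eq (fun n => by simp)
    have h1 : Primrec (fun z : List Bool × List Bool => List.replicate z.1.length true) :=
      h.comp (Primrec.list_length.comp Primrec.fst)
    have h2 : Primrec (fun z : List Bool × List Bool => false :: (z.1 ++ z.2)) :=
      Primrec.list_cons.comp (Primrec.const false) (Primrec.list_append.comp Primrec.fst Primrec.snd)
    exact (Primrec.list_append.comp h1 h2).to_comp
  · intro x y x' y' h
    have h1 := congrArg Pool.Agent.Helper760.Kolm.ones h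
    have h2 := congrArg Pool.Agent.Helper760.Kolm.afterOnes h
    simp only [Pool.Agent.Helper760.Kolm.ones_replicate,
      Pool.Agent.Helper760.Kolm.afterOnes_replicate] at h1 h2
    exact List.append_inj h2 h1

end Pool.Agent.Helper637.GW
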