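import Mathlib
import Pool.Agent.Helper637.GW.Defs
set_option autoImplicit false
set_option linter.unusedSectionVars false
namespace Pool.Agent.Helper637.GW
open Finset Polynomial Filter
open Pool.Agent.Helper760.Kolm (allLen mem_allLen primrec_allLen)

/-- bitwise xor, cut to `n` bits -/
def xorL (n : ℕ) (u v : List Bool) : List Bool :=
  (List.range n).map (fun i => xor (u.getD i false) (v.getD i false))

/-- multiplication by `X` modulo `X ^ n + g` -/
def shiftRed (n : ℕ) (g u : List Bool) : List Bool :=
  xorL n (false :: u) (bif u.getD (n - 1) false then g else [])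

/-- multiplication modulo `X ^ n + g` -/
def mulM (n : ℕ) (g s t : List Bool) : List Bool :=
  s.foldr (fun b acc => xorL n (shiftRed n g acc) (bif b then t else [])) (List.replicate n false)

/-- the unit string -/
def oneL (n : ℕ) : List Bool := true :: List.replicate (n - 1) false

/-- every nonzero string has an inverse modulo `X ^ n + g` -/
def InvAll (n : ℕ) (g : List Bool) : Prop :=
  ∀ s ∈ allLen n, s = List.replicate n false ∨ ∃ t ∈ allLen n, mulM n g s t = oneL n

@[simp] theorem length_xorL (n : ℕ) (u v : List Bool) : (xorL n u v).length = n := by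
  simp [xorL]

@[simp] theorem length_mulM (n : ℕ) (g s t : List Bool) : (mulM n g s t).length = n := by
  unfold mulM
  cases s <;> simp

theorem getD_xorL (n : ℕ) (u v : List Bool) (i : ℕ) :
    (xorL n u v).getD i false = if i < n then xor (u.getD i false) (v.getD i false) else false := by
  unfold xorL
  split_ifs with h
  · rw [List.getD_eq_getElem _ _ (by simpa using h)]
    simp
  · rw [List.getD_eq_default _ _ (by simpa using h)]

theorem coeff_xor (b c : Bool) :
    (if xor b c = true then (1 : ZMod 2) else 0) = (if b = true then 1 else 0) + (if c = true then 1 else 0) := by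
  cases b <;> cases c <;> decide

theorem polyOf_xorL {n : ℕ} {u v : List Bool} (hu : u.length ≤ n) (hv : v.length ≤ n) :
    polyOf (xorL n u v) = polyOf u + polyOf v := by
  ext i
  rw [coeff_add, coeff_polyOf, coeff_polyOf, coeff_polyOf, getD_xorL]
  by_cases h : i < n
  · rw [if_pos h, coeff_xor]
  · rw [if_neg h, List.getD_eq_default u _ (by omega), List.getD_eq_default v _ (by omega)]
    simp

theorem polyOf_xorL_cons {n : ℕ} {u v : List Bool} (hn : 1 ≤ n) (hu : u.length = n)
    (hv : v.length ≤ n) :
    polyOf (xorL n (false :: u) v) + (if u.getD (n - 1) false = true then X ^ n else 0) =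
      X * polyOf u + polyOf v := by
  ext i
  rw [coeff_add, coeff_add, coeff_polyOf, coeff_polyOf, getD_xorL]
  have h0 : (X * polyOf u).coeff i = if (false :: u).getD i false = true then 1 else 0 := by
    cases i with
    | zero => simp
    | succ i => rw [coeff_X_mul, coeff_polyOf]; simp
  rw [h0]
  rcases lt_trichotomy i n with h | h | h
  · rw [if_pos h, coeff_xor]
    have : (if u.getD (n - 1) false = true then (X : (ZMod 2)[X]) ^ n else 0).coeff i = 0 := by
      split_ifs
      · rw [coeff_X_pow, if_neg (by omega)]
      · simp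
    rw [this, add_zero]
  · subst h
    rw [if_neg (lt_irrefl _)]
    have h1 : v.getD i false = false := List.getD_eq_default v _ (by omega)
    have h2 : (false :: u).getD i false = u.getD (i - 1) false := by
      obtain ⟨j, rfl⟩ : ∃ j, i = j + 1 := ⟨i - 1, by omega⟩
      simp
    rw [h1, h2]
    split_ifs <;> simp_all
  · rw [if_neg (show ¬ i < n by omega)]
    have h1 : v.getD i false = false := List.getD_eq_default v _ (by omega)
    have h2 : (false :: u).getD i false = false := List.getD_eq_default _ _ (by simp; omega)
    have : (if u.getD (n - 1) false = true then (X : (ZMod 2)[X]) ^ n else 0).coeff i = 0 := by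
      split_ifs
      · rw [coeff_X_pow, if_neg (by omega)]
      · simp
    rw [h1, h2, this]
    simp

/-- the polynomial `X ^ n + g` -/
noncomputable def modp (n : ℕ) (g : List Bool) : (ZMod 2)[X] := X ^ n + polyOf g

theorem mk_modp (n : ℕ) (g : List Bool) :
    AdjoinRoot.mk (modp n g) (X ^ n) = AdjoinRoot.mk (modp n g) (polyOf g) := by
  have h : AdjoinRoot.mk (modp n g) (X ^ n + polyOf g) = 0 := AdjoinRoot.mk_self
  rw [map_add] at h
  have h2 := add_self_adj (AdjoinRoot.mk (modp n g) (polyOf g))
  linear_combination h - h2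

theorem elt_shiftRed {n : ℕ} {g u : List Bool} (hn : 1 ≤ n) (hg : g.length = n)
    (hu : u.length = n) :
    elt (modp n g) (shiftRed n g u) = AdjoinRoot.mk (modp n g) X * elt (modp n g) u := by
  unfold elt shiftRed
  cases h : u.getD (n - 1) false with
  | false =>
    have h1 := polyOf_xorL_cons (v := []) hn hu (by simp)
    rw [h] at h1
    simp only [cond_false]
    rw [← map_mul]
    congr 1
    simpa [polyOf] using h1
  | true =>
    have h1 := polyOf_xorL_cons (v := g) hn hu hg.le
    rw [h] at h1
    simp only [cond_true]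
    rw [← map_mul]
    have h2 := congrArg (AdjoinRoot.mk (modp n g)) h1
    simp only [if_true, map_add] at h2
    have h3 := mk_modp n g
    linear_combination h2 - h3

theorem elt_mulM {n : ℕ} {g t : List Bool} (hn : 1 ≤ n) (hg : g.length = n) (ht : t.length = n)
    (s : List Bool) :
    elt (modp n g) (mulM n g s t) = elt (modp n g) s * elt (modp n g) t := by
  induction s with
  | nil =>
    unfold mulM elt
    simp [polyOf_replicate, polyOf]
  | cons b s ih =>
    have h1 : mulM n g (b :: s) t =
        xorL n (shiftRed n g (mulM n g s t)) (bif b then t else []) := rfl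
    rw [h1]
    have h2 : elt (modp n g) (xorL n (shiftRed n g (mulM n g s t)) (bif b then t else [])) =
        elt (modp n g) (shiftRed n g (mulM n g s t)) + elt (modp n g) (bif b then t else []) := by
      unfold elt
      rw [polyOf_xorL (by simp [shiftRed]) (by cases b <;> simp [ht]), map_add]
    rw [h2, elt_shiftRed hn hg (by simp), ih]
    have h3 : elt (modp n g) (b :: s) =
        (if b = true then 1 else 0) + AdjoinRoot.mk (modp n g) X * elt (modp n g) s := by
      unfold elt
      rw [polyOf, map_add, map_mul]
      cases b <;> simp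
    rw [h3]
    cases b
    · simp only [cond_false, Bool.false_eq_true, if_false]
      have : elt (modp n g) [] = 0 := by simp [elt, polyOf]
      rw [this]; ring
    · simp only [cond_true, if_true]
      ring

theorem natDegree_modp {n : ℕ} {g : List Bool} (hg : g.length = n) :
    (modp n g).natDegree = n := by
  unfold modp
  have h1 : (polyOf g).degree < (X ^ n : (ZMod 2)[X]).degree := by
    rw [degree_X_pow, ← hg]; exact degree_polyOf g
  have h2 := degree_add_eq_left_of_degree_lt h1
  rw [natDegree, h2, degree_X_pow]
  rfl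

theorem modp_ne_zero {n : ℕ} {g : List Bool} (hg : g.length = n) : modp n g ≠ 0 := by
  intro h
  have h1 : (polyOf g).degree < (X ^ n : (ZMod 2)[X]).degree := by
    rw [degree_X_pow, ← hg]; exact degree_polyOf g
  have h2 := degree_add_eq_left_of_degree_lt h1
  unfold modp at h
  rw [h, degree_zero, degree_X_pow] at h2
  exact absurd h2 (by simp)

theorem elt_replicate (F : (ZMod 2)[X]) (k : ℕ) : elt F (List.replicate k false) = 0 := by
  simp [elt, polyOf_replicate]

theorem elt_oneL (F : (ZMod 2)[X]) (n : ℕ) : elt F (oneL n) = 1 := by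
  simp [elt, oneL, polyOf, polyOf_replicate]

theorem invAll_iff {n : ℕ} {g : List Bool} (hn : 1 ≤ n) (hg : g.length = n) :
    InvAll n g ↔ Irreducible (modp n g) := by
  have hd := natDegree_modp hg
  have h0 := modp_ne_zero hg
  have hone : (oneL n).length = n := by simp [oneL]; omega
  constructor
  · intro h
    rw [Ideal.irreducible_iff_isMaximal_span_singleton h0]
    apply Ideal.Quotient.maximal_of_isField
    have hnt : ¬ IsUnit (modp n g) := by
      intro hu
      have := natDegree_eq_zero_of_isUnit hu
      omega
    have : Nontrivial (AdjoinRoot (modp n g)) := by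
      refine ⟨0, 1, fun h01 => hnt ?_⟩
      have h1 : AdjoinRoot.mk (modp n g) 1 = 0 := by rw [map_one]; exact h01.symm
      rw [AdjoinRoot.mk_eq_zero] at h1
      exact isUnit_of_dvd_one h1
    change IsField (AdjoinRoot (modp n g))
    refine ⟨⟨0, 1, zero_ne_one⟩, mul_comm, ?_⟩
    intro z hz
    obtain ⟨s, hs, rfl⟩ := elt_surj hd h0 z
    rcases h s ((mem_allLen n s).2 hs) with h1 | ⟨t, ht, h1⟩
    · exact absurd (by rw [h1, elt_replicate]) hz
    · refine ⟨elt (modp n g) t, ?_⟩
      rw [← elt_mulM hn hg ((mem_allLen n t).1 ht), h1, elt_oneL]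
  · intro hirr s hs
    rw [mem_allLen] at hs
    by_cases hz : s = List.replicate n false
    · exact Or.inl hz
    right
    have : Fact (Irreducible (modp n g)) := ⟨hirr⟩
    have h1 : elt (modp n g) s ≠ 0 := by
      intro h
      rw [← elt_replicate (modp n g) n] at h
      exact hz (elt_inj hd h0 hs (by simp) h)
    obtain ⟨t, ht, h2⟩ := elt_surj hd h0 (elt (modp n g) s)⁻¹
    refine ⟨t, (mem_allLen n t).2 ht, ?_⟩
    apply elt_inj hd h0 (by simp) hone
    rw [elt_mulM hn hg ht, h2, elt_oneL, mul_inv_cancel₀ h1]

theorem exists_irr (n : ℕ) (hn : 1 ≤ n) : ∃ g : List Bool, g.length = n ∧ Irreducible (modp n g) := by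
  have : NeZero n := ⟨by omega⟩
  obtain ⟨α, hα⟩ := Field.exists_primitive_element (ZMod 2) (GaloisField 2 n)
  rw [Field.primitive_element_iff_minpoly_natDegree_eq, GaloisField.finrank 2 (by omega)] at hα
  have hint : IsIntegral (ZMod 2) α := Algebra.IsIntegral.isIntegral α
  have hirr := minpoly.irreducible hint
  have hmon := minpoly.monic hint
  set p := minpoly (ZMod 2) α with hp
  have h1 : (p - X ^ n).degree < (n : WithBot ℕ) := by
    have h2 : p.degree = (X ^ n : (ZMod 2)[X]).degree := by
      rw [degree_X_pow, degree_eq_natDegree hmon.ne_zero, hα]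
    have h3 := degree_sub_lt_left h2 hmon.ne_zero (by rw [hmon.leadingCoeff, leadingCoeff_X_pow])
    rwa [degree_eq_natDegree hmon.ne_zero, hα] at h3
  obtain ⟨g, hg, hgp⟩ := exists_polyOf _ n h1
  refine ⟨g, hg, ?_⟩
  have : modp n g = p := by unfold modp; rw [hgp]; ring
  rw [this]
  exact hirr

theorem primrec_xorL :
    Primrec (fun z : ℕ × List Bool × List Bool => xorL z.1 z.2.1 z.2.2) := by
  unfold xorL
  refine Primrec.list_map (Primrec.list_range.comp Primrec.fst) ?_
  have h1 : Primrec₂ (fun (z : ℕ × List Bool × List Bool) (i : ℕ) => z.2.1.getD i false) :=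
    ((Primrec.list_getD false).comp (Primrec.fst.comp (Primrec.snd.comp Primrec.fst))
      Primrec.snd).to₂
  have h2 : Primrec₂ (fun (z : ℕ × List Bool × List Bool) (i : ℕ) => z.2.2.getD i false) :=
    ((Primrec.list_getD false).comp (Primrec.snd.comp (Primrec.snd.comp Primrec.fst))
      Primrec.snd).to₂
  exact (Primrec.dom_bool₂ xor).comp₂ h1 h2

theorem primrec_shiftRed :
    Primrec (fun z : ℕ × List Bool × List Bool => shiftRed z.1 z.2.1 z.2.2) := by
  unfold shiftRed
  have hn := Primrec.fst (α := ℕ) (β := List Bool × List Bool)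
  have hg : Primrec (fun z : ℕ × List Bool × List Bool => z.2.1) := Primrec.fst.comp Primrec.snd
  have hu : Primrec (fun z : ℕ × List Bool × List Bool => z.2.2) := Primrec.snd.comp Primrec.snd
  refine primrec_xorL.comp (Primrec.pair hn (Primrec.pair
    (Primrec.list_cons.comp (Primrec.const false) hu) ?_))
  exact Primrec.cond ((Primrec.list_getD false).comp hu (Primrec.pred.comp hn)) hg
    (Primrec.const [])

theorem primrec_rep : Primrec (fun n : ℕ => List.replicate n false) := by
  have h : Primrec (fun n : ℕ => (List.range n).map (fun _ => false)) :=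
    Primrec.list_map Primrec.list_range (Primrec.const false).to₂
  exact h.of_eq (fun n => by simp)

theorem primrec_mulM : Primrec (fun z : ℕ × List Bool × List Bool × List Bool =>
    mulM z.1 z.2.1 z.2.2.1 z.2.2.2) := by
  unfold mulM
  refine Primrec.list_foldr (α := ℕ × List Bool × List Bool × List Bool) (β := Bool)
    (σ := List Bool) (f := fun z => z.2.2.1)
    (h := fun z p => xorL z.1 (shiftRed z.1 z.2.1 p.2) (bif p.1 then z.2.2.2 else []))
    (Primrec.fst.comp (Primrec.snd.comp Primrec.snd)) (primrec_rep.comp Primrec.fst) ?_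
  have hn : Primrec (fun w : (ℕ × List Bool × List Bool × List Bool) × Bool × List Bool =>
    w.1.1) := Primrec.fst.comp Primrec.fst
  have hg : Primrec (fun w : (ℕ × List Bool × List Bool × List Bool) × Bool × List Bool =>
    w.1.2.1) := Primrec.fst.comp (Primrec.snd.comp Primrec.fst)
  have ht : Primrec (fun w : (ℕ × List Bool × List Bool × List Bool) × Bool × List Bool =>
    w.1.2.2.2) := Primrec.snd.comp (Primrec.snd.comp (Primrec.snd.comp Primrec.fst))
  have hb : Primrec (fun w : (ℕ × List Bool × List Bool × List Bool) × Bool × List Bool =>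
    w.2.1) := Primrec.fst.comp Primrec.snd
  have ha : Primrec (fun w : (ℕ × List Bool × List Bool × List Bool) × Bool × List Bool =>
    w.2.2) := Primrec.snd.comp Primrec.snd
  exact (primrec_xorL.comp (Primrec.pair hn (Primrec.pair
    (primrec_shiftRed.comp (Primrec.pair hn (Primrec.pair hg ha)))
    (Primrec.cond hb ht (Primrec.const []))))).to₂

theorem primrec_oneL : Primrec oneL := by
  unfold oneL
  exact Primrec.list_cons.comp (Primrec.const true) (primrec_rep.comp Primrec.pred)

theorem primrec_invAll : PrimrecPred (fun v : ℕ × List Bool => InvAll v.1 v.2) := by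
  have hA : Primrec (fun p : List Bool × (ℕ × List Bool × List Bool) =>
      mulM p.2.1 p.2.2.1 p.2.2.2 p.1) := by
    have hq : Primrec (fun p : List Bool × (ℕ × List Bool × List Bool) =>
        (p.2.1, p.2.2.1, p.2.2.2, p.1)) := Primrec.pair (Primrec.fst.comp Primrec.snd)
      (Primrec.pair (Primrec.fst.comp (Primrec.snd.comp Primrec.snd)) (Primrec.pair
        (Primrec.snd.comp (Primrec.snd.comp Primrec.snd)) Primrec.fst))
    have hm := primrec_mulM.comp hq
    exact hm
  have hB : Primrec (fun p : List Bool × (ℕ × List Bool × List Bool) => oneL p.2.1) :=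
    primrec_oneL.comp (Primrec.fst.comp Primrec.snd)
  have h1 : PrimrecRel (fun (t : List Bool) (w : ℕ × List Bool × List Bool) =>
      mulM w.1 w.2.1 w.2.2 t = oneL w.1) :=
    PrimrecRel.comp (f := fun p : List Bool × (ℕ × List Bool × List Bool) =>
      mulM p.2.1 p.2.2.1 p.2.2.2 p.1) (g := fun p => oneL p.2.1) Primrec.eq hA hB
  have h2 := h1.exists_mem_list
  have hC : Primrec (fun p : List Bool × (ℕ × List Bool) => List.replicate p.2.1 false) :=
    primrec_rep.comp (Primrec.fst.comp Primrec.snd)
  have h4 : PrimrecPred (fun p : List Bool × (ℕ × List Bool) =>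
      p.1 = List.replicate p.2.1 false) :=
    PrimrecRel.comp (f := fun p : List Bool × (ℕ × List Bool) => p.1)
      (g := fun p => List.replicate p.2.1 false) Primrec.eq Primrec.fst hC
  have hD : Primrec (fun p : List Bool × (ℕ × List Bool) => allLen p.2.1) :=
    primrec_allLen.comp (Primrec.fst.comp Primrec.snd)
  have hE : Primrec (fun p : List Bool × (ℕ × List Bool) => (p.2.1, p.2.2, p.1)) :=
    Primrec.pair (Primrec.fst.comp Primrec.snd) (Primrec.pair
          (Primrec.snd.comp Primrec.snd) Primrec.fst)
  have h5 : PrimrecPred (fun p : List Bool × (ℕ × List Bool) =>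
      ∃ t ∈ allLen p.2.1, mulM p.2.1 p.2.2 p.1 t = oneL p.2.1) :=
    PrimrecRel.comp (f := fun p : List Bool × (ℕ × List Bool) => allLen p.2.1)
      (g := fun p => (p.2.1, p.2.2, p.1)) h2 hD hE
  have h3 : PrimrecRel (fun (s : List Bool) (v : ℕ × List Bool) =>
      s = List.replicate v.1 false ∨ ∃ t ∈ allLen v.1, mulM v.1 v.2 s t = oneL v.1) := by
    exact PrimrecPred.or h4 h5
  have h6 := h3.forall_mem_list
  exact PrimrecRel.comp (f := fun v : ℕ × List Bool => allLen v.1) (g := fun v => v) h6
    (primrec_allLen.comp Primrec.fst) Primrec.id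

open Classical in
/-- the first `g` such that `X ^ n + g` is irreducible -/
noncomputable def gOf (n : ℕ) : List Bool :=
  (allLen n).getD ((allLen n).findIdx (fun g => decide (InvAll n g))) []

theorem primrec_gOf : Primrec gOf := by
  classical
  have h1 : Primrec₂ (fun (n : ℕ) (g : List Bool) => decide (InvAll n g)) := by
    have := primrec_invAll.decide
    exact this.to₂
  have h2 := Primrec.list_findIdx primrec_allLen h1
  have h3 := (Primrec.list_getD ([] : List Bool)).comp primrec_allLen h2
  refine h3.of_eq (fun n => ?_)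
  unfold gOf
  congr

theorem gOf_spec (n : ℕ) (hn : 1 ≤ n) : (gOf n).length = n ∧ Irreducible (modp n (gOf n)) := by
  classical
  obtain ⟨g, hg, hirr⟩ := exists_irr n hn
  have h1 : (allLen n).findIdx (fun g => decide (InvAll n g)) < (allLen n).length := by
    apply List.findIdx_lt_length_of_exists
    exact ⟨g, (mem_allLen n g).2 hg, by simpa using (invAll_iff hn hg).2 hirr⟩
  have h2 := List.findIdx_getElem (p := fun g => decide (InvAll n g)) (xs := allLen n) (w := h1)
  have h3 : gOf n = (allLen n)[(allLen n).findIdx (fun g => decide (InvAll n g))] := by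
    unfold gOf
    rw [List.getD_eq_getElem _ _ h1]
  have h4 : gOf n ∈ allLen n := by rw [h3]; exact List.getElem_mem _
  have h5 : (gOf n).length = n := (mem_allLen n _).1 h4
  refine ⟨h5, (invAll_iff hn h5).1 ?_⟩
  rw [h3]
  simpa using h2

/-- **There is a computable presentation of the fields with `2 ^ n` elements.** -/
theorem exists_fieldSeq : ∃ f, FieldSeq f := by
  refine ⟨fun n => modp n (gOf n), ⟨fun n hn => natDegree_modp (gOf_spec n hn).1,
    fun n hn => (gOf_spec n hn).2, fun n s t r => xorL n (mulM n (gOf n) s t) r, ?_, ?_⟩⟩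
  · have hn : Primrec (fun z : ℕ × List Bool × List Bool × List Bool => z.1) := Primrec.fst
    have hs : Primrec (fun z : ℕ × List Bool × List Bool × List Bool => z.2.1) :=
      Primrec.fst.comp Primrec.snd
    have ht : Primrec (fun z : ℕ × List Bool × List Bool × List Bool => z.2.2.1) :=
      Primrec.fst.comp (Primrec.snd.comp Primrec.snd)
    have hr : Primrec (fun z : ℕ × List Bool × List Bool × List Bool => z.2.2.2) :=
      Primrec.snd.comp (Primrec.snd.comp Primrec.snd)
    exact (primrec_xorL.comp (Primrec.pair hn (Primrec.pair (primrec_mulM.comp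
      (Primrec.pair hn (Primrec.pair (primrec_gOf.comp hn) (Primrec.pair hs ht)))) hr))).to_comp
  · intro n s t r hn hs ht hr
    refine ⟨by simp, ?_⟩
    rw [← elt_mulM hn (gOf_spec n hn).1 ht]
    unfold elt
    rw [polyOf_xorL (by simp) hr.le, map_add]

end Pool.Agent.Helper637.GW
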